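import Pool.Agent.Work.MP_3a2c1d_lc.Point

set_option autoImplicit false
set_option linter.all false

namespace Pool.Agent.Work.MP_3a2c1d_lc

open Helper86 Pd Mv

theorem FDiag.CW1 {ι : Type} (D : FDiag ι) {a : Mv × Bool} {x y : ι} (h : D.cstep a x y) :
    D.CW [a] x y := ⟨x, rfl, h⟩

theorem FDiag.CW2 {ι : Type} (D : FDiag ι) {a b : Mv × Bool} {x y z : ι} (h : D.cstep b x y)
    (h' : D.cstep a y z) : D.CW [a, b] x z := ⟨y, ⟨x, rfl, h⟩, h'⟩

/-- the space-time diagram up to time `J` -/
def dg (n J : ℕ) : FDiag (ℕ × ℕ) where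
  X := ((Finset.range (J + 1)) ×ˢ (Finset.range (n + J + 1))).filter fun p => p.2 ≤ n + p.1
  e p := p.1 * (n + J + 1) + p.2
  e_inj := by
    rintro ⟨j, m⟩ hx ⟨j', m'⟩ hy h
    simp only [Finset.mem_filter, Finset.mem_product, Finset.mem_range] at hx hy
    dsimp only at h
    have h1 : j = j' := by
      have e1 : (j * (n + J + 1) + m) / (n + J + 1) = j := by
        rw [mul_comm, Nat.mul_add_div (by omega), Nat.div_eq_of_lt hx.1.2, add_zero]
      have e2 : (j' * (n + J + 1) + m') / (n + J + 1) = j' := by
        rw [mul_comm, Nat.mul_add_div (by omega), Nat.div_eq_of_lt hy.1.2, add_zero]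
      rw [← e1, ← e2, h]
    subst h1
    have h2 : m = m' := by omega
    rw [h2]
  τ a p := match a with
    | T => if p.1 ≤ J ∧ p.2 < n + p.1 then some (p.1, p.2 + 1) else none
    | H => if p.1 < J ∧ p.2 ≤ n + p.1 then some (p.1 + 1, p.2) else none
  dom := by
    rintro a ⟨j, m⟩ y h
    cases a with
    | T =>
      dsimp only at h
      split_ifs at h with hc
      simp only [Option.some.injEq] at h
      subst h
      simp only [Finset.mem_filter, Finset.mem_product, Finset.mem_range]
      omega
    | H =>
      dsimp only at h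
      split_ifs at h with hc
      simp only [Option.some.injEq] at h
      subst h
      simp only [Finset.mem_filter, Finset.mem_product, Finset.mem_range]
      omega
  up := by
    rintro a ⟨j, m⟩ y h
    cases a with
    | T =>
      dsimp only at h
      split_ifs at h with hc
      simp only [Option.some.injEq] at h
      subst h
      dsimp only
      omega
    | H =>
      dsimp only at h
      split_ifs at h with hc
      simp only [Option.some.injEq] at h
      subst h
      dsimp only
      rw [Nat.add_mul]
      omega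
  mono := by
    rintro a ⟨j, m⟩ y ⟨j', m'⟩ y' h h' hlt
    cases a with
    | T =>
      dsimp only at h h' hlt
      split_ifs at h h' with hc hc'
      simp only [Option.some.injEq] at h h'
      subst h; subst h'
      dsimp only
      omega
    | H =>
      dsimp only at h h' hlt
      split_ifs at h h' with hc hc'
      simp only [Option.some.injEq] at h h'
      subst h; subst h'
      dsimp only
      rw [Nat.add_mul, Nat.add_mul]
      omega

theorem mem_dg (n J j m : ℕ) : (j, m) ∈ (dg n J).X ↔ j ≤ J ∧ m ≤ n + j := by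
  change (j, m) ∈ (((Finset.range (J + 1)) ×ˢ (Finset.range (n + J + 1))).filter fun p => p.2 ≤ n + p.1) ↔ _
  simp only [Finset.mem_filter, Finset.mem_product, Finset.mem_range]
  omega

theorem dg_T (n J j m : ℕ) (h1 : j ≤ J) (h2 : m < n + j) :
    (dg n J).cstep (T, true) (j, m) (j, m + 1) := by
  change (if j ≤ J ∧ m < n + j then some (j, m + 1) else none) = some (j, m + 1)
  rw [if_pos ⟨h1, h2⟩]

theorem dg_H (n J j m : ℕ) (h1 : j < J) (h2 : m ≤ n + j) :
    (dg n J).cstep (H, true) (j, m) (j + 1, m) := by
  change (if j < J ∧ m ≤ n + j then some (j + 1, m) else none) = some (j + 1, m)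
  rw [if_pos ⟨h1, h2⟩]

theorem dg_Ti (n J j m : ℕ) (h1 : j ≤ J) (h2 : m < n + j) :
    (dg n J).cstep (T, false) (j, m + 1) (j, m) := by
  change (if j ≤ J ∧ m < n + j then some (j, m + 1) else none) = some (j, m + 1)
  rw [if_pos ⟨h1, h2⟩]

theorem dg_rep (n J : ℕ) : ∀ m ≤ n, (dg n J).CW (List.replicate m (T, true)) (0, 0) (0, m) := by
  intro m
  induction m with
  | zero => intro _; rfl
  | succ m ih =>
    intro hm
    rw [List.replicate_succ]
    exact ⟨(0, m), ih (by omega), dg_T n J 0 m (by omega) (by omega)⟩

variable {M : CM}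

/-- labels of the diagram -/
def labD (q0 : M.Q) (r1 : Fin M.B) (n : ℕ) : Pd M → ℕ × ℕ → Prop
  | start, p => p = (0, 0)
  | base, p => p.2 = 0
  | nb, p => p.2 ≠ 0
  | ne, p => p.2 < n + p.1
  | en, p => p.2 = n + p.1
  | S q z, p => (conf q0 r1 n p.1).1 = q ∧ decide ((conf q0 r1 n p.1).2 (M.reg q) ≠ 0) = z
  | G r, p => p.2 < (conf q0 r1 n p.1).2 r
  | L r, p => (conf q0 r1 n p.1).2 r ≤ p.2

theorem app_le (o : Op) (k : ℕ) : o.app k ≤ k + 1 := by
  cases o <;> simp only [Op.app] <;> omega

theorem conf_le (q0 : M.Q) (r1 : Fin M.B) (n j : ℕ) (r : Fin M.B) :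
    (conf q0 r1 n j).2 r ≤ n + j := by
  induction j with
  | zero =>
    change (if r = r1 then n else 0) ≤ n + 0
    split_ifs <;> omega
  | succ j ih =>
    rw [conf_succ]
    unfold CM.step
    simp only [Function.update_apply]
    split_ifs with h
    · rw [← h]
      exact (app_le _ _).trans (by omega)
    · omega

theorem csat_all (q0 : M.Q) (r1 : Fin M.B) (n J : ℕ) (hJ : (conf q0 r1 n J).1 = M.hlt) :
    ∀ c ∈ cons M q0 r1 n, (dg n J).csat (labD q0 r1 n) c := by
  have hle := conf_le q0 r1 n
  have hjJ : ∀ j q z m, (j, m) ∈ (dg n J).X → q ≠ M.hlt → labD q0 r1 n (S q z) (j, m) → j < J := by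
    intro j q z m hx hq hS
    rw [mem_dg] at hx
    rcases Nat.lt_or_ge j J with h | h
    · exact h
    · exfalso
      have : j = J := by omega
      subst this
      apply hq
      rw [← hS.1, hJ]
  have hnext : ∀ j q z, labD q0 r1 n (S q z) (j, 0) →
      conf q0 r1 n (j + 1) = (M.nxt q z, Function.update (conf q0 r1 n j).2 (M.reg q)
        ((M.op q z).app ((conf q0 r1 n j).2 (M.reg q)))) := by
    rintro j q z ⟨h1, h2⟩
    rw [conf_succ]
    unfold CM.step
    dsimp only at h1 h2
    subst h1
    rw [h2]
  have sh : ∀ q z j m, labD q0 r1 n (S q z) (j, m) → ∀ m', labD q0 r1 n (S q z) (j, m') :=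
    fun q z j m h m' => h
  have hHor : ∀ c ∈ consH M, (dg n J).csat (labD q0 r1 n) c := by
    intro c hc
    unfold consH at hc
    rw [List.mem_append, List.mem_flatMap] at hc
    rcases hc with hc | ⟨q, _, hc⟩
    · simp only [List.mem_cons, List.not_mem_nil, or_false] at hc
      rcases hc with rfl | rfl | rfl | rfl
      · rintro ⟨j, m⟩ hx hP
        have h1 : m < n + j := hP ne (by simp)
        rw [mem_dg] at hx
        exact ⟨(j, m + 1), (mem_dg _ _ _ _).2 (by omega), (dg n J).CW1 (dg_T n J j m hx.1 h1),
          nb, by simp, Nat.succ_ne_zero m⟩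
      · rintro ⟨j, m⟩ hx hP
        have h1 : m < n + j := hP ne (by simp)
        rw [mem_dg] at hx
        refine ⟨(j, m + 1), (mem_dg _ _ _ _).2 (by omega), (dg n J).CW1 (dg_T n J j m hx.1 h1), ?_⟩
        rcases Nat.lt_or_ge (m + 1) (n + j) with h2 | h2
        · exact ⟨ne, by simp, h2⟩
        · exact ⟨en, by simp, by change m + 1 = n + j; omega⟩
      · rintro ⟨j, m⟩ hx hP
        have h1 : m < n + j := hP ne (by simp)
        have h2 : m = n + j := hP en (by simp)
        omega
      · rintro ⟨j, m⟩ hx hP
        have h1 : m = 0 := hP base (by simp)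
        have h2 : m ≠ 0 := hP nb (by simp)
        exact absurd h1 h2
    · simp only [List.mem_cons, List.not_mem_nil, or_false] at hc
      have hT : ∀ z, (dg n J).csat (labD q0 r1 n) (Con.imp [ne, S q z] [(T, true)] [S q z]) := by
        rintro z ⟨j, m⟩ hx hP
        have h1 : m < n + j := hP ne (by simp)
        have h2 : labD q0 r1 n (S q z) (j, m) := hP _ (by simp)
        rw [mem_dg] at hx
        exact ⟨(j, m + 1), (mem_dg _ _ _ _).2 (by omega), (dg n J).CW1 (dg_T n J j m hx.1 h1),
          S q z, by simp, h2⟩
      rcases hc with rfl | rfl | rfl | rfl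
      · exact hT _
      · exact hT _
      · rintro ⟨j, m⟩ hx hP
        exfalso
        have h1 : m = 0 := hP base (by simp)
        have h2 : labD q0 r1 n (S q false) (j, m) := hP _ (by simp)
        have h3 : m < (conf q0 r1 n j).2 (M.reg q) := hP (G (M.reg q)) (by simp)
        have h4 := h2.2
        simp only [decide_eq_false_iff_not, not_not] at h4
        omega
      · rintro ⟨j, m⟩ hx hP
        exfalso
        have h1 : m = 0 := hP base (by simp)
        have h2 : labD q0 r1 n (S q true) (j, m) := hP _ (by simp)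
        have h3 : (conf q0 r1 n j).2 (M.reg q) ≤ m := hP (L (M.reg q)) (by simp)
        have h4 := h2.2
        simp only [decide_eq_true_eq] at h4
        omega
  have hReg : ∀ q z r, q ≠ M.hlt → ∀ c ∈ consR M q z r, (dg n J).csat (labD q0 r1 n) c := by
    intro q z r hq c hc
    have same : (∀ j, labD q0 r1 n (S q z) (j, 0) →
        (conf q0 r1 n (j + 1)).2 r = (conf q0 r1 n j).2 r) →
        ∀ c ∈ ([Con.imp [S q z, G r] [(H, true)] [G r], Con.imp [S q z, L r] [(H, true)] [L r]] :
          List (Con M)), (dg n J).csat (labD q0 r1 n) c := by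
      intro hv c hc
      simp only [List.mem_cons, List.not_mem_nil, or_false] at hc
      rcases hc with rfl | rfl
      · rintro ⟨j, m⟩ hx hP
        have h2 : labD q0 r1 n (S q z) (j, m) := hP _ (by simp)
        have h3 : m < (conf q0 r1 n j).2 r := hP (G r) (by simp)
        have hj := hjJ j q z m hx hq h2
        rw [mem_dg] at hx
        refine ⟨(j + 1, m), (mem_dg _ _ _ _).2 (by omega), (dg n J).CW1 (dg_H n J j m hj hx.2),
          G r, by simp, ?_⟩
        change m < (conf q0 r1 n (j + 1)).2 r
        rw [hv j h2]; exact h3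
      · rintro ⟨j, m⟩ hx hP
        have h2 : labD q0 r1 n (S q z) (j, m) := hP _ (by simp)
        have h3 : (conf q0 r1 n j).2 r ≤ m := hP (L r) (by simp)
        have hj := hjJ j q z m hx hq h2
        rw [mem_dg] at hx
        refine ⟨(j + 1, m), (mem_dg _ _ _ _).2 (by omega), (dg n J).CW1 (dg_H n J j m hj hx.2),
          L r, by simp, ?_⟩
        change (conf q0 r1 n (j + 1)).2 r ≤ m
        rw [hv j h2]; exact h3
    unfold consR at hc
    letI := M.deq
    split at hc
    · rename_i hr
      have hv : ∀ j, labD q0 r1 n (S q z) (j, 0) →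
          (conf q0 r1 n (j + 1)).2 r = (M.op q z).app ((conf q0 r1 n j).2 r) := by
        intro j h
        rw [hnext j q z h, ← hr]
        simp
      split at hc
      · rename_i hop
        refine same (fun j h => ?_) c hc
        rw [hv j h, hop]; rfl
      · rename_i hop
        rw [hop] at hv
        simp only [List.mem_cons, List.not_mem_nil, or_false] at hc
        rcases hc with rfl | rfl | rfl
        · rintro ⟨j, m⟩ hx hP
          have h2 : labD q0 r1 n (S q z) (j, m) := hP _ (by simp)
          have h3 : m < (conf q0 r1 n j).2 r := hP (G r) (by simp)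
          have hj := hjJ j q z m hx hq h2
          rw [mem_dg] at hx
          refine ⟨(j + 1, m + 1), (mem_dg _ _ _ _).2 (by omega), (dg n J).CW2
            (dg_H n J j m hj hx.2) (dg_T n J (j + 1) m (by omega) (by omega)), G r, by simp, ?_⟩
          change m + 1 < (conf q0 r1 n (j + 1)).2 r
          rw [hv j h2]; exact Nat.succ_lt_succ h3
        · rintro ⟨j, m⟩ hx hP
          have h2 : labD q0 r1 n (S q z) (j, m) := hP _ (by simp)
          have h3 : (conf q0 r1 n j).2 r ≤ m := hP (L r) (by simp)
          have hj := hjJ j q z m hx hq h2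
          rw [mem_dg] at hx
          refine ⟨(j + 1, m + 1), (mem_dg _ _ _ _).2 (by omega), (dg n J).CW2
            (dg_H n J j m hj hx.2) (dg_T n J (j + 1) m (by omega) (by omega)), L r, by simp, ?_⟩
          change (conf q0 r1 n (j + 1)).2 r ≤ m + 1
          rw [hv j h2]; exact Nat.succ_le_succ h3
        · rintro ⟨j, m⟩ hx hP
          have h2 : labD q0 r1 n (S q z) (j, m) := hP _ (by simp)
          have h3 : m = 0 := hP base (by simp)
          have hj := hjJ j q z m hx hq h2
          rw [mem_dg] at hx
          refine ⟨(j + 1, m), (mem_dg _ _ _ _).2 (by omega), (dg n J).CW1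
            (dg_H n J j m hj hx.2), G r, by simp, ?_⟩
          change m < (conf q0 r1 n (j + 1)).2 r
          rw [hv j h2, h3]; exact Nat.succ_pos _
      · rename_i hop
        rw [hop] at hv
        simp only [List.mem_cons, List.not_mem_nil, or_false] at hc
        rcases hc with rfl | rfl | rfl
        · rintro ⟨j, m⟩ hx hP
          have h2 : labD q0 r1 n (S q z) (j, m) := hP _ (by simp)
          have h3 : m < (conf q0 r1 n j).2 r := hP (G r) (by simp)
          have h4 : m ≠ 0 := hP nb (by simp)
          have hj := hjJ j q z m hx hq h2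
          rw [mem_dg] at hx
          obtain ⟨m, rfl⟩ := Nat.exists_eq_succ_of_ne_zero h4
          refine ⟨(j + 1, m), (mem_dg _ _ _ _).2 (by omega), (dg n J).CW2
            (dg_H n J j (m + 1) hj hx.2) (dg_Ti n J (j + 1) m (by omega) (by omega)), G r, by simp, ?_⟩
          change m < (conf q0 r1 n (j + 1)).2 r
          rw [hv j h2]
          change m < (conf q0 r1 n j).2 r - 1
          omega
        · rintro ⟨j, m⟩ hx hP
          have h2 : labD q0 r1 n (S q z) (j, m) := hP _ (by simp)
          have h3 : (conf q0 r1 n j).2 r ≤ m := hP (L r) (by simp)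
          have h4 : m ≠ 0 := hP nb (by simp)
          have hj := hjJ j q z m hx hq h2
          rw [mem_dg] at hx
          obtain ⟨m, rfl⟩ := Nat.exists_eq_succ_of_ne_zero h4
          refine ⟨(j + 1, m), (mem_dg _ _ _ _).2 (by omega), (dg n J).CW2
            (dg_H n J j (m + 1) hj hx.2) (dg_Ti n J (j + 1) m (by omega) (by omega)), L r, by simp, ?_⟩
          change (conf q0 r1 n (j + 1)).2 r ≤ m
          rw [hv j h2]
          change (conf q0 r1 n j).2 r - 1 ≤ m
          omega
        · rintro ⟨j, m⟩ hx hP
          have h2 : labD q0 r1 n (S q z) (j, m) := hP _ (by simp)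
          have h3 : m = n + j := hP en (by simp)
          have hj := hjJ j q z m hx hq h2
          rw [mem_dg] at hx
          refine ⟨(j + 1, m), (mem_dg _ _ _ _).2 (by omega), (dg n J).CW1
            (dg_H n J j m hj hx.2), L r, by simp, ?_⟩
          change (conf q0 r1 n (j + 1)).2 r ≤ m
          rw [hv j h2]
          change (conf q0 r1 n j).2 r - 1 ≤ m
          have := hle j r
          omega
    · rename_i hr
      refine same (fun j h => ?_) c hc
      rw [hnext j q z h]
      simp [Function.update_apply, Ne.symm hr]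
  have hVer : ∀ q z, q ≠ M.hlt → ∀ c ∈ consV M q z, (dg n J).csat (labD q0 r1 n) c := by
    intro q z hq c hc
    unfold consV at hc
    rw [List.mem_append, List.mem_flatMap] at hc
    rcases hc with hc | ⟨r, _, hc⟩
    · simp only [List.mem_cons, List.not_mem_nil, or_false] at hc
      rcases hc with rfl | rfl | rfl | rfl | rfl
      · rintro ⟨j, m⟩ hx hP
        have h1 : m < n + j := hP ne (by simp)
        have h2 : labD q0 r1 n (S q z) (j, m) := hP _ (by simp)
        have hj := hjJ j q z m hx hq h2
        rw [mem_dg] at hx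
        refine ⟨(j + 1, m + 1), (mem_dg _ _ _ _).2 (by omega), (dg n J).CW2
            (dg_T n J j m (by omega) h1) (dg_H n J j (m + 1) hj (by omega)), (dg n J).CW2
            (dg_H n J j m hj hx.2) (dg_T n J (j + 1) m (by omega) (by omega))⟩
      · rintro ⟨j, m⟩ hx hP
        have h2 : labD q0 r1 n (S q z) (j, m) := hP _ (by simp)
        have hj := hjJ j q z m hx hq h2
        rw [mem_dg] at hx
        refine ⟨(j + 1, m), (mem_dg _ _ _ _).2 (by omega), (dg n J).CW1
            (dg_H n J j m hj hx.2), ?_⟩
        have e := hnext j q z h2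
        have e1 : (conf q0 r1 n (j + 1)).1 = M.nxt q z := by rw [e]
        cases hz : decide ((conf q0 r1 n (j + 1)).2 (M.reg (M.nxt q z)) ≠ 0) with
        | false => exact ⟨S (M.nxt q z) false, by simp, e1, hz⟩
        | true => exact ⟨S (M.nxt q z) true, by simp, e1, hz⟩
      · rintro ⟨j, m⟩ hx hP
        have h2 : labD q0 r1 n (S q z) (j, m) := hP _ (by simp)
        have h3 : m = 0 := hP base (by simp)
        have hj := hjJ j q z m hx hq h2
        rw [mem_dg] at hx
        exact ⟨(j + 1, m), (mem_dg _ _ _ _).2 (by omega), (dg n J).CW1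
            (dg_H n J j m hj hx.2), base, by simp, h3⟩
      · rintro ⟨j, m⟩ hx hP
        have h2 : labD q0 r1 n (S q z) (j, m) := hP _ (by simp)
        have hj := hjJ j q z m hx hq h2
        rw [mem_dg] at hx
        exact ⟨(j + 1, m), (mem_dg _ _ _ _).2 (by omega), (dg n J).CW1
            (dg_H n J j m hj hx.2), ne, by simp, by change m < n + (j + 1); omega⟩
      · rintro ⟨j, m⟩ hx hP
        have h2 : labD q0 r1 n (S q z) (j, m) := hP _ (by simp)
        have h3 : m = n + j := hP en (by simp)
        have hj := hjJ j q z m hx hq h2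
        rw [mem_dg] at hx
        exact ⟨(j + 1, m + 1), (mem_dg _ _ _ _).2 (by omega), (dg n J).CW2
            (dg_H n J j m hj hx.2) (dg_T n J (j + 1) m (by omega) (by omega)), en, by simp,
            by change m + 1 = n + (j + 1); omega⟩
    · rw [List.mem_cons] at hc
      rcases hc with rfl | hc
      · rintro ⟨j, m⟩ hx hP
        have h2 : labD q0 r1 n (S q z) (j, m) := hP _ (by simp)
        have h3 : m = n + j := hP en (by simp)
        have hj := hjJ j q z m hx hq h2
        rw [mem_dg] at hx
        refine ⟨(j + 1, m + 1), (mem_dg _ _ _ _).2 (by omega), (dg n J).CW2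
            (dg_H n J j m hj hx.2) (dg_T n J (j + 1) m (by omega) (by omega)), L r, by simp, ?_⟩
        change (conf q0 r1 n (j + 1)).2 r ≤ m + 1
        have := hle (j + 1) r
        omega
      · exact hReg q z r hq c hc
  intro c hc
  unfold cons consFix at hc
  rw [List.mem_append, List.mem_append, List.mem_append, List.mem_append] at hc
  rcases hc with ((hc | hc) | hc) | (hc | hc)
  · exact hHor c hc
  · rw [List.mem_flatMap] at hc
    obtain ⟨q, hq, hc⟩ := hc
    rw [List.mem_filter] at hq
    have hq' : q ≠ M.hlt := by simpa using hq.2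
    rw [List.mem_append] at hc
    rcases hc with hc | hc
    · exact hVer q _ hq' c hc
    · exact hVer q _ hq' c hc
  · simp only [List.mem_cons, List.not_mem_nil, or_false] at hc
    rcases hc with rfl | rfl
    · rintro ⟨j, m⟩ hx hP
      have h1 : (j, m) = (0, 0) := hP start (by simp)
      rw [Prod.mk.injEq] at h1
      exact ⟨(j, m), hx, rfl, base, by simp, h1.2⟩
    · rintro ⟨j, m⟩ hx hP
      have h1 : (j, m) = (0, 0) := hP start (by simp)
      rw [Prod.mk.injEq] at h1
      obtain ⟨rfl, rfl⟩ := h1
      refine ⟨(0, 0), hx, rfl, ?_⟩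
      cases hz : decide ((conf q0 r1 n 0).2 (M.reg q0) ≠ 0) with
      | false => exact ⟨S q0 false, by simp, rfl, hz⟩
      | true => exact ⟨S q0 true, by simp, rfl, hz⟩
  · rw [List.mem_flatMap] at hc
    obtain ⟨m, hm, hc⟩ := hc
    rw [List.mem_range] at hm
    unfold conMid at hc
    rw [List.mem_map] at hc
    obtain ⟨P, hP, rfl⟩ := hc
    rintro ⟨j, m'⟩ hx hP'
    have h1 : (j, m') = (0, 0) := hP' start (by simp)
    rw [h1]
    refine ⟨(0, m), (mem_dg _ _ _ _).2 (by omega), dg_rep n J m hm.le, P, by simp, ?_⟩
    rw [List.mem_cons, List.mem_map] at hP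
    rcases hP with rfl | ⟨r, _, rfl⟩
    · change m < n + 0; omega
    · split_ifs with hr
      · subst hr
        change m < (if r = r then n else 0)
        rw [if_pos rfl]; exact hm
      · change (if r = r1 then n else 0) ≤ m
        rw [if_neg hr]; omega
  · unfold conEnd at hc
    rw [List.mem_map] at hc
    obtain ⟨P, hP, rfl⟩ := hc
    rintro ⟨j, m'⟩ hx hP'
    have h1 : (j, m') = (0, 0) := hP' start (by simp)
    rw [h1]
    refine ⟨(0, n), (mem_dg _ _ _ _).2 (by omega), dg_rep n J n le_rfl, P, by simp, ?_⟩
    rw [List.mem_cons, List.mem_map] at hP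
    rcases hP with rfl | ⟨r, _, rfl⟩
    · change n = n + 0; omega
    · have := hle 0 r
      exact this

end Pool.Agent.Work.MP_3a2c1d_lc
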