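import Pool.Agent.Work.MP_3a2c1d_lc.Sound
import Pool.Agent.Work.MP_3a2c1d_lc.Diag

set_option autoImplicit false
set_option linter.all false

namespace Pool.Agent.Work.MP_3a2c1d_lc

open Helper86 Pd Mv

/-! ### numbering of the variables -/

def numb {M : CM} : Var M → ℕ × Option M.Q × Bool × Option (Fin M.B)
  | Var.pd start => (0, none, false, none)
  | Var.pd base => (1, none, false, none)
  | Var.pd nb => (2, none, false, none)
  | Var.pd ne => (3, none, false, none)
  | Var.pd en => (4, none, false, none)
  | Var.pd (S q z) => (5, some q, z, none)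
  | Var.pd (G r) => (6, none, false, some r)
  | Var.pd (L r) => (7, none, false, some r)
  | Var.mv T => (8, none, false, none)
  | Var.mv H => (9, none, false, none)

theorem numb_inj {M : CM} : Function.Injective (numb (M := M)) := by
  intro a b h
  rcases a with a | a <;> rcases a <;> rcases b with b | b <;> rcases b <;>
    simp only [numb, Prod.mk.injEq, Option.some.injEq, reduceCtorEq, and_true, and_false,
      false_and, true_and] at h ⊢ <;>
    first
      | rfl
      | (exfalso; omega)
      | (obtain ⟨h1, h2⟩ := h; subst h1; subst h2; rfl)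
      | (subst h; rfl)

theorem exists_code (M : CM) : ∃ code : Var M → ℕ, Function.Injective code := by
  letI := M.fin
  have : Countable (Var M) := numb_inj.countable
  exact Countable.exists_injective_nat _

/-! ### the clauses -/

abbrev Cl := List Tm × List Tm

/-- the clause holds in `G` -/
def Holds (G : Type) [Group G] [Lattice G] (c : Cl) : Prop :=
  ∀ x : ℕ → G, (∀ t ∈ c.1, tv x t = 1) → ∃ u ∈ c.2, tv x u = 1

section

variable {M : CM} (q0 : M.Q) (r1 : Fin M.B) (code : Var M → ℕ)

noncomputable def clause (N : ℕ) : Cl :=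
  ((cons M q0 r1 N).flatMap (terms code), [trm [[(code (Var.pd start), true)]]])

theorem seqs_ne (c : Con M) (hprem : c.prem ≠ []) : ∀ s ∈ seqs c, s.1 ≠ [] ∧ s.2 ≠ [] := by
  intro s hs
  cases c with
  | imp Ps w Cs =>
    cases Cs with
    | nil =>
      rw [seqs, List.mem_singleton] at hs
      subst hs
      simp only [Con.prem] at hprem
      exact ⟨by simpa using hprem, by simp⟩
    | cons C0 Cs =>
      rw [seqs, List.mem_singleton] at hs
      subst hs
      simp only [Con.prem] at hprem
      exact ⟨by simpa using hprem, by simp⟩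
  | eq Ps w w' =>
    rw [seqs, List.mem_cons, List.mem_singleton] at hs
    rcases hs with rfl | rfl <;> simp

theorem holds_clause (hcode : Function.Injective code) (N : ℕ) :
    Holds (FL 2) (clause q0 r1 code N) ↔ ∀ j, (conf q0 r1 N j).1 ≠ M.hlt := by
  have hcon : ∀ x : ℕ → FL 2, tv x (trm [[(code (Var.pd (start : Pd M)), true)]]) = 1 ↔
      x (code (Var.pd (start : Pd M))) ≤ 1 := by
    intro x
    rw [tv_trm]
    change vv x [(code (Var.pd start), true)] ≤ 1 ↔ _
    rw [vv_single_true]
  constructor
  · intro h J hJ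
    let y : Var M → FL 2 := (dg N J).asg (labD q0 r1 N)
    let x : ℕ → FL 2 := Function.extend code y (fun _ => 1)
    have hxy : x ∘ code = y := by
      funext v
      exact hcode.extend_apply y (fun _ => 1) v
    obtain ⟨u, hu, hu1⟩ := h x (by
      intro t ht
      simp only [clause, List.mem_flatMap] at ht
      obtain ⟨c, hc, ht⟩ := ht
      unfold terms at ht
      rw [List.mem_map] at ht
      obtain ⟨s, hs, rfl⟩ := ht
      have hprem := prem_ne q0 r1 N c hc
      obtain ⟨h1, h2⟩ := seqs_ne c hprem s hs
      rw [sequent x code s.1 s.2 h1 h2, hxy]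
      intro Ω _ R u
      exact (dg N J).seqs_hold (labD q0 r1 N) R c hprem (csat_all q0 r1 N J hJ c hc) s hs u)
    simp only [clause, List.mem_singleton] at hu
    subst hu
    rw [hcon] at hu1
    have e : x (code (Var.pd (start : Pd M))) = (dg N J).labE (labD q0 r1 N start) := by
      have := congrFun hxy (Var.pd start)
      exact this
    rw [e] at hu1
    exact (dg N J).labE_not_le _ (0, 0) ((mem_dg N J 0 0).2 ⟨Nat.zero_le _, Nat.zero_le _⟩)
      (by simp [labD]) hu1
  · intro h x hx
    refine ⟨_, List.mem_singleton_self _, ?_⟩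
    rw [hcon]
    by_contra hst
    obtain ⟨j, hj⟩ := sound q0 r1 N code x (by
      intro c hc t ht
      exact hx t (List.mem_flatMap.2 ⟨c, hc, ht⟩)) hst
    exact h j hj

/-! ### computability of the clauses -/

/-- the term of an initial constraint -/
def icon (cs cT : ℕ) (m k : ℕ) : Tm :=
  (((cs, true) :: (List.replicate m (cT, false) ++ (k, false) :: List.replicate m (cT, true)), []),
    [([], [])])

theorem invRev_rep (m cT : ℕ) : FreeGroup.invRev (List.replicate m (cT, true)) =
    List.replicate m (cT, false) := by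
  simp [FreeGroup.invRev]

theorem terms_icon (m : ℕ) (P : Pd M) :
    terms code (Con.imp [start] (List.replicate m (T, true)) [P]) =
      [icon (code (Var.pd start)) (code (Var.mv T)) m (code (Var.pd P))] := by
  unfold terms seqs
  simp only [List.map_cons, List.map_nil, pairs, List.flatMap_cons, List.flatMap_nil,
    List.append_nil]
  unfold icon trm
  simp [mvw, pw, FreeGroup.invRev, List.map_replicate]

def kmid : List ℕ :=
  (ne :: (rList M).map (fun r => if r = r1 then G r else L r)).map fun P => code (Var.pd P)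

def kend : List ℕ :=
  (en :: (rList M).map (fun r => (L r : Pd M))).map fun P => code (Var.pd P)

theorem flatMap_single {α β : Type} (l : List α) (f : α → List β) (g : α → β)
    (h : ∀ a, f a = [g a]) : l.flatMap f = l.map g := by
  induction l with
  | nil => rfl
  | cons a l ih => rw [List.flatMap_cons, List.map_cons, ih, h]; rfl

theorem clause_eq (N : ℕ) : clause q0 r1 code N =
    ((consFix M q0).flatMap (terms code) ++
      ((List.range N).flatMap (fun m => (kmid r1 code).map
          (icon (code (Var.pd start)) (code (Var.mv T)) m)) ++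
        (kend code).map (icon (code (Var.pd start)) (code (Var.mv T)) N)),
      [trm [[(code (Var.pd start), true)]]]) := by
  unfold clause cons
  rw [List.flatMap_append, List.flatMap_append]
  congr 3
  · rw [List.flatMap_assoc]
    congr 1
    funext m
    unfold conMid kmid
    rw [List.flatMap_map, List.map_map]
    exact flatMap_single _ _ _ (fun P => terms_icon code m P)
  · unfold conEnd kend
    rw [List.flatMap_map, List.map_map]
    exact flatMap_single _ _ _ (fun P => terms_icon code N P)

theorem primrec_icon (cs cT : ℕ) : Primrec₂ (icon cs cT) := by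
  have hrep : ∀ b : Bool, Primrec (fun p : ℕ × ℕ => List.replicate p.1 (cT, b)) := by
    intro b
    have : (fun p : ℕ × ℕ => List.replicate p.1 (cT, b)) =
        fun p : ℕ × ℕ => (List.range p.1).map (fun _ => (cT, b)) := by
      funext p
      simp [List.map_const']
    rw [this]
    exact Primrec.list_map (Primrec.list_range.comp Primrec.fst) (Primrec₂.const (cT, b))
  have h1 : Primrec (fun p : ℕ × ℕ => (((cs, true) :: (List.replicate p.1 (cT, false) ++
      (p.2, false) :: List.replicate p.1 (cT, true)) : Wd))) := by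
    apply Primrec.list_cons.comp (Primrec.const (cs, true))
    apply Primrec.list_append.comp (hrep false)
    apply Primrec.list_cons.comp _ (hrep true)
    exact Primrec.pair Primrec.snd (Primrec.const false)
  exact Primrec.pair (Primrec.pair h1 (Primrec.const [])) (Primrec.const [([], [])])

theorem primrec_clause : Primrec (clause q0 r1 code) := by
  have : clause q0 r1 code = fun N => _ := funext (clause_eq q0 r1 code)
  rw [this]
  have hic := primrec_icon (code (Var.pd (start : Pd M))) (code (Var.mv T))
  refine Primrec.pair ?_ (Primrec.const _)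
  refine Primrec.list_append.comp (Primrec.const _) ?_
  refine Primrec.list_append.comp ?_ ?_
  · refine Primrec.list_flatMap Primrec.list_range ?_
    refine Primrec.list_map (Primrec.const _) ?_
    exact hic.comp₂ (Primrec.snd.comp Primrec.fst).to₂ Primrec.snd.to₂
  · refine Primrec.list_map (Primrec.const _) ?_
    exact hic

end

/-! ### transfer between free lattice-ordered groups -/

section transfer

variable {G G' : Type} [Group G] [Lattice G] [Group G'] [Lattice G']

theorem vv_hom (φ : G →* G') (x : ℕ → G) (w : Wd) : vv (φ ∘ x) w = φ (vv x w) := by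
  unfold vv
  have : FreeGroup.lift (φ ∘ x) = φ.comp (FreeGroup.lift x) := by
    apply FreeGroup.ext_hom
    intro a
    simp
  rw [this]; rfl

theorem infv_hom (φ : G →* G') (hinf : ∀ a b : G, φ (a ⊓ b) = φ a ⊓ φ b) (x : ℕ → G)
    (q : Wd × List Wd) : infv (φ ∘ x) q = φ (infv x q) := by
  obtain ⟨w, ws⟩ := q
  induction ws with
  | nil => exact vv_hom φ x w
  | cons a ws ih =>
    change vv (φ ∘ x) a ⊓ infv (φ ∘ x) (w, ws) = φ (vv x a ⊓ infv x (w, ws))
    rw [hinf, ih, vv_hom]

theorem tv_hom (φ : G →* G') (hsup : ∀ a b : G, φ (a ⊔ b) = φ a ⊔ φ b)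
    (hinf : ∀ a b : G, φ (a ⊓ b) = φ a ⊓ φ b) (x : ℕ → G) (t : Tm) :
    tv (φ ∘ x) t = φ (tv x t) := by
  obtain ⟨q, qs⟩ := t
  induction qs with
  | nil => exact infv_hom φ hinf x q
  | cons a qs ih =>
    change infv (φ ∘ x) a ⊔ tv (φ ∘ x) (q, qs) = φ (infv x a ⊔ tv x (q, qs))
    rw [hsup, ih, infv_hom φ hinf]

/-- clauses pass to subalgebras -/
theorem Holds.of_embedding (φ : G →* G') (hφ : Function.Injective φ)
    (hsup : ∀ a b : G, φ (a ⊔ b) = φ a ⊔ φ b) (hinf : ∀ a b : G, φ (a ⊓ b) = φ a ⊓ φ b) (c : Cl)
    (h : Holds G' c) : Holds G c := by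
  intro x hx
  obtain ⟨u, hu, h1⟩ := h (φ ∘ x) (by
    intro t ht
    rw [tv_hom φ hsup hinf, hx t ht, map_one])
  refine ⟨u, hu, ?_⟩
  rw [tv_hom φ hsup hinf] at h1
  apply hφ
  rw [h1, map_one]

end transfer

/-- freeness on `n` generators -/
def IsFree {n : ℕ} {G : Type} [Group G] [Lattice G] (g : Fin n → G) : Prop :=
  ∀ (H : Type) [Group H] [Lattice H] [MulLeftMono H] [MulRightMono H] (f : Fin n → H),
      ∃ φ : G →* H, (∀ a b : G, φ (a ⊔ b) = φ a ⊔ φ b) ∧ (∀ a b : G, φ (a ⊓ b) = φ a ⊓ φ b) ∧
        (∀ i, φ (g i) = f i) ∧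
        ∀ ψ : G →* H, (∀ a b : G, ψ (a ⊔ b) = ψ a ⊔ ψ b) → (∀ a b : G, ψ (a ⊓ b) = ψ a ⊓ ψ b) →
          (∀ i, ψ (g i) = f i) → ψ = φ

theorem holds_free {n : ℕ} (hn : 2 ≤ n) {G : Type} [Group G] [Lattice G] [MulLeftMono G]
    [MulRightMono G] (g : Fin n → G) (hg : IsFree g) {M : CM} (q0 : M.Q) (r1 : Fin M.B)
    (code : Var M → ℕ) (hcode : Function.Injective code) (N : ℕ) :
    Holds G (clause q0 r1 code N) ↔ ∀ j, (conf q0 r1 N j).1 ≠ M.hlt := by
  constructor
  · intro h
    rw [← holds_clause q0 r1 code hcode]
    -- `FL 2` embeds in `G`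
    let ρf : Fin n → FL 2 := fun i => if i.1 = 0 then FL.gen 0 else if i.1 = 1 then FL.gen 1 else 1
    obtain ⟨ρ, hρ1, hρ2, hρ3, _⟩ := hg (FL 2) ρf
    let ιf : Fin 2 → G := fun i => g ⟨i.1, lt_of_lt_of_le i.2 hn⟩
    obtain ⟨φ, h1, h2, h3, _⟩ := FL.universal G ιf
    have hid : ∀ a : FL 2, ρ (φ a) = a := by
      obtain ⟨κ, _, _, _, hu⟩ := FL.universal (FL 2) (FL.gen : Fin 2 → FL 2)
      have e1 := hu (MonoidHom.id _) (fun _ _ => rfl) (fun _ _ => rfl) (fun _ => rfl)
      have e2 := hu (ρ.comp φ) (fun a b => by simp [h1, hρ1]) (fun a b => by simp [h2, hρ2])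
        (fun i => by
          rw [MonoidHom.comp_apply, h3]
          change ρ (g ⟨i.1, _⟩) = _
          rw [hρ3]
          fin_cases i <;> rfl)
      intro a
      have := DFunLike.congr_fun (e2.trans e1.symm) a
      exact this
    exact Holds.of_embedding φ (fun a b hab => by rw [← hid a, ← hid b, hab]) h1 h2 _ h
  · intro h
    -- `G` embeds in `FL n`
    obtain ⟨φ, h1, h2, h3, _⟩ := hg (FL n) FL.gen
    obtain ⟨ψ, k1, k2, k3, _⟩ := FL.universal G g
    have hid : ∀ a : G, ψ (φ a) = a := by
      obtain ⟨κ, _, _, _, hu⟩ := hg G g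
      have e1 := hu (MonoidHom.id _) (fun _ _ => rfl) (fun _ _ => rfl) (fun _ => rfl)
      have e2 := hu (ψ.comp φ) (fun a b => by simp [h1, k1]) (fun a b => by simp [h2, k2])
        (fun i => by rw [MonoidHom.comp_apply, h3, k3])
      intro a
      have := DFunLike.congr_fun (e2.trans e1.symm) a
      exact this
    apply Holds.of_embedding φ (fun a b hab => by rw [← hid a, ← hid b, hab]) h1 h2
    intro x hx
    refine ⟨_, List.mem_singleton_self _, ?_⟩
    rw [tv_trm]
    change vv x [(code (Var.pd start), true)] ≤ 1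
    rw [vv_single_true]
    by_contra hst
    obtain ⟨j, hj⟩ := sound q0 r1 N code x (by
      intro c hc t ht
      exact hx t (List.mem_flatMap.2 ⟨c, hc, ht⟩)) hst
    exact h j hj

/-! ### the main theorem -/

/-- quasi-identities -/
def HoldsQ (G : Type) [Group G] [Lattice G] (c : List Tm × Tm) : Prop :=
  ∀ x : ℕ → G, (∀ t ∈ c.1, tv x t = 1) → tv x c.2 = 1

theorem not_computable_quasi {n : ℕ} (hn : 2 ≤ n) {G : Type} [Group G] [Lattice G] [MulLeftMono G]
    [MulRightMono G] (g : Fin n → G) (hg : IsFree g) : ¬ ComputablePred (HoldsQ G) := by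
  intro hcomp
  obtain ⟨M, q0, r0, r1, hne, hhlt, hrun, hdom⟩ := universal_CM
  obtain ⟨code, hcode⟩ := exists_code M
  let C : ℕ → List Tm × Tm := fun N => ((clause q0 r1 code N).1, trm [[(code (Var.pd start), true)]])
  have hC : ∀ N, HoldsQ G (C N) ↔ Holds G (clause q0 r1 code N) := by
    intro N
    constructor
    · intro h x hx
      exact ⟨_, List.mem_singleton_self _, h x hx⟩
    · intro h x hx
      obtain ⟨u, hu, h1⟩ := h x hx
      have hu' : u = trm [[(code (Var.pd start), true)]] := List.mem_singleton.1 hu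
      rw [hu'] at h1
      exact h1
  have hCp : Primrec C := Primrec.pair (Primrec.fst.comp (primrec_clause q0 r1 code)) (Primrec.const _)
  have key : ∀ c : Nat.Partrec.Code, HoldsQ G (C (Encodable.encode c)) ↔ ¬ (c.eval 0).Dom := by
    intro c
    rw [hC, holds_free hn g hg q0 r1 code hcode]
    have hini : (fun i : Fin M.B => if i = r0 then 0 else if i = r1 then Encodable.encode c else 0)
        = fun i => if i = r1 then Encodable.encode c else 0 := by
      funext i
      split_ifs with h1 h2 h2
      · exact absurd (h1.symm.trans h2) hne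
      · rfl
      · rfl
      · rfl
    constructor
    · intro h hd
      obtain ⟨N, hN, _⟩ := hrun c 0 ((c.eval 0).get hd) (Part.get_mem hd)
      rw [hini] at hN
      exact h N hN
    · intro h j hj
      apply h
      apply hdom c 0
      refine ⟨j, ?_⟩
      rw [hini]
      exact hj
  have h1 : ComputablePred fun c : Nat.Partrec.Code => ¬ (c.eval 0).Dom := by
    obtain ⟨f, hf, e⟩ := ComputablePred.computable_iff.1 hcomp
    rw [ComputablePred.computable_iff]
    refine ⟨fun c => f (C (Encodable.encode c)), ?_, ?_⟩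
    · exact hf.comp (hCp.to_comp.comp Computable.encode)
    · funext c
      apply propext
      rw [← key c, e]
  have h2 := h1.not
  apply ComputablePred.halting_problem 0
  refine h2.of_eq ?_
  intro c
  exact not_not

theorem not_computable {n : ℕ} (hn : 2 ≤ n) {G : Type} [Group G] [Lattice G] [MulLeftMono G]
    [MulRightMono G] (g : Fin n → G) (hg : IsFree g) : ¬ ComputablePred (Holds G) := by
  intro hcomp
  apply not_computable_quasi hn g hg
  obtain ⟨f, hf, e⟩ := ComputablePred.computable_iff.1 hcomp
  rw [ComputablePred.computable_iff]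
  refine ⟨fun c => f (c.1, [c.2]), ?_, ?_⟩
  · apply hf.comp
    exact Computable.pair Computable.fst
      (Computable.list_cons.comp Computable.snd (Computable.const []))
  · funext c
    apply propext
    have h1 : Holds G (c.1, [c.2]) ↔ HoldsQ G c := by
      constructor
      · intro h x hx
        obtain ⟨u, hu, h1⟩ := h x hx
        have hu' : u = c.2 := List.mem_singleton.1 hu
        rw [hu'] at h1
        exact h1
      · intro h x hx
        exact ⟨_, List.mem_singleton_self _, h x hx⟩
    rw [← h1, e]

end Pool.Agent.Work.MP_3a2c1d_lc
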