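import Mathlib

set_option autoImplicit false

namespace Pool.Agent.Work.MP_3a2c1d_lc

/-- order automorphisms of a chain -/
def AutO (Ω : Type) [LinearOrder Ω] : Type := Ω ≃o Ω

namespace AutO

variable {Ω : Type} [LinearOrder Ω]

instance : Group (AutO Ω) := inferInstanceAs (Group ((· ≤ · : Ω → Ω → Prop) ≃r (· ≤ ·)))

def act (f : AutO Ω) (v : Ω) : Ω := (show Ω ≃o Ω from f) v

theorem act_one (v : Ω) : act (1 : AutO Ω) v = v := rfl

theorem act_mul (f g : AutO Ω) (v : Ω) : act (f * g) v = act f (act g v) := rfl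

theorem act_inv_act (f : AutO Ω) (v : Ω) : act f⁻¹ (act f v) = v := by
  rw [← act_mul, inv_mul_cancel, act_one]

theorem act_act_inv (f : AutO Ω) (v : Ω) : act f (act f⁻¹ v) = v := by
  rw [← act_mul, mul_inv_cancel, act_one]

theorem act_le_iff (f : AutO Ω) (v w : Ω) : act f v ≤ act f w ↔ v ≤ w :=
  (show Ω ≃o Ω from f).le_iff_le

theorem act_lt_iff (f : AutO Ω) (v w : Ω) : act f v < act f w ↔ v < w :=
  (show Ω ≃o Ω from f).lt_iff_lt

theorem ext {f g : AutO Ω} (h : ∀ v, act f v = act g v) : f = g :=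
  OrderIso.ext (funext h)

/-- build an automorphism from two mutually inverse strictly monotone maps -/
def mk' (f g : Ω → Ω) (hf : StrictMono f) (h1 : ∀ v, f (g v) = v) : AutO Ω :=
  { toFun := f
    invFun := g
    left_inv := fun v => hf.injective (h1 (f v))
    right_inv := h1
    map_rel_iff' := hf.le_iff_le }

theorem act_mk' (f g : Ω → Ω) (hf : StrictMono f) (h1 : ∀ v, f (g v) = v) (v : Ω) :
    act (mk' f g hf h1) v = f v := rfl

theorem act_strictMono (f : AutO Ω) : StrictMono (act f) := fun v w h => (act_lt_iff f v w).2 h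

private def supAux (f g : AutO Ω) : AutO Ω :=
  mk' (fun v => max (act f v) (act g v)) (fun v => min (act f⁻¹ v) (act g⁻¹ v))
    (fun v w h => max_lt_max (act_strictMono f h) (act_strictMono g h))
    (by
      intro v
      rcases le_total (act f⁻¹ v) (act g⁻¹ v) with h | h
      · rw [min_eq_left h, act_act_inv]
        apply max_eq_left
        have := (act_le_iff g _ _).2 h
        rwa [act_act_inv] at this
      · rw [min_eq_right h, act_act_inv]
        apply max_eq_right
        have := (act_le_iff f _ _).2 h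
        rwa [act_act_inv] at this)

private def infAux (f g : AutO Ω) : AutO Ω :=
  mk' (fun v => min (act f v) (act g v)) (fun v => max (act f⁻¹ v) (act g⁻¹ v))
    (fun v w h => min_lt_min (act_strictMono f h) (act_strictMono g h))
    (by
      intro v
      rcases le_total (act f⁻¹ v) (act g⁻¹ v) with h | h
      · rw [max_eq_right h, act_act_inv]
        apply min_eq_right
        have := (act_le_iff f _ _).2 h
        rwa [act_act_inv] at this
      · rw [max_eq_left h, act_act_inv]
        apply min_eq_left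
        have := (act_le_iff g _ _).2 h
        rwa [act_act_inv] at this)

instance : Lattice (AutO Ω) where
  le f g := ∀ v, act f v ≤ act g v
  le_refl f v := le_rfl
  le_trans f g h h1 h2 v := (h1 v).trans (h2 v)
  le_antisymm f g h1 h2 := ext fun v => le_antisymm (h1 v) (h2 v)
  sup := supAux
  inf := infAux
  le_sup_left f g v := le_max_left _ _
  le_sup_right f g v := le_max_right _ _
  sup_le f g h h1 h2 v := max_le (h1 v) (h2 v)
  inf_le_left f g v := min_le_left _ _
  inf_le_right f g v := min_le_right _ _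
  le_inf f g h h1 h2 v := le_min (h1 v) (h2 v)

theorem act_sup (f g : AutO Ω) (v : Ω) : act (f ⊔ g) v = max (act f v) (act g v) := rfl
theorem act_inf (f g : AutO Ω) (v : Ω) : act (f ⊓ g) v = min (act f v) (act g v) := rfl
theorem le_iff (f g : AutO Ω) : f ≤ g ↔ ∀ v, act f v ≤ act g v := Iff.rfl

instance : MulLeftMono (AutO Ω) :=
  ⟨fun f g h hgh v => (act_le_iff f _ _).2 (hgh v)⟩

instance : MulRightMono (AutO Ω) :=
  ⟨fun f _ _ hgh v => hgh (act f v)⟩

end AutO

/-- every finite strictly increasing relation between rationals extends to an automorphism -/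
theorem exists_aut_rat (S : Finset (ℚ × ℚ))
    (hS : ∀ p ∈ S, ∀ q ∈ S, cmp p.1 q.1 = cmp p.2 q.2) :
    ∃ f : AutO ℚ, ∀ p ∈ S, AutO.act f p.1 = p.2 := by
  classical
  let s0 : Order.PartialIso ℚ ℚ := ⟨S, hS⟩
  let to_cofinal : ℚ ⊕ ℚ → Order.Cofinal (Order.PartialIso ℚ ℚ) := fun p =>
    Sum.recOn p (Order.PartialIso.definedAtLeft ℚ) (Order.PartialIso.definedAtRight ℚ)
  let our_ideal : Order.Ideal (Order.PartialIso ℚ ℚ) := Order.idealOfCofinals s0 to_cofinal
  let F a := Order.PartialIso.funOfIdeal a our_ideal (Order.cofinal_meets_idealOfCofinals _ to_cofinal (Sum.inl a))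
  let G b := Order.PartialIso.invOfIdeal b our_ideal (Order.cofinal_meets_idealOfCofinals _ to_cofinal (Sum.inr b))
  have hFG : ∀ a b, cmp a (G b).val = cmp (F a).val b := by
    intro a b
    rcases (F a).prop with ⟨f, hf, ha⟩
    rcases (G b).prop with ⟨g, hg, hb⟩
    rcases our_ideal.directed _ hf _ hg with ⟨m, _, fm, gm⟩
    exact m.prop (a, _) (fm ha) (_, b) (gm hb)
  refine ⟨OrderIso.ofCmpEqCmp (fun a => (F a).val) (fun b => (G b).val) hFG, ?_⟩
  intro p hp
  change (F p.1).val = p.2
  rcases (F p.1).prop with ⟨f, hf, ha⟩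
  have h0 : s0 ∈ our_ideal := Order.mem_idealOfCofinals _ _
  rcases our_ideal.directed _ hf _ h0 with ⟨m, _, fm, gm⟩
  have := m.prop (p.1, _) (fm ha) p (gm hp)
  simp only [cmp_self_eq_eq] at this
  exact (cmp_eq_eq_iff _ _).1 this.symm

end Pool.Agent.Work.MP_3a2c1d_lc
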