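import Pool.Agent.Work.Helper86.Machine

set_option autoImplicit false
set_option linter.all false

namespace Pool.Agent.Work.MP_3a2c1d_lc

open Helper86

/-- labels of the points of a space-time diagram -/
inductive Pd (M : CM) : Type
  | start | base | nb | ne | en
  | S (q : M.Q) (z : Bool)
  | G (r : Fin M.B)
  | L (r : Fin M.B)

inductive Mv : Type
  | T | H

/-- local constraints -/
inductive Con (M : CM) : Type
  | imp (Ps : List (Pd M)) (w : List (Mv × Bool)) (Cs : List (Pd M))
  | eq (Ps : List (Pd M)) (w w' : List (Mv × Bool))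

/-- an interpretation of the moves and labels -/
structure Sem (M : CM) (Ω : Type) where
  mv : Mv → Ω ≃ Ω
  hold : Pd M → Ω → Prop

namespace Sem

variable {M : CM} {Ω : Type} (D : Sem M Ω)

def stepw (a : Mv × Bool) (u : Ω) : Ω := if a.2 then D.mv a.1 u else (D.mv a.1).symm u

def walk (w : List (Mv × Bool)) (u : Ω) : Ω := w.foldr D.stepw u

/-- satisfaction of a constraint -/
def Sat : Con M → Prop
  | Con.imp Ps w Cs => ∀ u, (∀ P ∈ Ps, D.hold P u) → ∃ C ∈ Cs, D.hold C (D.walk w u)
  | Con.eq Ps w w' => ∀ u, (∀ P ∈ Ps, D.hold P u) → D.walk w u = D.walk w' u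

end Sem

open Pd Mv

section

variable (M : CM)

noncomputable def qList : List M.Q := by
  letI := M.fin
  exact Finset.univ.toList

theorem mem_qList (q : M.Q) : q ∈ qList M := by
  letI := M.fin
  exact Finset.mem_toList.2 (Finset.mem_univ q)

def rList : List (Fin M.B) := List.finRange M.B

theorem mem_rList (r : Fin M.B) : r ∈ rList M := List.mem_finRange r

/-- horizontal constraints -/
noncomputable def consH : List (Con M) :=
  [Con.imp [ne] [(T, true)] [nb], Con.imp [ne] [(T, true)] [ne, en],
    Con.imp [ne, en] [] [], Con.imp [base, nb] [] []]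
  ++ (qList M).flatMap fun q => [
    Con.imp [ne, S q false] [(T, true)] [S q false],
    Con.imp [ne, S q true] [(T, true)] [S q true],
    Con.imp [base, S q false, G (M.reg q)] [] [],
    Con.imp [base, S q true, L (M.reg q)] [] []]

/-- register constraints -/
def consR (q : M.Q) (z : Bool) (r : Fin M.B) : List (Con M) :=
  letI := M.deq
  if M.reg q = r then
    match M.op q z with
    | Op.nop => [Con.imp [S q z, G r] [(H, true)] [G r], Con.imp [S q z, L r] [(H, true)] [L r]]
    | Op.inc => [Con.imp [S q z, G r] [(T, true), (H, true)] [G r],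
        Con.imp [S q z, L r] [(T, true), (H, true)] [L r],
        Con.imp [S q z, base] [(H, true)] [G r]]
    | Op.dec => [Con.imp [S q z, nb, G r] [(T, false), (H, true)] [G r],
        Con.imp [S q z, nb, L r] [(T, false), (H, true)] [L r],
        Con.imp [S q z, en] [(H, true)] [L r]]
  else [Con.imp [S q z, G r] [(H, true)] [G r], Con.imp [S q z, L r] [(H, true)] [L r]]

/-- vertical constraints -/
def consV (q : M.Q) (z : Bool) : List (Con M) :=
  [Con.eq [ne, S q z] [(H, true), (T, true)] [(T, true), (H, true)],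
    Con.imp [S q z] [(H, true)] [S (M.nxt q z) false, S (M.nxt q z) true],
    Con.imp [S q z, base] [(H, true)] [base],
    Con.imp [S q z] [(H, true)] [ne],
    Con.imp [S q z, en] [(T, true), (H, true)] [en]]
  ++ (rList M).flatMap fun r =>
    Con.imp [S q z, en] [(T, true), (H, true)] [L r] :: consR M q z r

noncomputable def consFix (q0 : M.Q) : List (Con M) :=
  letI := M.deq
  consH M ++ ((qList M).filter (fun q => q ≠ M.hlt)).flatMap (fun q => consV M q false ++ consV M q true)
    ++ [Con.imp [start] [] [base], Con.imp [start] [] [S q0 false, S q0 true]]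

/-- labels required on the initial row at distance `m` from the start -/
def conMid (r1 : Fin M.B) (m : ℕ) : List (Con M) :=
  (ne :: (rList M).map (fun r => if r = r1 then G r else L r)).map
    fun P => Con.imp [start] (List.replicate m (T, true)) [P]

def conEnd (m : ℕ) : List (Con M) :=
  (en :: (rList M).map (fun r => L r)).map
    fun P => Con.imp [start] (List.replicate m (T, true)) [P]

noncomputable def cons (q0 : M.Q) (r1 : Fin M.B) (n : ℕ) : List (Con M) :=
  consFix M q0 ++ ((List.range n).flatMap (conMid M r1) ++ conEnd M n)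

end

section Soundness

variable {M : CM} {Ω : Type} (D : Sem M Ω) (q0 : M.Q) (r1 : Fin M.B) (n : ℕ)

theorem walk_T (u : Ω) : D.walk [(T, true)] u = D.mv T u := rfl
theorem walk_H (u : Ω) : D.walk [(H, true)] u = D.mv H u := rfl

theorem walk_rep (m : ℕ) (u : Ω) :
    D.walk (List.replicate m (T, true)) u = (D.mv T)^[m] u := by
  induction m with
  | zero => rfl
  | succ m ih =>
    rw [List.replicate_succ, Function.iterate_succ_apply']
    change D.stepw (T, true) (D.walk (List.replicate m (T, true)) u) = _
    rw [ih]; rfl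

/-- the point reached after `j` time steps and `m` horizontal moves -/
def pt (D : Sem M Ω) (p : Ω) (j m : ℕ) : Ω := (D.mv T)^[m] ((D.mv H)^[j] p)

theorem pt_succ (p : Ω) (j m : ℕ) : pt D p j (m + 1) = D.mv T (pt D p j m) := by
  unfold pt; rw [Function.iterate_succ_apply']

/-- the configuration of the machine at time `j` -/
def conf (q0 : M.Q) (r1 : Fin M.B) (n j : ℕ) : M.Q × (Fin M.B → ℕ) :=
  M.step^[j] (q0, fun i => if i = r1 then n else 0)

theorem conf_succ (j : ℕ) : conf q0 r1 n (j + 1) = M.step (conf q0 r1 n j) := by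
  unfold conf; rw [Function.iterate_succ_apply']

/-- row `j` of the diagram is labelled correctly -/
structure Row (p : Ω) (j : ℕ) : Prop where
  hS : ∀ m ≤ n + j, D.hold (S (conf q0 r1 n j).1
    (decide ((conf q0 r1 n j).2 (M.reg (conf q0 r1 n j).1) ≠ 0))) (pt D p j m)
  hne : ∀ m < n + j, D.hold ne (pt D p j m)
  hen : D.hold en (pt D p j (n + j))
  hbase : D.hold base (pt D p j 0)
  hle : ∀ r, (conf q0 r1 n j).2 r ≤ n + j
  hG : ∀ r, ∀ m ≤ n + j, m < (conf q0 r1 n j).2 r → D.hold (G r) (pt D p j m)
  hL : ∀ r, ∀ m ≤ n + j, (conf q0 r1 n j).2 r ≤ m → D.hold (L r) (pt D p j m)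

variable {D q0 r1 n}

theorem sat_H (hsat : ∀ c ∈ cons M q0 r1 n, D.Sat c) {c : Con M} (hc : c ∈ consH M) : D.Sat c :=
  hsat c (by unfold cons consFix; simp only [List.mem_append]; tauto)

theorem sat_V (hsat : ∀ c ∈ cons M q0 r1 n, D.Sat c) {c : Con M} {q : M.Q} (hq : q ≠ M.hlt)
    {z : Bool} (hc : c ∈ consV M q z) : D.Sat c := by
  apply hsat c
  unfold cons consFix
  simp only [List.mem_append, List.mem_flatMap, List.mem_filter]
  left; left; right
  refine ⟨q, ⟨mem_qList M q, by simpa using hq⟩, ?_⟩
  cases z
  · left; exact hc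
  · right; exact hc

theorem hold1 {P : Pd M} {u : Ω} (h : D.hold P u) : ∀ P' ∈ [P], D.hold P' u := by
  simpa using h

theorem hold2 {P P' : Pd M} {u : Ω} (h : D.hold P u) (h' : D.hold P' u) :
    ∀ P'' ∈ [P, P'], D.hold P'' u := by
  simp [h, h']

theorem hold3 {P P' P2 : Pd M} {u : Ω} (h : D.hold P u) (h' : D.hold P' u) (h2 : D.hold P2 u) :
    ∀ P'' ∈ [P, P', P2], D.hold P'' u := by
  simp [h, h', h2]

theorem imp1 {Ps : List (Pd M)} {w : List (Mv × Bool)} {C : Pd M} (h : D.Sat (Con.imp Ps w [C]))
    {u : Ω} (hu : ∀ P ∈ Ps, D.hold P u) : D.hold C (D.walk w u) := by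
  obtain ⟨C', hC', h'⟩ := h u hu
  rw [List.mem_singleton] at hC'
  rwa [hC'] at h'

theorem imp0 {Ps : List (Pd M)} {w : List (Mv × Bool)} (h : D.Sat (Con.imp Ps w []))
    {u : Ω} (hu : ∀ P ∈ Ps, D.hold P u) : False := by
  obtain ⟨C', hC', h'⟩ := h u hu
  simp at hC'

/-- the state label of a row whose base carries one of the two flags is the correct one -/
theorem row_state (hsat : ∀ c ∈ cons M q0 r1 n, D.Sat c) (p : Ω) (j : ℕ) (q : M.Q)
    (s : Fin M.B → ℕ)
    (hS0 : D.hold (S q false) (pt D p j 0) ∨ D.hold (S q true) (pt D p j 0))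
    (hne : ∀ m < n + j, D.hold ne (pt D p j m))
    (hbase : D.hold base (pt D p j 0))
    (hG : ∀ r, 0 < s r → D.hold (G r) (pt D p j 0))
    (hL : ∀ r, s r = 0 → D.hold (L r) (pt D p j 0)) :
    ∀ m ≤ n + j, D.hold (S q (decide (s (M.reg q) ≠ 0))) (pt D p j m) := by
  have c1 : ∀ z, D.Sat (Con.imp [ne, S q z] [(T, true)] [S q z]) := by
    intro z
    apply sat_H hsat
    unfold consH
    simp only [List.mem_append, List.mem_flatMap]
    right
    refine ⟨q, mem_qList M q, ?_⟩
    cases z <;> simp
  have c2 : D.Sat (Con.imp [base, S q false, G (M.reg q)] [] []) := by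
    apply sat_H hsat
    unfold consH
    simp only [List.mem_append, List.mem_flatMap]
    right
    exact ⟨q, mem_qList M q, by simp⟩
  have c3 : D.Sat (Con.imp [base, S q true, L (M.reg q)] [] []) := by
    apply sat_H hsat
    unfold consH
    simp only [List.mem_append, List.mem_flatMap]
    right
    exact ⟨q, mem_qList M q, by simp⟩
  have h0 : D.hold (S q (decide (s (M.reg q) ≠ 0))) (pt D p j 0) := by
    rcases hS0 with h | h
    · by_cases hz : s (M.reg q) = 0
      · simpa [hz] using h
      · exfalso
        exact imp0 c2 (hold3 hbase h (hG _ (Nat.pos_of_ne_zero hz)))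
    · by_cases hz : s (M.reg q) = 0
      · exfalso
        exact imp0 c3 (hold3 hbase h (hL _ hz))
      · simpa [hz] using h
  intro m
  induction m with
  | zero => intro _; exact h0
  | succ m ih =>
    intro hm
    rw [pt_succ]
    exact imp1 (c1 _) (hold2 (hne m (by omega)) (ih (by omega)))

theorem row_zero (hsat : ∀ c ∈ cons M q0 r1 n, D.Sat c) (p : Ω) (hp : D.hold start p) :
    Row D q0 r1 n p 0 := by
  have e0 : conf q0 r1 n 0 = (q0, fun i => if i = r1 then n else 0) := rfl
  have cm : ∀ m < n, ∀ P ∈ (ne :: (rList M).map (fun r => if r = r1 then G r else L r)),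
      D.hold P (pt D p 0 m) := by
    intro m hm P hP
    have : D.Sat (Con.imp [start] (List.replicate m (T, true)) [P]) := by
      apply hsat
      unfold cons
      simp only [List.mem_append, List.mem_flatMap]
      right; left
      refine ⟨m, List.mem_range.2 hm, ?_⟩
      unfold conMid
      exact List.mem_map.2 ⟨P, hP, rfl⟩
    have h := imp1 this (hold1 hp)
    rwa [walk_rep] at h
  have ce : ∀ P ∈ (en :: (rList M).map (fun r => L r)), D.hold P (pt D p 0 n) := by
    intro P hP
    have : D.Sat (Con.imp [start] (List.replicate n (T, true)) [P]) := by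
      apply hsat
      unfold cons
      simp only [List.mem_append, List.mem_flatMap]
      right; right
      unfold conEnd
      exact List.mem_map.2 ⟨P, hP, rfl⟩
    have h := imp1 this (hold1 hp)
    rwa [walk_rep] at h
  have cb : D.Sat (Con.imp [start] [] [base]) := by
    apply hsat; unfold cons consFix; simp
  have cs : D.Sat (Con.imp [start] [] [S q0 false, S q0 true]) := by
    apply hsat; unfold cons consFix; simp
  have hbase : D.hold base (pt D p 0 0) := imp1 cb (hold1 hp)
  have hne : ∀ m < n + 0, D.hold ne (pt D p 0 m) := fun m hm => cm m hm _ (by simp)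
  have hle : ∀ r, (conf q0 r1 n 0).2 r ≤ n + 0 := by
    intro r; rw [e0]; dsimp only; split_ifs <;> omega
  have hG : ∀ r, ∀ m ≤ n + 0, m < (conf q0 r1 n 0).2 r → D.hold (G r) (pt D p 0 m) := by
    intro r m hm h
    rw [e0] at h
    dsimp only at h
    split_ifs at h with hr
    · apply cm m h
      rw [List.mem_cons, List.mem_map]
      right
      exact ⟨r, mem_rList M r, by rw [if_pos hr]⟩
    · omega
  have hL : ∀ r, ∀ m ≤ n + 0, (conf q0 r1 n 0).2 r ≤ m → D.hold (L r) (pt D p 0 m) := by
    intro r m hm h
    rcases Nat.lt_or_ge m n with hmn | hmn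
    · rw [e0] at h
      dsimp only at h
      split_ifs at h with hr
      · omega
      · apply cm m hmn
        rw [List.mem_cons, List.mem_map]
        right
        exact ⟨r, mem_rList M r, by rw [if_neg hr]⟩
    · have : m = n := by omega
      subst this
      apply ce
      rw [List.mem_cons, List.mem_map]
      right
      exact ⟨r, mem_rList M r, rfl⟩
  refine ⟨?_, hne, ce _ (by simp), hbase, hle, hG, hL⟩
  rw [e0]
  apply row_state hsat p 0 q0 (fun i => if i = r1 then n else 0) _ hne hbase
  · intro r hr; exact hG r 0 (by omega) hr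
  · intro r hr; exact hL r 0 (by omega) (by rw [e0]; exact hr.le)
  · obtain ⟨C, hC, h⟩ := cs p (hold1 hp)
    simp only [List.mem_cons, List.not_mem_nil, or_false] at hC
    rcases hC with rfl | rfl
    · left; exact h
    · right; exact h

/-- vertical moves between consecutive rows -/
theorem row_move (hsat : ∀ c ∈ cons M q0 r1 n, D.Sat c) (p : Ω) (j : ℕ)
    (hrow : Row D q0 r1 n p j) (hq : (conf q0 r1 n j).1 ≠ M.hlt) :
    ∀ m ≤ n + j, D.mv H (pt D p j m) = pt D p (j + 1) m := by
  intro m
  induction m with
  | zero => intro _; unfold pt; rw [Function.iterate_succ_apply']; rfl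
  | succ m ih =>
    intro hm
    have c0 : D.Sat (Con.eq [ne, S (conf q0 r1 n j).1
        (decide ((conf q0 r1 n j).2 (M.reg (conf q0 r1 n j).1) ≠ 0))] [(H, true), (T, true)]
        [(T, true), (H, true)]) := by
      refine sat_V hsat hq (z := decide ((conf q0 r1 n j).2 (M.reg (conf q0 r1 n j).1) ≠ 0)) ?_
      exact List.mem_append_left _ (List.mem_cons_self ..)
    have := c0 (pt D p j m) (hold2 (hrow.hne m (by omega)) (hrow.hS m (by omega)))
    rw [pt_succ, pt_succ, ← ih (by omega)]
    exact this

theorem row_nb (hsat : ∀ c ∈ cons M q0 r1 n, D.Sat c) (p : Ω) (j : ℕ)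
    (hrow : Row D q0 r1 n p j) (m : ℕ) (hm : m + 1 ≤ n + j) : D.hold nb (pt D p j (m + 1)) := by
  have c : D.Sat (Con.imp [ne] [(T, true)] [nb]) := by
    apply sat_H hsat
    unfold consH
    exact List.mem_append_left _ (List.mem_cons_self ..)
  rw [pt_succ]
  exact imp1 c (hold1 (hrow.hne m (by omega)))

theorem row_succ (hsat : ∀ c ∈ cons M q0 r1 n, D.Sat c) (p : Ω) (j : ℕ)
    (hrow : Row D q0 r1 n p j) (hq : (conf q0 r1 n j).1 ≠ M.hlt) :
    Row D q0 r1 n p (j + 1) := by
  have hmv := row_move hsat p j hrow hq
  have hnb := row_nb hsat p j hrow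
  have e1 : (conf q0 r1 n (j + 1)) = M.step (conf q0 r1 n j) := conf_succ q0 r1 n j
  obtain ⟨hS, hne, hen, hbase, hle, hG, hL⟩ := hrow
  set q := (conf q0 r1 n j).1 with hqdef
  set s := (conf q0 r1 n j).2 with hsdef
  set z : Bool := decide (s (M.reg q) ≠ 0) with hz
  have e2 : (conf q0 r1 n (j + 1)).1 = M.nxt q z := by rw [e1]; rfl
  have e3 : (conf q0 r1 n (j + 1)).2 = Function.update s (M.reg q) ((M.op q z).app (s (M.reg q))) := by
    rw [e1]; rfl
  have satV : ∀ {c}, c ∈ consV M q z → D.Sat c := fun hc => sat_V hsat hq hc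
  have v1 : D.Sat (Con.imp [S q z] [(H, true)] [S (M.nxt q z) false, S (M.nxt q z) true]) :=
    satV (List.mem_append_left _ (by simp))
  have v2 : D.Sat (Con.imp [S q z, base] [(H, true)] [base]) :=
    satV (List.mem_append_left _ (by simp))
  have v3 : D.Sat (Con.imp [S q z] [(H, true)] [ne]) :=
    satV (List.mem_append_left _ (by simp))
  have v4 : D.Sat (Con.imp [S q z, en] [(T, true), (H, true)] [en]) :=
    satV (List.mem_append_left _ (by simp))
  have v5 : ∀ r, D.Sat (Con.imp [S q z, en] [(T, true), (H, true)] [L r]) := by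
    intro r
    apply satV
    refine List.mem_append_right _ (List.mem_flatMap.2 ⟨r, mem_rList M r, ?_⟩)
    exact List.mem_cons_self ..
  have vR : ∀ r, ∀ c ∈ consR M q z r, D.Sat c := by
    intro r c hc
    apply satV
    refine List.mem_append_right _ (List.mem_flatMap.2 ⟨r, mem_rList M r, ?_⟩)
    exact List.mem_cons_of_mem _ hc
  have hbase' : D.hold base (pt D p (j + 1) 0) := by
    rw [← hmv 0 (by omega)]
    exact imp1 v2 (hold2 (hS 0 (by omega)) hbase)
  have hne' : ∀ m < n + (j + 1), D.hold ne (pt D p (j + 1) m) := by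
    intro m hm
    rw [← hmv m (by omega)]
    exact imp1 v3 (hold1 (hS m (by omega)))
  have hlast : pt D p (j + 1) (n + (j + 1)) = D.mv T (D.mv H (pt D p j (n + j))) := by
    rw [hmv (n + j) le_rfl, ← pt_succ]; rfl
  have hen' : D.hold en (pt D p (j + 1) (n + (j + 1))) := by
    rw [hlast]
    exact imp1 v4 (hold2 (hS _ le_rfl) hen)
  have hLend : ∀ r, D.hold (L r) (pt D p (j + 1) (n + (j + 1))) := by
    intro r
    rw [hlast]
    exact imp1 (v5 r) (hold2 (hS _ le_rfl) hen)
  -- register by register
  have key : ∀ r, (conf q0 r1 n (j + 1)).2 r ≤ n + (j + 1) ∧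
      (∀ m ≤ n + (j + 1), m < (conf q0 r1 n (j + 1)).2 r → D.hold (G r) (pt D p (j + 1) m)) ∧
      (∀ m ≤ n + (j + 1), (conf q0 r1 n (j + 1)).2 r ≤ m → D.hold (L r) (pt D p (j + 1) m)) := by
    intro r
    have hler := hle r
    have same : (conf q0 r1 n (j + 1)).2 r = s r →
        (D.Sat (Con.imp [S q z, G r] [(H, true)] [G r])) →
        (D.Sat (Con.imp [S q z, L r] [(H, true)] [L r])) →
        (conf q0 r1 n (j + 1)).2 r ≤ n + (j + 1) ∧
      (∀ m ≤ n + (j + 1), m < (conf q0 r1 n (j + 1)).2 r → D.hold (G r) (pt D p (j + 1) m)) ∧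
      (∀ m ≤ n + (j + 1), (conf q0 r1 n (j + 1)).2 r ≤ m → D.hold (L r) (pt D p (j + 1) m)) := by
      intro hv s1 s2
      rw [hv]
      refine ⟨by omega, ?_, ?_⟩
      · intro m hm hlt
        rw [← hmv m (by omega)]
        exact imp1 s1 (hold2 (hS m (by omega)) (hG r m (by omega) hlt))
      · intro m hm hge
        rcases Nat.lt_or_ge m (n + (j + 1)) with hm' | hm'
        · rw [← hmv m (by omega)]
          exact imp1 s2 (hold2 (hS m (by omega)) (hL r m (by omega) hge))
        · have : m = n + (j + 1) := by omega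
          rw [this]
          exact hLend r
    letI := M.deq
    by_cases hr : M.reg q = r
    · have vr := vR r
      unfold consR at vr
      rw [if_pos hr] at vr
      have e4 : (conf q0 r1 n (j + 1)).2 r = (M.op q z).app (s r) := by
        rw [e3, ← hr, Function.update_self]
      cases hop : M.op q z with
      | nop =>
        rw [hop] at vr e4
        exact same e4 (vr _ (by simp)) (vr _ (by simp))
      | inc =>
        rw [hop] at vr e4
        have e5 : (conf q0 r1 n (j + 1)).2 r = s r + 1 := e4
        rw [e5]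
        have g1 : D.Sat (Con.imp [S q z, G r] [(T, true), (H, true)] [G r]) := vr _ (by simp)
        have g2 : D.Sat (Con.imp [S q z, L r] [(T, true), (H, true)] [L r]) := vr _ (by simp)
        have g3 : D.Sat (Con.imp [S q z, base] [(H, true)] [G r]) := vr _ (by simp)
        have hTH : ∀ m ≤ n + j, pt D p (j + 1) (m + 1) = D.mv T (D.mv H (pt D p j m)) := by
          intro m hm
          rw [hmv m hm, pt_succ]
        refine ⟨by omega, ?_, ?_⟩
        · intro m hm hlt
          rcases m with _ | m
          · rw [← hmv 0 (by omega)]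
            exact imp1 g3 (hold2 (hS 0 (by omega)) hbase)
          · rw [hTH m (by omega)]
            exact imp1 g1 (hold2 (hS m (by omega)) (hG r m (by omega) (by omega)))
        · intro m hm hge
          rcases m with _ | m
          · omega
          · rw [hTH m (by omega)]
            exact imp1 g2 (hold2 (hS m (by omega)) (hL r m (by omega) (by omega)))
      | dec =>
        rw [hop] at vr e4
        have e5 : (conf q0 r1 n (j + 1)).2 r = s r - 1 := e4
        rw [e5]
        have hpos : s r ≠ 0 := by
          intro h0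
          have : z = false := by
            rw [hz, hr, h0]; simp
          rw [this] at hop
          exact M.op_ok q hop
        have g1 : D.Sat (Con.imp [S q z, nb, G r] [(T, false), (H, true)] [G r]) := vr _ (by simp)
        have g2 : D.Sat (Con.imp [S q z, nb, L r] [(T, false), (H, true)] [L r]) := vr _ (by simp)
        have g3 : D.Sat (Con.imp [S q z, en] [(H, true)] [L r]) := vr _ (by simp)
        have hTH : ∀ m, m + 1 ≤ n + j →
            pt D p (j + 1) m = (D.mv T).symm (D.mv H (pt D p j (m + 1))) := by
          intro m hm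
          rw [hmv (m + 1) hm, pt_succ, Equiv.symm_apply_apply]
        refine ⟨by omega, ?_, ?_⟩
        · intro m hm hlt
          rw [hTH m (by omega)]
          exact imp1 g1 (hold3 (hS (m + 1) (by omega)) (hnb m (by omega))
            (hG r (m + 1) (by omega) (by omega)))
        · intro m hm hge
          rcases Nat.lt_or_ge m (n + j) with hm' | hm'
          · rw [hTH m (by omega)]
            exact imp1 g2 (hold3 (hS (m + 1) (by omega)) (hnb m (by omega))
              (hL r (m + 1) (by omega) (by omega)))
          · rcases Nat.lt_or_ge m (n + (j + 1)) with hm'' | hm''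
            · have : m = n + j := by omega
              rw [this, ← hmv (n + j) le_rfl]
              exact imp1 g3 (hold2 (hS _ le_rfl) hen)
            · have : m = n + (j + 1) := by omega
              rw [this]
              exact hLend r
    · have vr := vR r
      unfold consR at vr
      rw [if_neg hr] at vr
      refine same ?_ (vr _ (by simp)) (vr _ (by simp))
      rw [e3, Function.update_of_ne (Ne.symm hr)]
  refine ⟨?_, hne', hen', hbase', fun r => (key r).1, fun r => (key r).2.1, fun r => (key r).2.2⟩
  rw [e2]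
  apply row_state hsat p (j + 1) (M.nxt q z) (conf q0 r1 n (j + 1)).2 _ hne' hbase'
  · intro r hr; exact (key r).2.1 0 (by omega) hr
  · intro r hr; exact (key r).2.2 0 (by omega) hr.le
  · obtain ⟨C, hC, h⟩ := v1 (pt D p j 0) (hold1 (hS 0 (by omega)))
    have hw : D.walk [(H, true)] (pt D p j 0) = pt D p (j + 1) 0 := hmv 0 (by omega)
    rw [hw] at h
    simp only [List.mem_cons, List.not_mem_nil, or_false] at hC
    rcases hC with rfl | rfl
    · left; exact h
    · right; exact h

theorem rows (hsat : ∀ c ∈ cons M q0 r1 n, D.Sat c) (p : Ω) (hp : D.hold start p)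
    (hno : ∀ j, (conf q0 r1 n j).1 ≠ M.hlt) (j : ℕ) : Row D q0 r1 n p j := by
  induction j with
  | zero => exact row_zero hsat p hp
  | succ j ih => exact row_succ hsat p j ih (hno j)

/-- if the machine does not stop, the points of the diagram are pairwise distinct -/
theorem pt_inj (hsat : ∀ c ∈ cons M q0 r1 n, D.Sat c) (p : Ω) (hp : D.hold start p)
    (hno : ∀ j, (conf q0 r1 n j).1 ≠ M.hlt) (j m j' m' : ℕ) (hm : m ≤ n + j) (hm' : m' ≤ n + j')
    (h : pt D p j m = pt D p j' m') : j = j' ∧ m = m' := by
  have hr := rows hsat p hp hno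
  have x1 : D.Sat (Con.imp [ne, en] [] []) := by
    apply sat_H hsat
    unfold consH
    exact List.mem_append_left _ (by simp)
  have x2 : D.Sat (Con.imp [base, nb] [] []) := by
    apply sat_H hsat
    unfold consH
    exact List.mem_append_left _ (by simp)
  have shift : ∀ j m d, (D.mv T)^[d] (pt D p j m) = pt D p j (m + d) := by
    intro j m d
    unfold pt
    rw [add_comm m d, Function.iterate_add_apply]
  -- distances to the end agree
  have dist : ∀ j m j' m', m ≤ n + j → m' ≤ n + j' → pt D p j m = pt D p j' m' →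
      n + j - m < n + j' - m' → False := by
    intro j m j' m' hm hm' h hlt
    have e := congrArg (D.mv T)^[n + j - m] h
    rw [shift, shift] at e
    have e1 : m + (n + j - m) = n + j := by omega
    rw [e1] at e
    have h1 := (hr j).hen
    have h2 := (hr j').hne (m' + (n + j - m)) (by omega)
    rw [e] at h1
    exact imp0 x1 (hold2 h2 h1)
  have hd : n + j - m = n + j' - m' := by
    rcases Nat.lt_trichotomy (n + j - m) (n + j' - m') with h1 | h1 | h1
    · exact (dist j m j' m' hm hm' h h1).elim
    · exact h1
    · exact (dist j' m' j m hm' hm h.symm h1).elim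
  have main : ∀ j m j' m', m ≤ n + j → m' ≤ n + j' → pt D p j m = pt D p j' m' → m ≤ m' →
      m = m' := by
    intro j m j' m' hm hm' h hle
    obtain ⟨d, rfl⟩ := Nat.exists_eq_add_of_le hle
    rcases Nat.eq_zero_or_pos d with hd0 | hd0
    · omega
    · exfalso
      have e2 : pt D p j 0 = pt D p j' d := by
        apply (Function.Injective.iterate (D.mv T).injective m)
        rw [shift, shift, zero_add, add_comm d m]
        exact h
      obtain ⟨d', rfl⟩ := Nat.exists_eq_succ_of_ne_zero (Nat.pos_iff_ne_zero.1 hd0)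
      have h1 := (hr j).hbase
      have h2 := row_nb hsat p j' (hr j') d' (by omega)
      rw [e2] at h1
      exact imp0 x2 (hold2 h1 h2)
  have hmm : m = m' := by
    rcases le_total m m' with h1 | h1
    · exact main j m j' m' hm hm' h h1
    · exact (main j' m' j m hm' hm h.symm h1).symm
  omega

/-- vertical moves when the machine does not stop -/
theorem pt_move (hsat : ∀ c ∈ cons M q0 r1 n, D.Sat c) (p : Ω) (hp : D.hold start p)
    (hno : ∀ j, (conf q0 r1 n j).1 ≠ M.hlt) (j m : ℕ) (hm : m ≤ n + j) :
    D.mv H (pt D p j m) = pt D p (j + 1) m :=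
  row_move hsat p j (rows hsat p hp hno j) (hno j) m hm

end Soundness

end Pool.Agent.Work.MP_3a2c1d_lc
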