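import Pool.Agent.Work.MP_3a2c1d_lc.FreeL
import Pool.Agent.Work.MP_3a2c1d_lc.Encode

set_option autoImplicit false
set_option linter.all false

namespace Pool.Agent.Work.MP_3a2c1d_lc

open Helper86

abbrev Wd := List (ℕ × Bool)
abbrev Tm := (Wd × List Wd) × List (Wd × List Wd)

section values

variable {G : Type} [Group G] [Lattice G]

/-- value of a group word -/
def vv {V : Type} (y : V → G) (w : List (V × Bool)) : G := FreeGroup.lift y (FreeGroup.mk w)

theorem vv_nil {V : Type} (y : V → G) : vv y [] = 1 := by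
  unfold vv; rw [← FreeGroup.one_eq_mk, map_one]

theorem vv_append {V : Type} (y : V → G) (w w' : List (V × Bool)) :
    vv y (w ++ w') = vv y w * vv y w' := by
  unfold vv; rw [← FreeGroup.mul_mk, map_mul]

theorem vv_invRev {V : Type} (y : V → G) (w : List (V × Bool)) :
    vv y (FreeGroup.invRev w) = (vv y w)⁻¹ := by
  unfold vv; rw [← FreeGroup.inv_mk, map_inv]

theorem vv_single_true {V : Type} (y : V → G) (v : V) : vv y [(v, true)] = y v := by
  unfold vv; rw [FreeGroup.lift_mk]; simp

theorem vv_single_false {V : Type} (y : V → G) (v : V) : vv y [(v, false)] = (y v)⁻¹ := by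
  unfold vv; rw [FreeGroup.lift_mk]; simp

theorem vv_cons {V : Type} (y : V → G) (a : V × Bool) (w : List (V × Bool)) :
    vv y (a :: w) = vv y [a] * vv y w := by
  rw [← vv_append]; rfl

theorem vv_map {V : Type} (x : ℕ → G) (code : V → ℕ) (w : List (V × Bool)) :
    vv x (w.map fun a => (code a.1, a.2)) = vv (x ∘ code) w := by
  unfold vv
  rw [FreeGroup.lift_mk, FreeGroup.lift_mk, List.map_map]
  rfl

def infv (x : ℕ → G) (q : Wd × List Wd) : G := q.2.foldr (fun w a => vv x w ⊓ a) (vv x q.1)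

def tv (x : ℕ → G) (t : Tm) : G := t.2.foldr (fun q b => infv x q ⊔ b) (infv x t.1)

def trm (l : List Wd) : Tm := ((l.headD [], l.tail), [([], [])])

theorem tv_trm (x : ℕ → G) (w : Wd) (ws : List Wd) :
    tv x (trm (w :: ws)) = 1 ↔ infv x (w, ws) ≤ 1 := by
  have : tv x (trm (w :: ws)) = 1 ⊔ infv x (w, ws) := by
    unfold tv trm infv
    simp only [List.foldr_cons, List.foldr_nil, List.headD_cons, List.tail_cons, vv_nil]
  rw [this, sup_eq_left]

end values

section reps

variable {G : Type} [Group G] [Lattice G] [MulLeftMono G] [MulRightMono G]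

theorem infv_le (x : ℕ → G) (w : Wd) (ws : List Wd) : ∀ w' ∈ w :: ws, infv x (w, ws) ≤ vv x w' := by
  induction ws with
  | nil =>
    intro w' hw'
    rw [List.mem_singleton] at hw'
    rw [hw']; exact le_rfl
  | cons a ws ih =>
    intro w' hw'
    have e : infv x (w, a :: ws) = vv x a ⊓ infv x (w, ws) := rfl
    rw [e]
    simp only [List.mem_cons] at hw' ih
    rcases hw' with h | h | h
    · exact inf_le_right.trans (ih w' (Or.inl h))
    · rw [h]; exact inf_le_left
    · exact inf_le_right.trans (ih w' (Or.inr h))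

theorem act_infv {Ω : Type} [LinearOrder Ω] (R : Rep G Ω) (x : ℕ → G) (w : Wd) (ws : List Wd) (u : Ω) :
    ∃ w' ∈ w :: ws, R.act (infv x (w, ws)) u = R.act (vv x w') u := by
  induction ws with
  | nil => exact ⟨w, by simp, rfl⟩
  | cons a ws ih =>
    have e : infv x (w, a :: ws) = vv x a ⊓ infv x (w, ws) := rfl
    rw [e, R.act_inf]
    rcases min_choice (R.act (vv x a) u) (R.act (infv x (w, ws)) u) with h | h
    · exact ⟨a, by simp, h⟩
    · obtain ⟨w', hw', e'⟩ := ih
      refine ⟨w', ?_, h.trans e'⟩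
      simp only [List.mem_cons] at hw' ⊢
      tauto

theorem trm_pointwise (x : ℕ → G) (l : List Wd) (hl : l ≠ []) :
    tv x (trm l) = 1 ↔ ∀ (Ω : Type) [LinearOrder Ω] (R : Rep G Ω) (u : Ω),
      ∃ w ∈ l, R.act (vv x w) u ≤ u := by
  obtain ⟨w, ws, rfl⟩ := List.exists_cons_of_ne_nil hl
  rw [tv_trm]
  constructor
  · intro h Ω _ R u
    obtain ⟨w', hw', e⟩ := act_infv R x w ws u
    refine ⟨w', hw', ?_⟩
    rw [← e]
    have := R.act_mono_left h u
    rwa [R.act_one] at this
  · intro h
    apply le_of_reps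
    intro Ω _ R u
    obtain ⟨w', hw', e⟩ := h Ω R u
    rw [R.act_one]
    exact (R.act_mono_left (infv_le x w ws w' hw') u).trans e

/-- products of a premise and the inverse of a conclusion -/
def pairs {V : Type} (As Cs : List (List (V × Bool))) : List (List (V × Bool)) :=
  As.flatMap fun A => Cs.map fun C => A ++ FreeGroup.invRev C

theorem mem_pairs {V : Type} (As Cs : List (List (V × Bool))) (w : List (V × Bool)) :
    w ∈ pairs As Cs ↔ ∃ A ∈ As, ∃ C ∈ Cs, w = A ++ FreeGroup.invRev C := by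
  unfold pairs
  simp only [List.mem_flatMap, List.mem_map]
  constructor
  · rintro ⟨A, hA, C, hC, rfl⟩; exact ⟨A, hA, C, hC, rfl⟩
  · rintro ⟨A, hA, C, hC, rfl⟩; exact ⟨A, hA, C, hC, rfl⟩

/-- the largest value of a finite nonempty list of words at a point -/
theorem exists_max_word {V : Type} {Ω : Type} [LinearOrder Ω] (R : Rep G Ω) (y : V → G)
    (Cs : List (List (V × Bool))) (hCs : Cs ≠ []) (u : Ω) :
    ∃ C ∈ Cs, ∀ C' ∈ Cs, R.act (vv y C') u ≤ R.act (vv y C) u := by
  classical
  obtain ⟨C0, hC0⟩ := List.exists_mem_of_ne_nil Cs hCs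
  obtain ⟨C, hC, hmax⟩ := Finset.exists_max_image Cs.toFinset (fun C => R.act (vv y C) u)
    ⟨C0, List.mem_toFinset.2 hC0⟩
  exact ⟨C, List.mem_toFinset.1 hC, fun C' hC' => hmax C' (List.mem_toFinset.2 hC')⟩

theorem exists_min_inv {V : Type} {Ω : Type} [LinearOrder Ω] (R : Rep G Ω) (y : V → G)
    (Cs : List (List (V × Bool))) (hCs : Cs ≠ []) (u : Ω) :
    ∃ C ∈ Cs, ∀ C' ∈ Cs, R.act (vv y C)⁻¹ u ≤ R.act (vv y C')⁻¹ u := by
  classical
  obtain ⟨C0, hC0⟩ := List.exists_mem_of_ne_nil Cs hCs
  obtain ⟨C, hC, hmin⟩ := Finset.exists_min_image Cs.toFinset (fun C => R.act (vv y C)⁻¹ u)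
    ⟨C0, List.mem_toFinset.2 hC0⟩
  exact ⟨C, List.mem_toFinset.1 hC, fun C' hC' => hmin C' (List.mem_toFinset.2 hC')⟩

/-- pointwise meaning of a sequent -/
theorem sequent {V : Type} (x : ℕ → G) (code : V → ℕ) (As Cs : List (List (V × Bool)))
    (hAs : As ≠ []) (hCs : Cs ≠ []) :
    tv x (trm ((pairs As Cs).map (fun w => w.map fun a => (code a.1, a.2)))) = 1 ↔
      ∀ (Ω : Type) [LinearOrder Ω] (R : Rep G Ω) (u : Ω),
        ∃ A ∈ As, ∃ C ∈ Cs, R.act (vv (x ∘ code) A) u ≤ R.act (vv (x ∘ code) C) u := by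
  obtain ⟨A0, hA0⟩ := List.exists_mem_of_ne_nil As hAs
  obtain ⟨C0, hC0⟩ := List.exists_mem_of_ne_nil Cs hCs
  have hne : (pairs As Cs).map (fun w => w.map fun a => (code a.1, a.2)) ≠ [] := by
    intro h
    rw [List.map_eq_nil_iff] at h
    have : A0 ++ FreeGroup.invRev C0 ∈ pairs As Cs := (mem_pairs _ _ _).2 ⟨A0, hA0, C0, hC0, rfl⟩
    rw [h] at this
    simp at this
  rw [trm_pointwise x _ hne]
  constructor
  · intro h Ω _ R u
    obtain ⟨C1, hC1, hmax⟩ := exists_max_word R (x ∘ code) Cs hCs u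
    obtain ⟨w, hw, hle⟩ := h Ω R (R.act (vv (x ∘ code) C1) u)
    rw [List.mem_map] at hw
    obtain ⟨w', hw', rfl⟩ := hw
    obtain ⟨A, hA, C, hC, rfl⟩ := (mem_pairs _ _ _).1 hw'
    rw [vv_map, vv_append, vv_invRev, R.act_mul] at hle
    refine ⟨A, hA, C1, hC1, le_trans ?_ hle⟩
    rw [R.act_le_iff]
    have h1 := hmax C hC
    have h2 := (R.act_le_iff (vv (x ∘ code) C)⁻¹ _ _).2 h1
    rwa [R.act_inv_act] at h2
  · intro h Ω _ R v
    obtain ⟨C1, hC1, hmin⟩ := exists_min_inv R (x ∘ code) Cs hCs v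
    obtain ⟨A, hA, C, hC, hle⟩ := h Ω R (R.act (vv (x ∘ code) C1)⁻¹ v)
    refine ⟨(A ++ FreeGroup.invRev C1).map fun a => (code a.1, a.2),
      List.mem_map.2 ⟨_, (mem_pairs _ _ _).2 ⟨A, hA, C1, hC1, rfl⟩, rfl⟩, ?_⟩
    rw [vv_map, vv_append, vv_invRev, R.act_mul]
    refine hle.trans ?_
    have h1 := hmin C hC
    have h2 := (R.act_le_iff (vv (x ∘ code) C) _ _).2 h1
    rwa [R.act_act_inv] at h2

end reps

/-! ### from constraints to terms -/

/-- variables -/
inductive Var (M : CM) : Type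
  | mv (m : Mv)
  | pd (p : Pd M)

section

variable {M : CM}

def mvw (w : List (Mv × Bool)) : List (Var M × Bool) := w.map fun a => (Var.mv a.1, a.2)

def pw (P : Pd M) : List (Var M × Bool) := [(Var.pd P, true)]

def seqs : Con M → List (List (List (Var M × Bool)) × List (List (Var M × Bool)))
  | Con.imp Ps w [] => [(Ps.map pw, [[]])]
  | Con.imp Ps w (C :: Cs) =>
      [(Ps.map pw, (C :: Cs).map fun C => FreeGroup.invRev (mvw w) ++ pw C ++ mvw w)]
  | Con.eq Ps w w' =>
      [(Ps.map pw ++ [FreeGroup.invRev (mvw w') ++ mvw w], [[]]),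
       (Ps.map pw ++ [FreeGroup.invRev (mvw w) ++ mvw w'], [[]])]

def terms (code : Var M → ℕ) (c : Con M) : List Tm :=
  (seqs c).map fun p => trm ((pairs p.1 p.2).map fun w => w.map fun a => (code a.1, a.2))

/-- the premises of a constraint -/
def Con.prem : Con M → List (Pd M)
  | Con.imp Ps _ _ => Ps
  | Con.eq Ps _ _ => Ps

section sem

variable {G : Type} [Group G] [Lattice G] [MulLeftMono G] [MulRightMono G]
variable {Ω : Type} [LinearOrder Ω] (R : Rep G Ω) (y : Var M → G)

/-- the interpretation given by a representation and an assignment -/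
def semOf : Sem M Ω where
  mv m := { toFun := R.act (y (Var.mv m))
            invFun := R.act (y (Var.mv m))⁻¹
            left_inv := fun u => R.act_inv_act _ u
            right_inv := fun u => R.act_act_inv _ u }
  hold P u := u < R.act (y (Var.pd P)) u

theorem walk_semOf (w : List (Mv × Bool)) (u : Ω) :
    (semOf R y).walk w u = R.act (vv y (mvw w)) u := by
  induction w with
  | nil =>
    change u = _
    unfold mvw
    rw [List.map_nil, vv_nil, R.act_one]
  | cons a w ih =>
    obtain ⟨m, b⟩ := a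
    have e : (mvw ((m, b) :: w) : List (Var M × Bool)) = (Var.mv m, b) :: mvw w := rfl
    rw [e, vv_cons, R.act_mul, ← ih]
    cases b with
    | true => rw [vv_single_true]; rfl
    | false => rw [vv_single_false]; rfl

theorem sat_of_seqs (c : Con M) (hc : c.prem ≠ [])
    (h : ∀ p ∈ seqs c, ∀ u : Ω, ∃ A ∈ p.1, ∃ C ∈ p.2, R.act (vv y A) u ≤ R.act (vv y C) u) :
    (semOf R y).Sat c := by
  cases c with
  | imp Ps w Cs =>
    intro u hu
    cases Cs with
    | nil =>
      exfalso
      obtain ⟨A, hA, C, hC, hle⟩ := h _ (List.mem_singleton_self _) u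
      rw [List.mem_map] at hA
      obtain ⟨P, hP, rfl⟩ := hA
      rw [List.mem_singleton] at hC
      subst hC
      have h1 : u < R.act (y (Var.pd P)) u := hu P hP
      rw [pw, vv_single_true, vv_nil, R.act_one] at hle
      exact absurd h1 (not_lt.2 hle)
    | cons C0 Cs =>
      obtain ⟨A, hA, C, hC, hle⟩ := h _ (List.mem_singleton_self _) u
      rw [List.mem_map] at hA
      obtain ⟨P, hP, rfl⟩ := hA
      simp only at hC
      rw [List.mem_map] at hC
      obtain ⟨C, hC, rfl⟩ := hC
      have h1 : u < R.act (y (Var.pd P)) u := hu P hP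
      rw [pw, vv_single_true] at hle
      refine ⟨C, hC, ?_⟩
      change (semOf R y).walk w u < R.act (y (Var.pd C)) ((semOf R y).walk w u)
      rw [walk_semOf]
      have h2 := lt_of_lt_of_le h1 hle
      rw [vv_append, vv_append, vv_invRev, pw, vv_single_true, R.act_mul, R.act_mul] at h2
      have h3 := (R.act_lt_iff (vv y (mvw w)) _ _).2 h2
      rwa [R.act_act_inv] at h3
  | eq Ps w w' =>
    intro u hu
    rw [walk_semOf, walk_semOf]
    have aux : ∀ w w' : List (Mv × Bool),
        (∃ A ∈ Ps.map pw ++ [FreeGroup.invRev (mvw w') ++ mvw w], ∃ C ∈ ([[]] : List (List (Var M × Bool))),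
          R.act (vv y A) u ≤ R.act (vv y C) u) →
        R.act (vv y (mvw w)) u ≤ R.act (vv y (mvw w')) u := by
      rintro w w' ⟨A, hA, C, hC, hle⟩
      rw [List.mem_singleton] at hC
      subst hC
      rw [vv_nil, R.act_one] at hle
      rw [List.mem_append, List.mem_map, List.mem_singleton] at hA
      rcases hA with ⟨P, hP, rfl⟩ | rfl
      · exfalso
        have h1 : u < R.act (y (Var.pd P)) u := hu P hP
        rw [pw, vv_single_true] at hle
        exact absurd h1 (not_lt.2 hle)
      · rw [vv_append, vv_invRev, R.act_mul] at hle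
        have h3 := (R.act_le_iff (vv y (mvw w')) _ _).2 hle
        rwa [R.act_act_inv] at h3
    apply le_antisymm
    · exact aux w w' (h _ (List.mem_cons_self ..) u)
    · exact aux w' w (h _ (List.mem_cons_of_mem _ (List.mem_cons_self ..)) u)

end sem

end

end Pool.Agent.Work.MP_3a2c1d_lc
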