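import Pool.Agent.Work.MP_3a2c1d_lc.AutLat

set_option autoImplicit false
set_option linter.all false

namespace Pool.Agent.Work.MP_3a2c1d_lc

open AutO

theorem cmp_eq_cmp_of {a b c d : ℚ} (h1 : a < b ↔ c < d) (h2 : b < a ↔ d < c) :
    cmp a b = cmp c d := by
  rcases lt_trichotomy a b with h | h | h
  · rw [(cmp_eq_lt_iff _ _).2 h, (cmp_eq_lt_iff _ _).2 (h1.1 h)]
  · have h3 : ¬ c < d := fun hc => absurd (h1.2 hc) (by rw [h]; exact lt_irrefl _)
    have h4 : ¬ d < c := fun hc => absurd (h2.2 hc) (by rw [h]; exact lt_irrefl _)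
    rw [(cmp_eq_eq_iff _ _).2 h, (cmp_eq_eq_iff _ _).2 (le_antisymm (not_lt.1 h4) (not_lt.1 h3))]
  · rw [(cmp_eq_gt_iff _ _).2 h, (cmp_eq_gt_iff _ _).2 (h2.1 h)]

theorem cmp_aux1 (i j : ℕ) : cmp (i : ℚ) (j : ℚ) = cmp ((i : ℚ) + 1) ((j : ℚ) + 1) := by
  apply cmp_eq_cmp_of <;> simp

theorem cmp_aux2 (i j : ℕ) (h : i + 1 < j ∨ j + 1 < i) :
    cmp (i : ℚ) ((j : ℚ) + 1) = cmp ((i : ℚ) + 1) (j : ℚ) := by
  apply cmp_eq_cmp_of <;> constructor <;> intro h' <;> norm_cast at * <;> omega

section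

variable {α : Type} [DecidableEq α]

/-- the finite relation prescribed for the generator `c` by the (right to left) word `r` -/
def wordRel (r : List (α × Bool)) (c : α) : Finset (ℚ × ℚ) :=
  (Finset.univ : Finset (Fin r.length)).biUnion fun i =>
    if r[i] = (c, true) then {(((i : ℕ) : ℚ) , ((i : ℕ) : ℚ) + 1)}
    else if r[i] = (c, false) then {(((i : ℕ) : ℚ) + 1, ((i : ℕ) : ℚ))} else ∅

theorem mem_wordRel (r : List (α × Bool)) (c : α) (p : ℚ × ℚ) :
    p ∈ wordRel r c ↔ ∃ i : Fin r.length, (r[i] = (c, true) ∧ p = (((i : ℕ) : ℚ), ((i : ℕ) : ℚ) + 1)) ∨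
      (r[i] = (c, false) ∧ p = (((i : ℕ) : ℚ) + 1, ((i : ℕ) : ℚ))) := by
  unfold wordRel
  rw [Finset.mem_biUnion]
  constructor
  · rintro ⟨i, _, hi⟩
    refine ⟨i, ?_⟩
    split_ifs at hi with h1 h2
    · left; exact ⟨h1, by simpa using hi⟩
    · right; exact ⟨h2, by simpa using hi⟩
    · simp at hi
  · rintro ⟨i, ⟨h1, rfl⟩ | ⟨h1, rfl⟩⟩
    · refine ⟨i, Finset.mem_univ _, ?_⟩
      rw [if_pos h1]; simp
    · refine ⟨i, Finset.mem_univ _, ?_⟩
      rw [if_neg (by rw [h1]; simp), if_pos h1]; simp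

theorem exists_act_ne (w : FreeGroup α) (hw : w ≠ 1) :
    ∃ φ : α → AutO ℚ, act (FreeGroup.lift φ w) 0 ≠ 0 := by
  classical
  set r := w.toWord.reverse with hr
  have hred : ∀ i : ℕ, ∀ h : i + 1 < r.length, r[i].1 = r[i+1].1 → r[i].2 = r[i+1].2 := by
    have h1 : FreeGroup.IsReduced w.toWord := FreeGroup.isReduced_toWord
    unfold FreeGroup.IsReduced at h1
    have h2 : List.IsChain (fun b a : α × Bool => a.1 = b.1 → a.2 = b.2) r := by
      rw [hr, List.isChain_reverse]
      exact h1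
    rw [List.isChain_iff_getElem] at h2
    intro i h e
    exact (h2 i h e.symm).symm
  have hS : ∀ c, ∀ p ∈ wordRel r c, ∀ q ∈ wordRel r c, cmp p.1 q.1 = cmp p.2 q.2 := by
    intro c p hp q hq
    rw [mem_wordRel] at hp hq
    obtain ⟨i, hi⟩ := hp
    obtain ⟨j, hj⟩ := hq
    have hij : ∀ (i j : Fin r.length), r[i] = (c, true) → r[j] = (c, false) →
        ((i : ℕ) + 1 < j ∨ (j : ℕ) + 1 < i) := by
      intro i j hi hj
      by_contra hcon
      push Not at hcon
      have h3 : (i : ℕ) = j ∨ (i : ℕ) + 1 = j ∨ (j : ℕ) + 1 = i := by omega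
      rcases h3 with h3 | h3 | h3
      · have : i = j := Fin.ext h3
        rw [this, hj] at hi
        simp at hi
      · have h4 : (i : ℕ) + 1 < r.length := by rw [h3]; exact j.2
        have h5 := hred i h4
        have h6 : r[(i : ℕ) + 1] = r[j] := by simp only [h3]; rfl
        have h7 : r[(i : ℕ)] = r[i] := rfl
        rw [h6, h7, hi, hj] at h5
        simp at h5
      · have h4 : (j : ℕ) + 1 < r.length := by rw [h3]; exact i.2
        have h5 := hred j h4
        have h6 : r[(j : ℕ) + 1] = r[i] := by simp only [h3]; rfl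
        have h7 : r[(j : ℕ)] = r[j] := rfl
        rw [h6, h7, hi, hj] at h5
        simp at h5
    rcases hi with ⟨hi, rfl⟩ | ⟨hi, rfl⟩ <;> rcases hj with ⟨hj, rfl⟩ | ⟨hj, rfl⟩
    · exact cmp_aux1 _ _
    · exact cmp_aux2 _ _ (hij i j hi hj)
    · exact (cmp_aux2 _ _ (hij j i hj hi).symm).symm
    · exact (cmp_aux1 _ _).symm
  choose φ hφ using fun c => exists_aut_rat (wordRel r c) (hS c)
  refine ⟨φ, ?_⟩
  have main : ∀ k : ℕ, k ≤ r.length →
      act (FreeGroup.lift φ (FreeGroup.mk ((r.take k).reverse))) 0 = (k : ℚ) := by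
    intro k
    induction k with
    | zero => intro _; simp [← FreeGroup.one_eq_mk, act_one]
    | succ k ih =>
      intro hk
      have ih' := ih (by omega)
      have hk' : k < r.length := by omega
      rw [List.take_succ_eq_append_getElem hk', List.reverse_append]
      have e : FreeGroup.mk ([r[k]].reverse ++ (r.take k).reverse)
          = FreeGroup.mk [r[k]] * FreeGroup.mk ((r.take k).reverse) := by
        rw [FreeGroup.mul_mk]; rfl
      rw [e, map_mul, act_mul, ih', FreeGroup.lift_mk]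
      have hmem := fun c p => (mem_wordRel r c p).2
      rcases hrk : r[k] with ⟨c, b⟩
      cases b with
      | true =>
        have := hφ c ((k : ℚ), (k : ℚ) + 1) ((mem_wordRel r c _).2 ⟨⟨k, hk'⟩, Or.inl ⟨hrk, rfl⟩⟩)
        simp only [List.map_cons, List.map_nil, List.prod_cons, List.prod_nil, mul_one, cond_true]
        rw [this]; push_cast; rfl
      | false =>
        have := hφ c ((k : ℚ) + 1, (k : ℚ)) ((mem_wordRel r c _).2 ⟨⟨k, hk'⟩, Or.inr ⟨hrk, rfl⟩⟩)
        simp only [List.map_cons, List.map_nil, List.prod_cons, List.prod_nil, mul_one, cond_false]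
        simp only at this
        have h2 : act (φ c)⁻¹ (k : ℚ) = (k : ℚ) + 1 := by
          have h3 := congrArg (act (φ c)⁻¹) this
          rw [act_inv_act] at h3
          exact h3.symm
        rw [h2]; push_cast; rfl
  have h1 := main r.length le_rfl
  rw [List.take_length, hr, List.reverse_reverse, FreeGroup.mk_toWord] at h1
  rw [h1]
  have h2 : w.toWord ≠ [] := by
    rw [Ne, FreeGroup.toWord_eq_nil_iff]; exact hw
  have h3 : w.toWord.reverse.length ≠ 0 := by
    rw [List.length_reverse]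
    intro h; exact h2 (List.length_eq_zero_iff.1 h)
  exact_mod_cast h3

/-- coordinatewise automorphism of the lexicographic power -/
noncomputable def lexAut (Φ : ℕ → AutO ℚ) : AutO (Lex (ℕ → ℚ)) :=
  mk' (fun v => toLex fun k => act (Φ k) (ofLex v k)) (fun v => toLex fun k => act (Φ k)⁻¹ (ofLex v k))
    (by
      rintro v w ⟨k, h1, h2⟩
      refine ⟨k, fun j hj => ?_, ?_⟩
      · change act (Φ j) (v j) = act (Φ j) (w j)
        rw [h1 j hj]
      · exact (act_lt_iff (Φ k) _ _).2 h2)
    (by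
      intro v
      funext k
      change act (Φ k) (act (Φ k)⁻¹ (v k)) = v k
      rw [act_act_inv])

theorem act_lexAut (Φ : ℕ → AutO ℚ) (v : Lex (ℕ → ℚ)) (k : ℕ) :
    act (lexAut Φ) v k = act (Φ k) (v k) := rfl

/-- a chain with an action of a free group of automorphisms and a point with trivial stabiliser -/
theorem exists_free_chain (α : Type) [DecidableEq α] [Countable α] :
    ∃ (Λ : Type) (_ : LinearOrder Λ) (φ : α → AutO Λ) (o : Λ),
      ∀ w : FreeGroup α, act (FreeGroup.lift φ w) o = o → w = 1 := by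
  classical
  haveI : Countable (FreeGroup α) := by
    exact (FreeGroup.toWord_injective (α := α)).countable
  obtain ⟨e, he⟩ := exists_surjective_nat (FreeGroup α)
  have hex : ∀ w : FreeGroup α, ∃ φ : α → AutO ℚ, w ≠ 1 → act (FreeGroup.lift φ w) 0 ≠ 0 := by
    intro w
    by_cases hw : w = 1
    · exact ⟨fun _ => 1, fun h => absurd hw h⟩
    · obtain ⟨φ, hφ⟩ := exists_act_ne w hw
      exact ⟨φ, fun _ => hφ⟩
  choose Ψ hΨ using hex
  refine ⟨Lex (ℕ → ℚ), inferInstance, fun c => lexAut (fun k => Ψ (e k) c), toLex (fun _ => 0), ?_⟩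
  have key : ∀ (w : FreeGroup α) (v : Lex (ℕ → ℚ)) (k : ℕ),
      act (FreeGroup.lift (fun c => lexAut (fun k => Ψ (e k) c)) w) v k
        = act (FreeGroup.lift (Ψ (e k)) w) (v k) := by
    intro w
    induction w using FreeGroup.induction_on with
    | C1 => intro v k; simp [act_one]
    | of c => intro v k; simp only [FreeGroup.lift_apply_of]; rfl
    | inv_of c ih =>
      intro v k
      simp only [map_inv, FreeGroup.lift_apply_of]
      have := ih (act (lexAut (fun k => Ψ (e k) c))⁻¹ v) k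
      simp only [FreeGroup.lift_apply_of, act_act_inv] at this
      rw [this, act_inv_act]
    | mul x y hx hy =>
      intro v k
      rw [map_mul, map_mul, act_mul, act_mul, hx, hy]
  intro w hw
  by_contra hne
  obtain ⟨k, hk⟩ := he w
  have h1 := key w (toLex fun _ => 0) k
  rw [hw, hk] at h1
  exact hΨ w hne h1.symm

end

end Pool.Agent.Work.MP_3a2c1d_lc
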