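import Pool.Agent.Work.MP_3a2c1d_lc.Holland
import Pool.Agent.Work.MP_3a2c1d_lc.FreeChain

set_option autoImplicit false
set_option linter.all false

namespace Pool.Agent.Work.MP_3a2c1d_lc

/-- terms of the language of lattice-ordered groups -/
inductive LTm (n : ℕ) : Type
  | var (i : Fin n)
  | one
  | mul (a b : LTm n)
  | inv (a : LTm n)
  | sup (a b : LTm n)
  | inf (a b : LTm n)

namespace LTm

variable {n : ℕ}

def ev {H : Type} [Group H] [Lattice H] (f : Fin n → H) : LTm n → H
  | var i => f i
  | one => 1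
  | mul a b => ev f a * ev f b
  | inv a => (ev f a)⁻¹
  | sup a b => ev f a ⊔ ev f b
  | inf a b => ev f a ⊓ ev f b

/-- equality valid in all lattice-ordered groups -/
def Rel (s t : LTm n) : Prop :=
  ∀ (H : Type) [Group H] [Lattice H] [MulLeftMono H] [MulRightMono H] (f : Fin n → H),
    ev f s = ev f t

instance stoid (n : ℕ) : Setoid (LTm n) where
  r := Rel
  iseqv :=
    { refl := fun s H _ _ _ _ f => rfl
      symm := fun h H _ _ _ _ f => (h H f).symm
      trans := fun h h' H _ _ _ _ f => (h H f).trans (h' H f) }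

end LTm

/-- the free lattice-ordered group on `n` generators -/
def FL (n : ℕ) : Type := Quotient (LTm.stoid n)

namespace FL

variable {n : ℕ}

open LTm

def mk (t : LTm n) : FL n := Quotient.mk (LTm.stoid n) t

theorem sound {s t : LTm n} (h : Rel s t) : mk s = mk t := Quotient.sound h

theorem exact {s t : LTm n} (h : mk s = mk t) : Rel s t := Quotient.exact h

theorem ind {P : FL n → Prop} (h : ∀ t, P (mk t)) : ∀ g, P g := fun g => Quotient.ind h g

instance : Mul (FL n) := ⟨Quotient.map₂ LTm.mul (fun a b h a' b' h' H _ _ _ _ f => by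
  simp only [ev]; rw [h H f, h' H f])⟩
instance : Inv (FL n) := ⟨Quotient.map LTm.inv (fun a b h H _ _ _ _ f => by
  simp only [ev]; rw [h H f])⟩
instance : One (FL n) := ⟨mk LTm.one⟩
def maxI : Max (FL n) := ⟨Quotient.map₂ LTm.sup (fun a b h a' b' h' H _ _ _ _ f => by
  simp only [ev]; rw [h H f, h' H f])⟩
def minI : Min (FL n) := ⟨Quotient.map₂ LTm.inf (fun a b h a' b' h' H _ _ _ _ f => by
  simp only [ev]; rw [h H f, h' H f])⟩

theorem mk_mul (a b : LTm n) : mk (LTm.mul a b) = mk a * mk b := rfl
theorem mk_inv (a : LTm n) : mk (LTm.inv a) = (mk a)⁻¹ := rfl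
theorem mk_one : mk (LTm.one : LTm n) = 1 := rfl

instance : Group (FL n) where
  mul_assoc a b c := by
    induction a using ind with | _ a => ?_
    induction b using ind with | _ b => ?_
    induction c using ind with | _ c => ?_
    exact sound fun H _ _ _ _ f => mul_assoc _ _ _
  one_mul a := by
    induction a using ind with | _ a => ?_
    exact sound fun H _ _ _ _ f => one_mul _
  mul_one a := by
    induction a using ind with | _ a => ?_
    exact sound fun H _ _ _ _ f => mul_one _
  inv_mul_cancel a := by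
    induction a using ind with | _ a => ?_
    exact sound fun H _ _ _ _ f => inv_mul_cancel _

instance : Lattice (FL n) :=
  letI := maxI (n := n)
  letI := minI (n := n)
  Lattice.mk'
    (fun a b => by
      induction a using ind with | _ a => ?_
      induction b using ind with | _ b => ?_
      exact sound fun H _ _ _ _ f => sup_comm _ _)
    (fun a b c => by
      induction a using ind with | _ a => ?_
      induction b using ind with | _ b => ?_
      induction c using ind with | _ c => ?_
      exact sound fun H _ _ _ _ f => sup_assoc _ _ _)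
    (fun a b => by
      induction a using ind with | _ a => ?_
      induction b using ind with | _ b => ?_
      exact sound fun H _ _ _ _ f => inf_comm _ _)
    (fun a b c => by
      induction a using ind with | _ a => ?_
      induction b using ind with | _ b => ?_
      induction c using ind with | _ c => ?_
      exact sound fun H _ _ _ _ f => inf_assoc _ _ _)
    (fun a b => by
      induction a using ind with | _ a => ?_
      induction b using ind with | _ b => ?_
      exact sound fun H _ _ _ _ f => sup_inf_self)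
    (fun a b => by
      induction a using ind with | _ a => ?_
      induction b using ind with | _ b => ?_
      exact sound fun H _ _ _ _ f => inf_sup_self)

theorem mk_sup (a b : LTm n) : mk (LTm.sup a b) = mk a ⊔ mk b := rfl
theorem mk_inf (a b : LTm n) : mk (LTm.inf a b) = mk a ⊓ mk b := rfl

instance : MulLeftMono (FL n) := ⟨fun a b c h => by
  rw [← sup_eq_right] at h ⊢
  rw [← congrArg (fun x => a * x) h]
  induction a using ind with | _ a => ?_
  induction b using ind with | _ b => ?_
  induction c using ind with | _ c => ?_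
  refine sound fun H _ _ _ _ f => ?_
  simp only [ev]
  rw [mul_sup, ← sup_assoc, sup_idem]⟩

instance : MulRightMono (FL n) := ⟨fun a b c h => by
  rw [← sup_eq_right] at h ⊢
  change b * a ⊔ c * a = c * a
  rw [← congrArg (fun x => x * a) h]
  induction a using ind with | _ a => ?_
  induction b using ind with | _ b => ?_
  induction c using ind with | _ c => ?_
  refine sound fun H _ _ _ _ f => ?_
  simp only [ev]
  rw [sup_mul, ← sup_assoc, sup_idem]⟩

def gen (i : Fin n) : FL n := mk (LTm.var i)

/-- the induced homomorphism -/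
def lift {H : Type} [Group H] [Lattice H] [MulLeftMono H] [MulRightMono H] (f : Fin n → H) :
    FL n →* H where
  toFun := Quotient.lift (ev f) (fun a b h => h H f)
  map_one' := rfl
  map_mul' a b := by
    induction a using ind with | _ a => ?_
    induction b using ind with | _ b => ?_
    rfl

section lift
variable {H : Type} [Group H] [Lattice H] [MulLeftMono H] [MulRightMono H] (f : Fin n → H)

theorem lift_mk (t : LTm n) : lift f (mk t) = ev f t := rfl
theorem lift_gen (i : Fin n) : lift f (gen i) = f i := rfl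
theorem lift_sup (a b : FL n) : lift f (a ⊔ b) = lift f a ⊔ lift f b := by
  induction a using ind with | _ a => ?_
  induction b using ind with | _ b => ?_
  rfl
theorem lift_inf (a b : FL n) : lift f (a ⊓ b) = lift f a ⊓ lift f b := by
  induction a using ind with | _ a => ?_
  induction b using ind with | _ b => ?_
  rfl
end lift

theorem induct {P : FL n → Prop} (hg : ∀ i, P (gen i)) (h1 : P 1)
    (hm : ∀ a b, P a → P b → P (a * b)) (hi : ∀ a, P a → P a⁻¹)
    (hs : ∀ a b, P a → P b → P (a ⊔ b)) (hinf : ∀ a b, P a → P b → P (a ⊓ b)) : ∀ g, P g := by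
  refine ind fun t => ?_
  induction t with
  | var i => exact hg i
  | one => exact h1
  | mul a b ha hb => exact hm _ _ ha hb
  | inv a ha => exact hi _ ha
  | sup a b ha hb => exact hs _ _ ha hb
  | inf a b ha hb => exact hinf _ _ ha hb

theorem universal (H : Type) [Group H] [Lattice H] [MulLeftMono H] [MulRightMono H]
    (f : Fin n → H) :
    ∃ φ : FL n →* H, (∀ a b : FL n, φ (a ⊔ b) = φ a ⊔ φ b) ∧ (∀ a b : FL n, φ (a ⊓ b) = φ a ⊓ φ b) ∧
        (∀ i, φ (gen i) = f i) ∧
        ∀ ψ : FL n →* H, (∀ a b : FL n, ψ (a ⊔ b) = ψ a ⊔ ψ b) →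
          (∀ a b : FL n, ψ (a ⊓ b) = ψ a ⊓ ψ b) → (∀ i, ψ (gen i) = f i) → ψ = φ := by
  refine ⟨lift f, lift_sup f, lift_inf f, lift_gen f, fun ψ h1 h2 h3 => ?_⟩
  ext g
  refine induct (P := fun g => ψ g = lift f g) ?_ ?_ ?_ ?_ ?_ ?_ g
  · intro i; rw [h3]; rfl
  · rw [map_one, map_one]
  · intro a b ha hb; rw [map_mul, map_mul, ha, hb]
  · intro a ha; rw [map_inv, map_inv, ha]
  · intro a b ha hb; rw [h1, lift_sup, ha, hb]
  · intro a b ha hb; rw [h2, lift_inf, ha, hb]

end FL

/-! ### representations -/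

namespace Rep

variable {G : Type} [Group G] [Lattice G] {Ω : Type} [LinearOrder Ω] (R : Rep G Ω)

theorem act_mono_left {a b : G} (h : a ≤ b) (v : Ω) : R.act a v ≤ R.act b v := by
  have := R.act_sup a b v
  rw [sup_eq_right.2 h] at this
  rw [this]; exact le_max_left _ _

theorem act_lt_iff (a : G) (v w : Ω) : R.act a v < R.act a w ↔ v < w := by
  constructor
  · intro h
    by_contra hcon
    push Not at hcon
    rcases hcon.lt_or_eq with h1 | h1
    · exact absurd (R.act_lt a _ _ h1) (not_lt.2 h.le)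
    · rw [h1] at h; exact lt_irrefl _ h
  · exact R.act_lt a v w

theorem act_le_iff (a : G) (v w : Ω) : R.act a v ≤ R.act a w ↔ v ≤ w := by
  rw [← not_lt, ← not_lt, act_lt_iff]

theorem act_inv_act (a : G) (v : Ω) : R.act a⁻¹ (R.act a v) = v := by
  rw [← R.act_mul, inv_mul_cancel, R.act_one]

theorem act_act_inv (a : G) (v : Ω) : R.act a (R.act a⁻¹ v) = v := by
  rw [← R.act_mul, mul_inv_cancel, R.act_one]

theorem act_inj (a : G) {v w : Ω} (h : R.act a v = R.act a w) : v = w := by
  have := congrArg (R.act a⁻¹) h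
  rwa [act_inv_act, act_inv_act] at this

/-- the automorphism given by a group element -/
def aut (a : G) : AutO Ω :=
  AutO.mk' (R.act a) (R.act a⁻¹) (fun v w h => R.act_lt a v w h) (fun v => R.act_act_inv a v)

theorem act_aut (a : G) (v : Ω) : AutO.act (R.aut a) v = R.act a v := rfl

end Rep

/-- representation induced by a homomorphism into the automorphism group of a chain -/
def Rep.ofHom {n : ℕ} {Ω : Type} [LinearOrder Ω] (φ : Fin n → AutO Ω) : Rep (FL n) Ω where
  act g v := AutO.act (FL.lift φ g) v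
  act_one v := by rw [map_one]; rfl
  act_mul a b v := by rw [map_mul]; rfl
  act_lt a v w h := (AutO.act_lt_iff _ _ _).2 h
  act_sup a b v := by rw [FL.lift_sup]; rfl
  act_inf a b v := by rw [FL.lift_inf]; rfl

theorem Rep.ofHom_gen {n : ℕ} {Ω : Type} [LinearOrder Ω] (φ : Fin n → AutO Ω) (i : Fin n) (v : Ω) :
    (Rep.ofHom φ).act (FL.gen i) v = AutO.act (φ i) v := rfl

/-- inequalities can be checked in all representations -/
theorem le_of_reps {G : Type} [Group G] [Lattice G] [MulLeftMono G] [MulRightMono G] (a b : G)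
    (h : ∀ (Ω : Type) [LinearOrder Ω] (R : Rep G Ω) (v : Ω), R.act a v ≤ R.act b v) : a ≤ b := by
  by_contra hcon
  have hne : (a ⊔ b) * b⁻¹ ≠ 1 := by
    intro h1
    apply hcon
    have : a ⊔ b = b := by
      calc a ⊔ b = (a ⊔ b) * b⁻¹ * b := by group
        _ = b := by rw [h1, one_mul]
    exact sup_eq_right.1 this
  obtain ⟨Ω, _, R, v, hv⟩ := holland _ hne
  apply hv
  rw [R.act_mul, R.act_sup, max_eq_right (h Ω R _), R.act_act_inv]

/-- elements of a free lattice-ordered group act with bounded displacement -/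
theorem FL.bounded {n : ℕ} (g : FL n) : ∃ W : Finset (FreeGroup (Fin n)),
    ∀ (Ω : Type) [LinearOrder Ω] (φ : Fin n → AutO Ω) (v : Ω),
      ∃ w ∈ W, (Rep.ofHom φ).act g v = AutO.act (FreeGroup.lift φ w) v := by
  classical
  refine FL.induct (P := fun g => ∃ W : Finset (FreeGroup (Fin n)),
    ∀ (Ω : Type) [LinearOrder Ω] (φ : Fin n → AutO Ω) (v : Ω),
      ∃ w ∈ W, (Rep.ofHom φ).act g v = AutO.act (FreeGroup.lift φ w) v) ?_ ?_ ?_ ?_ ?_ ?_ g
  · intro i
    refine ⟨{FreeGroup.of i}, fun Ω _ φ v => ⟨_, Finset.mem_singleton_self _, ?_⟩⟩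
    rw [FreeGroup.lift_apply_of]; rfl
  · refine ⟨{1}, fun Ω _ φ v => ⟨_, Finset.mem_singleton_self _, ?_⟩⟩
    rw [Rep.act_one, map_one]; rfl
  · rintro a b ⟨W, hW⟩ ⟨W', hW'⟩
    refine ⟨(W ×ˢ W').image (fun p => p.1 * p.2), fun Ω _ φ v => ?_⟩
    obtain ⟨w', hw', e'⟩ := hW' Ω φ v
    obtain ⟨w, hw, e⟩ := hW Ω φ ((Rep.ofHom φ).act b v)
    refine ⟨w * w', Finset.mem_image.2 ⟨(w, w'), Finset.mem_product.2 ⟨hw, hw'⟩, rfl⟩, ?_⟩
    rw [Rep.act_mul, e, e', map_mul]; rfl
  · rintro a ⟨W, hW⟩
    refine ⟨W.image (fun w => w⁻¹), fun Ω _ φ v => ?_⟩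
    obtain ⟨w, hw, e⟩ := hW Ω φ ((Rep.ofHom φ).act a⁻¹ v)
    refine ⟨w⁻¹, Finset.mem_image.2 ⟨w, hw, rfl⟩, ?_⟩
    rw [Rep.act_act_inv] at e
    rw [map_inv]
    have := congrArg (AutO.act (FreeGroup.lift φ w)⁻¹) e
    rw [AutO.act_inv_act] at this
    exact this.symm
  · rintro a b ⟨W, hW⟩ ⟨W', hW'⟩
    refine ⟨W ∪ W', fun Ω _ φ v => ?_⟩
    rw [Rep.act_sup]
    rcases max_choice ((Rep.ofHom φ).act a v) ((Rep.ofHom φ).act b v) with h | h
    · rw [h]
      obtain ⟨w, hw, e⟩ := hW Ω φ v
      exact ⟨w, Finset.mem_union_left _ hw, e⟩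
    · rw [h]
      obtain ⟨w, hw, e⟩ := hW' Ω φ v
      exact ⟨w, Finset.mem_union_right _ hw, e⟩
  · rintro a b ⟨W, hW⟩ ⟨W', hW'⟩
    refine ⟨W ∪ W', fun Ω _ φ v => ?_⟩
    rw [Rep.act_inf]
    rcases min_choice ((Rep.ofHom φ).act a v) ((Rep.ofHom φ).act b v) with h | h
    · rw [h]
      obtain ⟨w, hw, e⟩ := hW Ω φ v
      exact ⟨w, Finset.mem_union_left _ hw, e⟩
    · rw [h]
      obtain ⟨w, hw, e⟩ := hW' Ω φ v
      exact ⟨w, Finset.mem_union_right _ hw, e⟩

end Pool.Agent.Work.MP_3a2c1d_lc
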