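import Mathlib

set_option autoImplicit false
set_option linter.all false
set_option linter.unusedVariables false
set_option linter.unusedSectionVars false

namespace Pool.Agent.Work.MP_3a2c1d_lc

/-- a representation of a lattice-ordered group by order automorphisms of a chain,
with pointwise lattice operations -/
structure Rep (G : Type) [Group G] [Lattice G] (Ω : Type) [LinearOrder Ω] where
  act : G → Ω → Ω
  act_one : ∀ v, act 1 v = v
  act_mul : ∀ a b v, act (a * b) v = act a (act b v)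
  act_lt : ∀ a v w, v < w → act a v < act a w
  act_sup : ∀ a b v, act (a ⊔ b) v = max (act a v) (act b v)
  act_inf : ∀ a b v, act (a ⊓ b) v = min (act a v) (act b v)

section

variable {G : Type} [Group G] [Lattice G] [MulLeftMono G] [MulRightMono G]

theorem inf_mul_le (x y z : G) (hx : 1 ≤ x) (hy : 1 ≤ y) (hz : 1 ≤ z) :
    x ⊓ (y * z) ≤ (x ⊓ y) * (x ⊓ z) := by
  rw [inf_mul, mul_inf, mul_inf]
  refine le_inf (le_inf ?_ ?_) (le_inf ?_ ?_)
  · exact inf_le_left.trans (le_mul_of_one_le_right' hx)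
  · exact inf_le_left.trans (le_mul_of_one_le_right' hz)
  · exact inf_le_left.trans (le_mul_of_one_le_left' hy)
  · exact inf_le_right

theorem inf_pow_le (x y : G) (hx : 1 ≤ x) (hy : 1 ≤ y) (n : ℕ) :
    x ⊓ y ^ n ≤ (x ⊓ y) ^ n := by
  induction n with
  | zero => simp
  | succ n ih =>
    rw [pow_succ, pow_succ]
    refine (inf_mul_le x _ _ hx (one_le_pow_of_one_le' hy n) hy).trans ?_
    exact mul_le_mul_left ih _

theorem mabs_mul_le3 (x y : G) : mabs (x * y) ≤ mabs x * mabs y * mabs x := by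
  refine sup_le ?_ ?_
  · calc x * y ≤ mabs x * mabs y := mul_le_mul' (le_mabs_self x) (le_mabs_self y)
      _ ≤ _ := le_mul_of_one_le_right' (one_le_mabs x)
  · rw [mul_inv_rev]
    calc y⁻¹ * x⁻¹ ≤ mabs y * mabs x := mul_le_mul' (inv_le_mabs y) (inv_le_mabs x)
      _ ≤ mabs x * (mabs y * mabs x) := le_mul_of_one_le_left' (one_le_mabs x)
      _ = _ := by rw [mul_assoc]

/-- solid subgroups, i.e. convex lattice-ordered subgroups -/
def Solid (C : Subgroup G) : Prop := ∀ a ∈ C, ∀ x : G, mabs x ≤ mabs a → x ∈ C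

theorem Solid.mabs_mem {C : Subgroup G} (hC : Solid C) {a : G} (ha : a ∈ C) : mabs a ∈ C :=
  hC a ha _ (by rw [mabs_mabs])

/-- the solid subgroup generated by a solid subgroup and a positive element -/
def gen (C : Subgroup G) (hC : Solid C) (a : G) (ha : 1 ≤ a) : Subgroup G where
  carrier := {x | ∃ n : ℕ, ∃ c ∈ C, 1 ≤ c ∧ mabs x ≤ (c * a) ^ n}
  one_mem' := ⟨0, 1, C.one_mem, le_rfl, by simp⟩
  inv_mem' := by
    rintro x ⟨n, c, hc, h1, h⟩
    exact ⟨n, c, hc, h1, by rwa [mabs_inv]⟩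
  mul_mem' := by
    rintro x y ⟨n, c, hc, h1, h⟩ ⟨m, d, hd, h1', h'⟩
    have hcd : c * d ∈ C := C.mul_mem hc hd
    have e1 : c ≤ c * d := le_mul_of_one_le_right' h1'
    have e2 : d ≤ c * d := le_mul_of_one_le_left' h1
    have p1 : (c * a) ^ n ≤ (c * d * a) ^ n := pow_le_pow_left' (mul_le_mul_left e1 _) _
    have p2 : (d * a) ^ m ≤ (c * d * a) ^ m := pow_le_pow_left' (mul_le_mul_left e2 _) _
    refine ⟨n + m + n, c * d, hcd, e2.trans' h1', ?_⟩
    refine (mabs_mul_le3 x y).trans ?_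
    rw [pow_add, pow_add]
    exact mul_le_mul' (mul_le_mul' (h.trans p1) (h'.trans p2)) (h.trans p1)

theorem gen_solid (C : Subgroup G) (hC : Solid C) (a : G) (ha : 1 ≤ a) : Solid (gen C hC a ha) := by
  rintro x ⟨n, c, hc, h1, h⟩ y hy
  exact ⟨n, c, hc, h1, hy.trans h⟩

theorem le_gen (C : Subgroup G) (hC : Solid C) (a : G) (ha : 1 ≤ a) : C ≤ gen C hC a ha := by
  intro x hx
  refine ⟨1, mabs x, hC.mabs_mem hx, one_le_mabs x, ?_⟩
  rw [pow_one]
  exact le_mul_of_one_le_right' ha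

theorem mem_gen (C : Subgroup G) (hC : Solid C) (a : G) (ha : 1 ≤ a) : a ∈ gen C hC a ha := by
  refine ⟨1, 1, C.one_mem, le_rfl, ?_⟩
  rw [pow_one, one_mul, mabs_of_one_le ha]

theorem exists_maximal_solid (h : G) (hh : h ≠ 1) :
    ∃ C : Subgroup G, Solid C ∧ h ∉ C ∧ ∀ D : Subgroup G, Solid D → C ≤ D → h ∉ D → D ≤ C := by
  have key := zorn_le_nonempty₀ {C : Subgroup G | Solid C ∧ h ∉ C} ?_ ⊥ ?_
  · obtain ⟨C, _, hC⟩ := key
    exact ⟨C, hC.prop.1, hC.prop.2, fun D hD hCD hhD => hC.2 ⟨hD, hhD⟩ hCD⟩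
  · intro c hc hchain y hy
    refine ⟨sSup c, ⟨?_, ?_⟩, fun z hz => le_sSup hz⟩
    · intro a ha x hx
      rw [Subgroup.mem_sSup_of_directedOn ⟨y, hy⟩ hchain.directedOn] at ha ⊢
      obtain ⟨K, hK, haK⟩ := ha
      exact ⟨K, hK, (hc hK).1 a haK x hx⟩
    · intro hmem
      rw [Subgroup.mem_sSup_of_directedOn ⟨y, hy⟩ hchain.directedOn] at hmem
      obtain ⟨K, hK, haK⟩ := hmem
      exact (hc hK).2 haK
  · refine ⟨?_, by simpa using hh⟩
    intro a ha x hx
    rw [Subgroup.mem_bot] at ha ⊢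
    subst ha
    rw [mabs_one] at hx
    have h1 : x ≤ 1 := (le_mabs_self x).trans hx
    have h2 : x⁻¹ ≤ 1 := (inv_le_mabs x).trans hx
    exact le_antisymm h1 (by simpa using h2)

theorem prime_of_maximal (h : G) (C : Subgroup G) (hC : Solid C) (hhC : h ∉ C)
    (hmax : ∀ D : Subgroup G, Solid D → C ≤ D → h ∉ D → D ≤ C)
    (a b : G) (ha : 1 ≤ a) (hb : 1 ≤ b) (hab : a ⊓ b = 1) : a ∈ C ∨ b ∈ C := by
  by_contra hcon
  push Not at hcon
  obtain ⟨haC, hbC⟩ := hcon
  have hA : h ∈ gen C hC a ha := by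
    by_contra hne
    exact haC (hmax _ (gen_solid C hC a ha) (le_gen C hC a ha) hne (mem_gen C hC a ha))
  have hB : h ∈ gen C hC b hb := by
    by_contra hne
    exact hbC (hmax _ (gen_solid C hC b hb) (le_gen C hC b hb) hne (mem_gen C hC b hb))
  obtain ⟨n, c, hc, h1, hA⟩ := hA
  obtain ⟨m, d, hd, h1', hB⟩ := hB
  have hcd : c * d ∈ C := C.mul_mem hc hd
  have e1 : c ≤ c * d := le_mul_of_one_le_right' h1'
  have e2 : d ≤ c * d := le_mul_of_one_le_left' h1
  set e := c * d with he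
  have he1 : 1 ≤ e := e2.trans' h1'
  have p1 : (c * a) ^ n ≤ (e * a) ^ n := pow_le_pow_left' (mul_le_mul_left e1 _) _
  have p2 : (d * b) ^ m ≤ (e * b) ^ m := pow_le_pow_left' (mul_le_mul_left e2 _) _
  have hA' : mabs h ≤ (e * a) ^ n := hA.trans p1
  have hB' : mabs h ≤ (e * b) ^ m := hB.trans p2
  have hea : 1 ≤ e * a := one_le_mul he1 ha
  have heb : 1 ≤ e * b := one_le_mul he1 hb
  have hw1 : 1 ≤ (e * a) ^ n := one_le_pow_of_one_le' hea n
  have s1 : (e * a) ^ n ⊓ b ≤ e ^ n := by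
    rw [inf_comm]
    refine (inf_pow_le b (e * a) hb hea n).trans (pow_le_pow_left' ?_ n)
    refine (inf_mul_le b e a hb he1 ha).trans ?_
    rw [inf_comm b a, hab, mul_one]
    exact inf_le_right
  have s2 : (e * a) ^ n ⊓ (e * b) ≤ e * e ^ n :=
    (inf_mul_le _ e b hw1 he1 hb).trans (mul_le_mul' inf_le_right s1)
  have s3 : mabs h ≤ (e * e ^ n) ^ m :=
    (le_inf hA' hB').trans ((inf_pow_le _ _ hw1 heb m).trans (pow_le_pow_left' s2 m))
  have hmem : (e * e ^ n) ^ m ∈ C := C.pow_mem (C.mul_mem hcd (C.pow_mem hcd n)) m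
  have h1m : 1 ≤ (e * e ^ n) ^ m :=
    one_le_pow_of_one_le' (one_le_mul he1 (one_le_pow_of_one_le' he1 n)) m
  exact hhC (hC _ hmem h (by rwa [mabs_of_one_le h1m]))

/-- the coset preorder attached to a subgroup -/
def cosetLE (C : Subgroup G) (g g' : G) : Prop := ∃ c ∈ C, g ≤ g' * c

theorem cosetLE_refl (C : Subgroup G) (a : G) : cosetLE C a a := ⟨1, C.one_mem, by simp⟩

theorem cosetLE_trans (C : Subgroup G) {x y z : G} (h1 : cosetLE C x y) (h2 : cosetLE C y z) :
    cosetLE C x z := by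
  obtain ⟨c, hc, h1⟩ := h1
  obtain ⟨d, hd, h2⟩ := h2
  refine ⟨d * c, C.mul_mem hd hc, h1.trans ?_⟩
  rw [← mul_assoc]
  exact mul_le_mul_left h2 c

theorem cosetLE_of_le (C : Subgroup G) {x y : G} (h : x ≤ y) : cosetLE C x y :=
  ⟨1, C.one_mem, by simpa using h⟩

theorem cosetLE_mul (C : Subgroup G) (a : G) {x y : G} (h : cosetLE C x y) :
    cosetLE C (a * x) (a * y) := by
  obtain ⟨c, hc, h⟩ := h
  refine ⟨c, hc, ?_⟩
  rw [mul_assoc]
  exact mul_le_mul_right h a

theorem cosetLE_total (C : Subgroup G)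
    (hprime : ∀ a b : G, 1 ≤ a → 1 ≤ b → a ⊓ b = 1 → a ∈ C ∨ b ∈ C) (g g' : G) :
    cosetLE C g g' ∨ cosetLE C g' g := by
  have hinf : ((g ⊓ g')⁻¹ * g) ⊓ ((g ⊓ g')⁻¹ * g') = 1 := by
    rw [← mul_inf, inv_mul_cancel]
  have h1 : 1 ≤ (g ⊓ g')⁻¹ * g := by
    calc (1 : G) = _ := hinf.symm
      _ ≤ _ := inf_le_left
  have h2 : 1 ≤ (g ⊓ g')⁻¹ * g' := by
    calc (1 : G) = _ := hinf.symm
      _ ≤ _ := inf_le_right
  rcases hprime _ _ h1 h2 hinf with hm | hm
  · left
    refine ⟨_, hm, ?_⟩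
    calc g = (g ⊓ g') * ((g ⊓ g')⁻¹ * g) := by group
      _ ≤ g' * ((g ⊓ g')⁻¹ * g) := mul_le_mul_left inf_le_right _
  · right
    refine ⟨_, hm, ?_⟩
    calc g' = (g ⊓ g') * ((g ⊓ g')⁻¹ * g') := by group
      _ ≤ g * ((g ⊓ g')⁻¹ * g') := mul_le_mul_left inf_le_left _

end

/-- a copy of the group carrying the coset preorder -/
def CosT {G : Type} [Group G] (_C : Subgroup G) : Type := G

/-- Holland's theorem (family version): every non-identity element of a lattice-ordered group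
is moved by some representation on a chain. -/
theorem holland {G : Type} [Group G] [Lattice G] [MulLeftMono G] [MulRightMono G]
    (h : G) (hh : h ≠ 1) :
    ∃ (Ω : Type) (_ : LinearOrder Ω) (R : Rep G Ω) (v : Ω), R.act h v ≠ v := by
  classical
  obtain ⟨C, hC, hhC, hmax⟩ := exists_maximal_solid h hh
  have hprime := prime_of_maximal h C hC hhC hmax
  have pos_mem : ∀ c ∈ C, c ⊔ 1 ∈ C := by
    intro c hc
    refine hC c hc _ ?_
    rw [mabs_of_one_le le_sup_right]
    exact sup_le (le_mabs_self c) (one_le_mabs c)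
  letI pre : Preorder (CosT C) :=
    { le := fun a b : G => cosetLE C a b
      le_refl := fun a => cosetLE_refl C a
      le_trans := fun x y z h1 h2 => cosetLE_trans C h1 h2 }
  haveI tot : Std.Total (α := CosT C) (· ≤ ·) := ⟨fun a b => cosetLE_total C hprime a b⟩
  let Ω := Antisymmetrization (CosT C) (· ≤ ·)
  let q : G → Ω := fun g => toAntisymmetrization (α := CosT C) (· ≤ ·) g
  have q_le : ∀ a b : G, q a ≤ q b ↔ cosetLE C a b := fun a b =>
    toAntisymmetrization_le_toAntisymmetrization_iff (α := CosT C)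
  have q_surj : ∀ v : Ω, ∃ g : G, q g = v := fun v => Quotient.exists_rep v
  have q_mul : ∀ a x y : G, q x = q y → q (a * x) = q (a * y) := by
    intro a x y hxy
    apply le_antisymm
    · exact (q_le _ _).2 (cosetLE_mul C a ((q_le _ _).1 hxy.le))
    · exact (q_le _ _).2 (cosetLE_mul C a ((q_le _ _).1 hxy.ge))
  let sec : Ω → G := fun v => (q_surj v).choose
  have q_sec : ∀ v, q (sec v) = v := fun v => (q_surj v).choose_spec
  let act : G → Ω → Ω := fun a v => q (a * sec v)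
  have act_q : ∀ a g : G, act a (q g) = q (a * g) := fun a g => q_mul a _ _ (q_sec (q g))
  have q_sup : ∀ a b : G, q (a ⊔ b) = max (q a) (q b) := by
    have main : ∀ a b : G, cosetLE C a b → q (a ⊔ b) = q b := by
      intro a b hab
      apply le_antisymm
      · rw [q_le]
        obtain ⟨c, hc, h⟩ := hab
        refine ⟨c ⊔ 1, pos_mem c hc, sup_le (h.trans ?_) ?_⟩
        · exact mul_le_mul_right le_sup_left b
        · exact le_mul_of_one_le_right' le_sup_right
      · rw [q_le]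
        exact cosetLE_of_le C le_sup_right
    intro a b
    rcases cosetLE_total C hprime a b with hab | hab
    · rw [main a b hab, max_eq_right ((q_le _ _).2 hab)]
    · rw [sup_comm, main b a hab, max_eq_left ((q_le _ _).2 hab)]
  have q_inf : ∀ a b : G, q (a ⊓ b) = min (q a) (q b) := by
    have main : ∀ a b : G, cosetLE C a b → q (a ⊓ b) = q a := by
      intro a b hab
      apply le_antisymm
      · rw [q_le]
        exact cosetLE_of_le C inf_le_left
      · rw [q_le]
        obtain ⟨c, hc, h⟩ := hab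
        refine ⟨c ⊔ 1, pos_mem c hc, ?_⟩
        rw [inf_mul]
        refine le_inf ?_ (h.trans ?_)
        · exact le_mul_of_one_le_right' le_sup_right
        · exact mul_le_mul_right le_sup_left b
    intro a b
    rcases cosetLE_total C hprime a b with hab | hab
    · rw [main a b hab, min_eq_left ((q_le _ _).2 hab)]
    · rw [inf_comm, main b a hab, min_eq_right ((q_le _ _).2 hab)]
  refine ⟨Ω, inferInstance, ⟨act, ?_, ?_, ?_, ?_, ?_⟩, q 1, ?_⟩
  · intro v
    change q (1 * sec v) = v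
    rw [one_mul, q_sec]
  · intro a b v
    obtain ⟨g, rfl⟩ := q_surj v
    have e1 := act_q b g
    have e2 := act_q a (b * g)
    have e3 := act_q (a * b) g
    rw [mul_assoc] at e3
    exact e3.trans (e2.symm.trans (congrArg (act a) e1.symm))
  · intro a v w hvw
    obtain ⟨g, rfl⟩ := q_surj v
    obtain ⟨g', rfl⟩ := q_surj w
    rw [act_q, act_q]
    rw [lt_iff_not_ge] at hvw ⊢
    intro hcon
    apply hvw
    rw [q_le] at hcon ⊢
    have := cosetLE_mul C a⁻¹ hcon
    simpa using this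
  · intro a b v
    obtain ⟨g, rfl⟩ := q_surj v
    rw [act_q, act_q, act_q, sup_mul, q_sup]
  · intro a b v
    obtain ⟨g, rfl⟩ := q_surj v
    rw [act_q, act_q, act_q, inf_mul, q_inf]
  · intro hcon
    have e1 := act_q h 1
    rw [mul_one] at e1
    have hcon : q h = q 1 := e1.symm.trans hcon
    obtain ⟨c, hc, h1⟩ := (q_le _ _).1 hcon.le
    obtain ⟨d, hd, h2⟩ := (q_le _ _).1 hcon.ge
    rw [one_mul] at h1
    have h3 : h⁻¹ ≤ d := by
      have := mul_le_mul_right h2 h⁻¹
      simpa using this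
    have hmem : mabs c * mabs d ∈ C := C.mul_mem (hC.mabs_mem hc) (hC.mabs_mem hd)
    refine hhC (hC _ hmem h ?_)
    rw [mabs_of_one_le (one_le_mul (one_le_mabs c) (one_le_mabs d))]
    refine sup_le ?_ ?_
    · exact h1.trans ((le_mabs_self c).trans (le_mul_of_one_le_right' (one_le_mabs d)))
    · exact h3.trans ((le_mabs_self d).trans (le_mul_of_one_le_left' (one_le_mabs c)))

end Pool.Agent.Work.MP_3a2c1d_lc
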