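import Pool.Agent.Work.MP_3a2c1d_lc.Realize

set_option autoImplicit false
set_option linter.all false

namespace Pool.Agent.Work.MP_3a2c1d_lc

open Helper86

/-- the positions prescribed for the inverse images -/
def uu (N k l : ℕ) : ℤ := if l = k then 0 else if k < l then (l : ℤ) + 1 else (l : ℤ) - N

theorem uu_lt (N k l l' : ℕ) (hl : l < N) (hl' : l' < N) (h : l < l') : uu N k l < uu N k l' := by
  unfold uu
  split_ifs <;> omega

theorem uu_ne (N k l : ℕ) (hl : l < N) (h : l ≠ k) : uu N k l ≠ 0 := by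
  unfold uu
  split_ifs <;> omega

noncomputable def zeta (u : ℤ) : ℚ := if u = 0 then 1 / 3 else (u : ℚ) - 1 / 3

theorem zeta_lt (u u' : ℤ) (h : u < u') : zeta u < zeta u' := by
  unfold zeta
  have h1 : (u : ℚ) + 1 ≤ u' := by exact_mod_cast h
  split_ifs with h2 h3 h3
  · omega
  · subst h2; push_cast at h1; linarith
  · subst h3; push_cast at h1; linarith
  · linarith

theorem exists_aut_fun (U : Finset ℤ) (f : ℤ → ℚ) (hf : ∀ u ∈ U, ∀ u' ∈ U, u < u' → f u < f u') :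
    ∃ F : AutO ℚ, ∀ u ∈ U, AutO.act F (u : ℚ) = f u := by
  classical
  obtain ⟨F, hF⟩ := exists_aut_rat (U.image fun u : ℤ => ((u : ℚ), f u)) (by
    intro p hp q hq
    obtain ⟨u, hu, rfl⟩ := Finset.mem_image.1 hp
    obtain ⟨u', hu', rfl⟩ := Finset.mem_image.1 hq
    dsimp only
    rcases lt_trichotomy u u' with h | h | h
    · rw [(cmp_eq_lt_iff _ _).2 (hf u hu u' hu' h), (cmp_eq_lt_iff _ _).2 (by exact_mod_cast h)]
    · subst h; rw [cmp_self_eq_eq, cmp_self_eq_eq]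
    · rw [(cmp_eq_gt_iff _ _).2 (hf u' hu' u hu h), (cmp_eq_gt_iff _ _).2 (by exact_mod_cast h)])
  exact ⟨F, fun u hu => hF _ (Finset.mem_image_of_mem _ hu)⟩

theorem exists_aut_fun2 (E : Finset ℕ) (v : ℕ → ℤ) (hv : ∀ l ∈ E, ∀ l' ∈ E, l < l' → v l < v l') :
    ∃ F : AutO ℚ, ∀ l ∈ E, AutO.act F (v l : ℚ) = (l : ℚ) + 1 := by
  classical
  obtain ⟨F, hF⟩ := exists_aut_rat (E.image fun l : ℕ => ((v l : ℚ), (l : ℚ) + 1)) (by
    intro p hp q hq
    obtain ⟨u, hu, rfl⟩ := Finset.mem_image.1 hp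
    obtain ⟨u', hu', rfl⟩ := Finset.mem_image.1 hq
    dsimp only
    rcases lt_trichotomy u u' with h | h | h
    · rw [(cmp_eq_lt_iff _ _).2 (by exact_mod_cast hv u hu u' hu' h),
        (cmp_eq_lt_iff _ _).2 (by exact_mod_cast Nat.succ_lt_succ h)]
    · subst h; rw [cmp_self_eq_eq, cmp_self_eq_eq]
    · rw [(cmp_eq_gt_iff _ _).2 (by exact_mod_cast hv u' hu' u hu h),
        (cmp_eq_gt_iff _ _).2 (by exact_mod_cast Nat.succ_lt_succ h)])
  exact ⟨F, fun l hl => hF _ (Finset.mem_image_of_mem _ hl)⟩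

/-- the shift -/
def shiftA : AutO (ℤ ×ₗ ℚ) :=
  AutO.mk' (fun v => toLex ((ofLex v).1 + 1, (ofLex v).2)) (fun v => toLex ((ofLex v).1 - 1, (ofLex v).2))
    (by
      intro v w h
      rw [Prod.Lex.lt_iff] at h ⊢
      rcases h with h | ⟨h1, h2⟩
      · left; change (ofLex v).1 + 1 < (ofLex w).1 + 1; omega
      · right; exact ⟨by change (ofLex v).1 + 1 = (ofLex w).1 + 1; omega, h2⟩)
    (by
      intro v
      simp only [ofLex_toLex, sub_add_cancel]
      rfl)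

/-- the fibrewise automorphism -/
def fibA (A : ℕ → AutO ℚ) : AutO (ℤ ×ₗ ℚ) :=
  AutO.mk' (fun v => toLex ((ofLex v).1, AutO.act (A (ofLex v).1.natAbs) (ofLex v).2))
    (fun v => toLex ((ofLex v).1, AutO.act (A (ofLex v).1.natAbs)⁻¹ (ofLex v).2))
    (by
      intro v w h
      rw [Prod.Lex.lt_iff] at h ⊢
      rcases h with h | ⟨h1, h2⟩
      · left; exact h
      · right
        refine ⟨h1, ?_⟩
        change AutO.act (A (ofLex v).1.natAbs) (ofLex v).2 < AutO.act (A (ofLex w).1.natAbs) (ofLex w).2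
        rw [h1]
        exact (AutO.act_lt_iff _ _ _).2 h2)
    (by
      intro v
      simp only [ofLex_toLex, AutO.act_act_inv]
      rfl)

def pt0 (q : ℚ) : ℤ ×ₗ ℚ := toLex (0, q)

theorem pt0_lt (q q' : ℚ) : pt0 q < pt0 q' ↔ q < q' := by
  unfold pt0
  rw [Prod.Lex.lt_iff]
  simp

def repA (A : ℕ → AutO ℚ) : Rep (FL 2) (ℤ ×ₗ ℚ) := Rep.ofHom ![fibA A, shiftA]

theorem act_shift_pow (A : ℕ → AutO ℚ) (k : ℕ) (i : ℤ) (q : ℚ) :
    (repA A).act (FL.gen 1 ^ k) (toLex (i, q)) = toLex (i + k, q) := by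
  induction k with
  | zero => rw [pow_zero, Rep.act_one]; simp
  | succ k ih =>
    rw [pow_succ', Rep.act_mul, ih]
    change toLex (i + k + 1, q) = _
    push_cast
    rw [add_assoc]

theorem act_gam (A : ℕ → AutO ℚ) (k : ℕ) (q : ℚ) :
    (repA A).act (FDiag.gam k) (pt0 q) = pt0 (AutO.act (A k) q) := by
  unfold FDiag.gam
  have h1 : (repA A).act (FL.gen 1 ^ k)⁻¹ (pt0 q) = toLex (-(k : ℤ), q) := by
    apply (repA A).act_inj (FL.gen 1 ^ k)
    rw [Rep.act_act_inv, act_shift_pow]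
    simp [pt0]
  rw [Rep.act_mul, Rep.act_mul, h1]
  have h2 : (repA A).act (FL.gen 0) (toLex (-(k : ℤ), q)) = toLex (-(k : ℤ), AutO.act (A k) q) := by
    change toLex (-(k : ℤ), AutO.act (A (-(k : ℤ)).natAbs) q) = _
    simp
  rw [h2, act_shift_pow]
  simp [pt0]

theorem act_gam_inv (A : ℕ → AutO ℚ) (k : ℕ) (q : ℚ) :
    (repA A).act (FDiag.gam k)⁻¹ (pt0 q) = pt0 (AutO.act (A k)⁻¹ q) := by
  apply (repA A).act_inj (FDiag.gam k)
  rw [Rep.act_act_inv, act_gam, AutO.act_act_inv]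

theorem FDiag.exists_PP {ι : Type} (D : FDiag ι) :
    ∃ (Ω : Type) (_ : LinearOrder Ω) (R : Rep (FL 2) Ω) (v : Ω), D.PP R v := by
  classical
  let E : Finset ℕ := D.X.image D.e
  obtain ⟨N, hN⟩ : ∃ N : ℕ, ∀ l ∈ E, l < N :=
    ⟨E.sup id + 1, fun l hl => Nat.lt_succ_of_le (Finset.le_sup (f := id) hl)⟩
  let U : Finset ℤ := insert 0 ((E ×ˢ E).image fun p => uu N p.1 p.2)
  obtain ⟨Z, hZ⟩ := exists_aut_fun U zeta (fun u _ u' _ h => zeta_lt u u' h)
  have hG : ∀ k : ℕ, ∃ F : AutO ℚ, ∀ l ∈ E, AutO.act F (uu N k l : ℚ) = (l : ℚ) + 1 := fun k =>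
    exists_aut_fun2 E (uu N k) (fun l hl l' hl' h => uu_lt N k l l' (hN l hl) (hN l' hl') h)
  choose F hF using hG
  let A : ℕ → AutO ℚ := fun k => match k with
    | 0 => Z
    | k + 1 => F k
  have hE : ∀ x ∈ D.X, D.e x ∈ E := fun x hx => Finset.mem_image_of_mem _ hx
  have az : ∀ q, (repA A).act FDiag.zz (pt0 q) = pt0 (AutO.act Z q) := fun q => act_gam A 0 q
  have ag : ∀ x q, (repA A).act (D.g x) (pt0 q) = pt0 (AutO.act (F (D.e x)) q) := fun x q =>
    act_gam A (D.e x + 1) q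
  have agi : ∀ x q, (repA A).act (D.g x)⁻¹ (pt0 q) = pt0 (AutO.act (F (D.e x))⁻¹ q) := fun x q =>
    act_gam_inv A (D.e x + 1) q
  have g0 : ∀ x ∈ D.X, (repA A).act (D.g x) (pt0 0) = pt0 ((D.e x : ℚ) + 1) := by
    intro x hx
    rw [ag]
    have := hF (D.e x) (D.e x) (hE x hx)
    have e : uu N (D.e x) (D.e x) = 0 := by unfold uu; simp
    rw [e] at this
    rw [← this]; simp
  have gi : ∀ x ∈ D.X, ∀ y ∈ D.X, (repA A).act (D.g y)⁻¹ (pt0 ((D.e x : ℚ) + 1)) =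
      pt0 ((uu N (D.e y) (D.e x) : ℤ) : ℚ) := by
    intro x hx y hy
    rw [agi, ← hF (D.e y) (D.e x) (hE x hx), AutO.act_inv_act]
  refine ⟨ℤ ×ₗ ℚ, inferInstance, repA A, pt0 0, ?_, ?_, ?_, ?_⟩
  · rw [az, pt0_lt]
    have := hZ 0 (Finset.mem_insert_self _ _)
    simp only [Int.cast_zero] at this
    rw [this]; unfold zeta; norm_num
  · intro x hx y hy hxy
    rw [g0 x hx, gi x hx y hy, az, pt0_lt]
    have hmem : uu N (D.e y) (D.e x) ∈ U :=
      Finset.mem_insert_of_mem (Finset.mem_image.2 ⟨(D.e y, D.e x),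
        Finset.mem_product.2 ⟨hE y hy, hE x hx⟩, rfl⟩)
    have hne : uu N (D.e y) (D.e x) ≠ 0 :=
      uu_ne N _ _ (hN _ (hE x hx)) (fun h => hxy (D.e_inj x hx y hy h))
    rw [hZ _ hmem]
    unfold zeta
    rw [if_neg hne]
    linarith
  · intro a x y h
    obtain ⟨hx, hy⟩ := D.dom a x y h
    rw [g0 x hx, g0 y hy, pt0_lt]
    have := D.up a x y h
    exact_mod_cast Nat.succ_lt_succ this
  · intro a x y x' y' h h' hne
    obtain ⟨hx, hy⟩ := D.dom a x y h
    obtain ⟨hx', hy'⟩ := D.dom a x' y' h'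
    rw [g0 x hx, gi x hx x' hx', g0 y hy]
    have e : pt0 ((D.e y : ℚ) + 1) = (repA A).act (D.g y') (pt0 ((uu N (D.e y') (D.e y) : ℤ) : ℚ)) := by
      rw [ag, hF (D.e y') (D.e y) (hE y hy)]
    rw [e, Rep.act_lt_iff, pt0_lt]
    have hne' : D.e x ≠ D.e x' := fun h => hne (D.e_inj x hx x' hx' h)
    have u1 := D.up a x y h
    have n1 := hN _ (hE x hx)
    have n2 := hN _ (hE y hy)
    have : uu N (D.e x') (D.e x) < uu N (D.e y') (D.e y) := by
      rcases Nat.lt_or_gt_of_ne hne' with hlt | hlt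
      · have := D.mono a x y x' y' h h' hlt
        unfold uu
        split_ifs <;> omega
      · have := D.mono a x' y' x y h' h hlt
        unfold uu
        split_ifs <;> omega
    exact_mod_cast this

/-- the label of the starting point is not below the identity -/
theorem FDiag.labE_not_le {ι : Type} (D : FDiag ι) (A : ι → Prop) (x : ι) (hx : x ∈ D.X) (hA : A x) :
    ¬ D.labE A ≤ 1 := by
  intro hle
  obtain ⟨Ω, _, R, v, hv⟩ := D.exists_PP
  have h1 := R.act_mono_left hle (R.act (D.g x) v)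
  rw [R.act_one, D.labE_in R hv hx A hA, R.act_le_iff] at h1
  exact absurd ((D.lt_bet_iff R v).2 hv) (not_lt.2 h1)

end Pool.Agent.Work.MP_3a2c1d_lc
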