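import Mathlib

set_option autoImplicit false
set_option linter.all false

namespace Pool.Agent.Work.MP_3a2c1d_lc

open FreeGroup

section

variable {α : Type} [DecidableEq α]

/-- last `k` letters of the reduced word, in reverse order -/
def suf (k : ℕ) (f : FreeGroup α) : List (α × Bool) := f.toWord.reverse.take k

theorem suf_letter (k : ℕ) (a : α × Bool) (f : FreeGroup α) (h : k + 1 ≤ f.norm) :
    suf k (FreeGroup.mk [a] * f) = suf k f ∧ f.norm ≤ (FreeGroup.mk [a] * f).norm + 1 := by
  have h1 : (FreeGroup.mk [a] * f).toWord = reduce (a :: f.toWord) := by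
    conv_lhs => rw [← FreeGroup.mk_toWord (x := f)]
    rw [FreeGroup.mul_mk, toWord_mk]
    rfl
  rw [reduce.cons, reduce_toWord] at h1
  unfold suf FreeGroup.norm at *
  rw [h1]
  cases hw : f.toWord with
  | nil => rw [hw] at h; simp at h
  | cons hd tl =>
    rw [hw] at h
    simp only [List.length_cons] at h
    dsimp only
    split_ifs with hc
    · constructor
      · rw [List.reverse_cons, List.take_append_of_le_length]
        simp; omega
      · simp
    · constructor
      · rw [List.reverse_cons, List.take_append_of_le_length]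
        simp; omega
      · simp

theorem suf_word (k : ℕ) (l : List (α × Bool)) (f : FreeGroup α) (h : k + l.length ≤ f.norm) :
    suf k (FreeGroup.mk l * f) = suf k f ∧ f.norm ≤ (FreeGroup.mk l * f).norm + l.length := by
  induction l with
  | nil =>
    rw [← FreeGroup.one_eq_mk, one_mul]
    simp
  | cons a l ih =>
    simp only [List.length_cons] at h ⊢
    have ih' := ih (by omega)
    have e : FreeGroup.mk (a :: l) * f = FreeGroup.mk [a] * (FreeGroup.mk l * f) := by
      rw [← mul_assoc, FreeGroup.mul_mk]; rfl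
    have h2 := suf_letter k a (FreeGroup.mk l * f) (by omega)
    rw [e]
    exact ⟨h2.1.trans ih'.1, by omega⟩

theorem suf_mul (k L : ℕ) (w f : FreeGroup α) (hw : w.norm ≤ L) (h : k + L ≤ f.norm) :
    suf k (w * f) = suf k f := by
  have := suf_word k w.toWord f (by unfold FreeGroup.norm at *; omega)
  rw [FreeGroup.mk_toWord] at this
  exact this.1

theorem suf_length (k : ℕ) (f : FreeGroup α) : (suf k f).length = min k f.norm := by
  unfold suf FreeGroup.norm
  simp

theorem no_quadrant [Finite α] (f : ℕ → ℕ → FreeGroup α)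
    (hinj : ∀ a b c d, f a b = f c d → a = c ∧ b = d)
    (L : ℕ)
    (h1 : ∀ r a, ∃ w : FreeGroup α, w.norm ≤ L ∧ f r (a + 1) = w * f r a)
    (h2 : ∀ r a, ∃ w : FreeGroup α, w.norm ≤ L ∧ f (r + 1) a = w * f r a) : False := by
  classical
  have ball : ∀ N : ℕ, {g : FreeGroup α | g.norm < N}.Finite := by
    intro N
    have := List.finite_length_lt (α × Bool) N
    refine Set.Finite.of_finite_image (f := FreeGroup.toWord) (this.subset ?_) ?_
    · rintro _ ⟨g, hg, rfl⟩
      exact hg
    · exact FreeGroup.toWord_injective.injOn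
  -- far away points have long words
  have far : ∀ N : ℕ, ∃ K : ℕ, ∀ r a, (K ≤ r ∨ K ≤ a) → N ≤ (f r a).norm := by
    intro N
    have hfin : {p : ℕ × ℕ | (f p.1 p.2).norm < N}.Finite := by
      refine Set.Finite.of_finite_image (f := fun p : ℕ × ℕ => f p.1 p.2) ((ball N).subset ?_) ?_
      · rintro _ ⟨g, hg, rfl⟩
        exact hg
      · rintro ⟨a, b⟩ _ ⟨c, d⟩ _ hp
        obtain ⟨rfl, rfl⟩ := hinj _ _ _ _ hp
        rfl
    obtain ⟨M, hM⟩ := (hfin.image (fun p : ℕ × ℕ => p.1 + p.2)).bddAbove
    refine ⟨M + 1, fun r a hra => ?_⟩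
    by_contra hlt
    push Not at hlt
    have := hM ⟨(r, a), hlt, rfl⟩
    simp only at this
    omega
  let NL : ℕ := (List.finite_length_lt (α × Bool) L).toFinset.card
  -- choose k larger than the norms of the starting points
  obtain ⟨k, hk⟩ : ∃ k : ℕ, ∀ r ≤ NL, (f r 0).norm < k := by
    refine ⟨(Finset.range (NL + 1)).sup (fun r => (f r 0).norm) + 1, fun r hr => ?_⟩
    exact Nat.lt_succ_of_le (Finset.le_sup (f := fun r => (f r 0).norm) (Finset.mem_range.2 (by omega)))
  obtain ⟨K, hK⟩ := far (k + L)
  have st1 : ∀ r a, (K ≤ r ∨ K ≤ a) → suf k (f r (a + 1)) = suf k (f r a) := by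
    intro r a hra
    obtain ⟨w, hw, e⟩ := h1 r a
    rw [e]
    exact suf_mul k L w _ hw (hK r a hra)
  have st2 : ∀ r a, (K ≤ r ∨ K ≤ a) → suf k (f (r + 1) a) = suf k (f r a) := by
    intro r a hra
    obtain ⟨w, hw, e⟩ := h2 r a
    rw [e]
    exact suf_mul k L w _ hw (hK r a hra)
  have m1 : ∀ r a, K ≤ r → suf k (f r a) = suf k (f r 0) := by
    intro r a hr
    induction a with
    | zero => rfl
    | succ a ih => rw [st1 r a (Or.inl hr), ih]
  have m2 : ∀ r a, K ≤ a → suf k (f r a) = suf k (f 0 a) := by
    intro r a ha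
    induction r with
    | zero => rfl
    | succ r ih => rw [st2 r a (Or.inr ha), ih]
  set π := suf k (f K K) with hπ
  have c1 : ∀ r a, K ≤ r → suf k (f r a) = π := by
    intro r a hr
    rw [m1 r a hr, ← m1 r K hr, m2 r K le_rfl, hπ, m2 K K le_rfl]
  have c2 : ∀ r a, K ≤ a → suf k (f r a) = π := by
    intro r a ha
    rw [m2 r a ha, ← m2 K a ha, c1 K a le_rfl]
  have lenπ : π.length = k := by
    rw [hπ, suf_length]
    have := hK K K (Or.inl le_rfl)
    omega
  -- crossing points
  have cross : ∀ r ≤ NL, ∃ a, suf k (f r a) = π ∧ (f r a).norm < k + L := by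
    intro r hr
    have hex : ∃ a, suf k (f r a) = π := ⟨K, c2 r K le_rfl⟩
    let a := Nat.find hex
    have ha : suf k (f r a) = π := Nat.find_spec hex
    have hmin : ∀ b < a, suf k (f r b) ≠ π := fun b hb => Nat.find_min hex hb
    have ha0 : a ≠ 0 := by
      intro h0
      have hlen := congrArg List.length ha
      rw [h0, suf_length, lenπ] at hlen
      have := hk r hr
      omega
    obtain ⟨b, hb⟩ := Nat.exists_eq_succ_of_ne_zero ha0
    refine ⟨a, ha, ?_⟩
    by_contra hlt
    push Not at hlt
    apply hmin b (by omega)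
    obtain ⟨w, hw, e⟩ := h1 r b
    have e' : f r b = w⁻¹ * f r a := by
      rw [hb, Nat.succ_eq_add_one, e]; group
    rw [e', suf_mul k L w⁻¹ _ (by rw [norm_inv_eq]; exact hw) hlt, ha]
  choose! A hA1 hA2 using cross
  -- the rest of the word
  let rest : ℕ → List (α × Bool) := fun r => (f r (A r)).toWord.reverse.drop k
  have hrest : ∀ r ≤ NL, (f r (A r)).toWord.reverse = π ++ rest r := by
    intro r hr
    rw [← hA1 r hr]
    exact (List.take_append_drop k _).symm
  have hlen : ∀ r ∈ Finset.range (NL + 1), rest r ∈ (List.finite_length_lt (α × Bool) L).toFinset := by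
    intro r hr
    rw [Set.Finite.mem_toFinset]
    have hr' : r ≤ NL := by have := Finset.mem_range.1 hr; omega
    have h3 := hA2 r hr'
    have h4 := congrArg List.length (hrest r hr')
    rw [List.length_reverse, List.length_append, lenπ] at h4
    unfold FreeGroup.norm at h3
    change (rest r).length < L
    omega
  have hcard : (List.finite_length_lt (α × Bool) L).toFinset.card < (Finset.range (NL + 1)).card := by
    rw [Finset.card_range]
    exact Nat.lt_succ_self _
  obtain ⟨x, hx, y, hy, hxy, heq⟩ := Finset.exists_ne_map_eq_of_card_lt_of_maps_to hcard hlen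
  have hx' : x ≤ NL := by have := Finset.mem_range.1 hx; omega
  have hy' : y ≤ NL := by have := Finset.mem_range.1 hy; omega
  have e3 : (f x (A x)).toWord.reverse = (f y (A y)).toWord.reverse := by
    rw [hrest x hx', hrest y hy', heq]
  have e4 : f x (A x) = f y (A y) := toWord_injective (List.reverse_injective e3)
  exact hxy (hinj _ _ _ _ e4).1

end

end Pool.Agent.Work.MP_3a2c1d_lc
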