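import Pool.Agent.Work.MP_3a2c1d_lc.Clause

set_option autoImplicit false
set_option linter.all false

namespace Pool.Agent.Work.MP_3a2c1d_lc

open Helper86

/-! ### finite joins and meets in representations -/

section

variable {G : Type} [Group G] [Lattice G] {Ω : Type} [LinearOrder Ω] (R : Rep G Ω)

theorem lt_act_linf (l : List G) (a : G) (v : Ω) :
    v < R.act (l.foldr (· ⊓ ·) a) v ↔ v < R.act a v ∧ ∀ w ∈ l, v < R.act w v := by
  induction l with
  | nil => simp
  | cons b l ih =>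
    rw [List.foldr_cons, R.act_inf, lt_min_iff, ih]
    simp only [List.mem_cons, forall_eq_or_imp]
    tauto

theorem act_lsup_le (l : List G) (v u : Ω) :
    R.act (l.foldr (· ⊔ ·) 1) v ≤ u ↔ v ≤ u ∧ ∀ w ∈ l, R.act w v ≤ u := by
  induction l with
  | nil => simp [R.act_one]
  | cons b l ih =>
    rw [List.foldr_cons, R.act_sup, max_le_iff, ih]
    simp only [List.mem_cons, forall_eq_or_imp]
    tauto

theorem le_act_lsup (l : List G) (v : Ω) : v ≤ R.act (l.foldr (· ⊔ ·) 1) v :=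
  ((act_lsup_le R l v _).1 le_rfl).1

theorem le_act_lsup_of_mem (l : List G) (v : Ω) (w : G) (hw : w ∈ l) :
    R.act w v ≤ R.act (l.foldr (· ⊔ ·) 1) v :=
  ((act_lsup_le R l v _).1 le_rfl).2 w hw

theorem act_lsup_eq (l : List G) (v u : Ω) (h1 : v ≤ u) (h2 : ∀ w ∈ l, R.act w v ≤ u)
    (h3 : ∃ w ∈ l, R.act w v = u) : R.act (l.foldr (· ⊔ ·) 1) v = u := by
  apply le_antisymm
  · exact (act_lsup_le R l v u).2 ⟨h1, h2⟩
  · obtain ⟨w, hw, rfl⟩ := h3
    exact le_act_lsup_of_mem R l v w hw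

theorem act_lsup_fix (l : List G) (v : Ω) (h2 : ∀ w ∈ l, R.act w v = v) :
    R.act (l.foldr (· ⊔ ·) 1) v = v := by
  apply le_antisymm
  · exact (act_lsup_le R l v v).2 ⟨le_rfl, fun w hw => (h2 w hw).le⟩
  · exact le_act_lsup R l v

end

/-- a finite diagram with partially defined moves -/
structure FDiag (ι : Type) where
  X : Finset ι
  e : ι → ℕ
  e_inj : ∀ x ∈ X, ∀ y ∈ X, e x = e y → x = y
  τ : Mv → ι → Option ι
  dom : ∀ a x y, τ a x = some y → x ∈ X ∧ y ∈ X
  up : ∀ a x y, τ a x = some y → e x < e y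
  mono : ∀ a x y x' y', τ a x = some y → τ a x' = some y' → e x < e x' → e y < e y'

namespace FDiag

variable {ι : Type} (D : FDiag ι)

/-- the elements `γ_k` of the free lattice-ordered group on two generators -/
def gam (k : ℕ) : FL 2 := FL.gen 1 ^ k * FL.gen 0 * (FL.gen 1 ^ k)⁻¹

def g (x : ι) : FL 2 := gam (D.e x + 1)

def zz : FL 2 := gam 0

open Classical in
/-- pairs `(x, y)` with `y = τ a x` -/
noncomputable def edges (a : Mv) : List (ι × ι) :=
  (D.X.toList.flatMap fun x => D.X.toList.map fun y => (x, y)).filter fun p => D.τ a p.1 = some p.2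

theorem mem_edges (a : Mv) (p : ι × ι) : p ∈ D.edges a ↔ D.τ a p.1 = some p.2 := by
  unfold edges
  simp only [List.mem_filter, List.mem_flatMap, List.mem_map, Finset.mem_toList, decide_eq_true_eq]
  constructor
  · exact fun h => h.2
  · intro h
    refine ⟨⟨p.1, (D.dom a _ _ h).1, p.2, (D.dom a _ _ h).2, rfl⟩, h⟩

/-- the element realizing the move `a` -/
noncomputable def mvE (a : Mv) : FL 2 :=
  ((D.edges a).map fun p => D.g p.2 * (D.g p.1)⁻¹).foldr (· ⊔ ·) 1

open Classical in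
noncomputable def w1 : List (FL 2) :=
  ((D.X.toList.flatMap fun x => D.X.toList.map fun y => (x, y)).filter fun p => p.1 ≠ p.2).map
    fun p => ((D.g p.1)⁻¹ * D.g p.2) * zz⁻¹ * ((D.g p.2)⁻¹ * D.g p.1)

noncomputable def w2 (a : Mv) : List (FL 2) :=
  (D.edges a).map fun p => (D.g p.1)⁻¹ * D.g p.2

open Classical in
noncomputable def w3 (a : Mv) : List (FL 2) :=
  (((D.edges a).flatMap fun p => (D.edges a).map fun p' => (p, p')).filter
    fun s => s.1.1 ≠ s.2.1).map
    fun s => (D.g s.2.2 * (D.g s.2.1)⁻¹ * D.g s.1.1)⁻¹ * D.g s.1.2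

noncomputable def bet : FL 2 :=
  ((D.w1 ++ (D.w2 Mv.T ++ D.w2 Mv.H) ++ (D.w3 Mv.T ++ D.w3 Mv.H)).foldr (· ⊓ ·) zz) ⊔ 1

/-- the support condition of the bump -/
structure PP {Ω : Type} [LinearOrder Ω] (R : Rep (FL 2) Ω) (v : Ω) : Prop where
  hz : v < R.act zz v
  h1 : ∀ x ∈ D.X, ∀ y ∈ D.X, x ≠ y →
    R.act zz (R.act (D.g y)⁻¹ (R.act (D.g x) v)) < R.act (D.g y)⁻¹ (R.act (D.g x) v)
  h2 : ∀ a x y, D.τ a x = some y → R.act (D.g x) v < R.act (D.g y) v
  h3 : ∀ a x y x' y', D.τ a x = some y → D.τ a x' = some y' → x ≠ x' →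
    R.act (D.g y') (R.act (D.g x')⁻¹ (R.act (D.g x) v)) < R.act (D.g y) v

theorem lt_bet_iff {Ω : Type} [LinearOrder Ω] (R : Rep (FL 2) Ω) (v : Ω) :
    v < R.act D.bet v ↔ D.PP R v := by
  have e1 : ∀ x y, v < R.act (((D.g x)⁻¹ * D.g y) * zz⁻¹ * ((D.g y)⁻¹ * D.g x)) v ↔
      R.act zz (R.act (D.g y)⁻¹ (R.act (D.g x) v)) < R.act (D.g y)⁻¹ (R.act (D.g x) v) := by
    intro x y
    simp only [R.act_mul]
    rw [← R.act_lt_iff (D.g x), R.act_act_inv, ← R.act_lt_iff (D.g y)⁻¹, R.act_inv_act,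
      ← R.act_lt_iff zz, R.act_act_inv]
  have e2 : ∀ x y, v < R.act ((D.g x)⁻¹ * D.g y) v ↔ R.act (D.g x) v < R.act (D.g y) v := by
    intro x y
    simp only [R.act_mul]
    rw [← R.act_lt_iff (D.g x), R.act_act_inv]
  have e3 : ∀ x y x' y', v < R.act ((D.g y' * (D.g x')⁻¹ * D.g x)⁻¹ * D.g y) v ↔
      R.act (D.g y') (R.act (D.g x')⁻¹ (R.act (D.g x) v)) < R.act (D.g y) v := by
    intro x y x' y'
    rw [R.act_mul, ← R.act_lt_iff (D.g y' * (D.g x')⁻¹ * D.g x), R.act_act_inv]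
    simp only [R.act_mul]
  unfold bet
  rw [R.act_sup, R.act_one, lt_max_iff, lt_act_linf]
  simp only [lt_irrefl, or_false, List.mem_append]
  constructor
  · rintro ⟨hz, hw⟩
    refine ⟨hz, ?_, ?_, ?_⟩
    · intro x hx y hy hxy
      rw [← e1]
      apply hw
      left; left
      unfold w1
      simp only [List.mem_map, List.mem_filter, List.mem_flatMap, Finset.mem_toList]
      exact ⟨(x, y), ⟨⟨x, hx, y, hy, rfl⟩, by simpa using hxy⟩, rfl⟩
    · intro a x y h
      rw [← e2]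
      apply hw
      left; right
      cases a
      · left; unfold w2; exact List.mem_map.2 ⟨(x, y), (D.mem_edges _ _).2 h, rfl⟩
      · right; unfold w2; exact List.mem_map.2 ⟨(x, y), (D.mem_edges _ _).2 h, rfl⟩
    · intro a x y x' y' h h' hne
      rw [← e3]
      apply hw
      right
      have : (D.g y' * (D.g x')⁻¹ * D.g x)⁻¹ * D.g y ∈ D.w3 a := by
        unfold w3
        simp only [List.mem_map, List.mem_filter, List.mem_flatMap]
        exact ⟨((x, y), (x', y')), ⟨⟨(x, y), (D.mem_edges _ _).2 h, (x', y'),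
          (D.mem_edges _ _).2 h', rfl⟩, by simpa using hne⟩, rfl⟩
      cases a
      · left; exact this
      · right; exact this
  · rintro ⟨hz, h1, h2, h3⟩
    refine ⟨hz, ?_⟩
    rintro w ((hw | hw) | hw)
    · unfold w1 at hw
      simp only [List.mem_map, List.mem_filter, List.mem_flatMap, Finset.mem_toList] at hw
      obtain ⟨_, ⟨⟨x, hx, y, hy, rfl⟩, hne⟩, rfl⟩ := hw
      rw [e1]
      exact h1 x hx y hy (by simpa using hne)
    · rcases hw with hw | hw <;>
      · unfold w2 at hw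
        obtain ⟨p, hp, rfl⟩ := List.mem_map.1 hw
        rw [e2]
        exact h2 _ _ _ ((D.mem_edges _ _).1 hp)
    · rcases hw with hw | hw <;>
      · unfold w3 at hw
        simp only [List.mem_map, List.mem_filter, List.mem_flatMap] at hw
        obtain ⟨_, ⟨⟨p, hp, p', hp', rfl⟩, hne⟩, rfl⟩ := hw
        rw [e3]
        exact h3 _ _ _ _ _ ((D.mem_edges _ _).1 hp) ((D.mem_edges _ _).1 hp') (by simpa using hne)

theorem one_le_bet : (1 : FL 2) ≤ D.bet := le_sup_right

section pointwise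

variable {Ω : Type} [LinearOrder Ω] (R : Rep (FL 2) Ω)

theorem PP_bet {v : Ω} (h : D.PP R v) : D.PP R (R.act D.bet v) := by
  rw [← lt_bet_iff] at h ⊢
  exact (R.act_lt_iff _ _ _).2 h

theorem bet_fix {v : Ω} (h : ¬ D.PP R v) : R.act D.bet v = v := by
  rw [← lt_bet_iff] at h
  apply le_antisymm (not_lt.1 h)
  have := R.act_mono_left D.one_le_bet v
  rwa [R.act_one] at this

/-- the moves act correctly on the supports -/
theorem act_mvE {v : Ω} (h : D.PP R v) (a : Mv) (x y : ι) (hxy : D.τ a x = some y) :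
    R.act (D.mvE a) (R.act (D.g x) v) = R.act (D.g y) v := by
  classical
  unfold mvE
  apply act_lsup_eq
  · exact (h.h2 a x y hxy).le
  · intro w hw
    obtain ⟨p, hp, rfl⟩ := List.mem_map.1 hw
    have hp' := (D.mem_edges _ _).1 hp
    rw [R.act_mul]
    by_cases hx : x = p.1
    · have : y = p.2 := by
        rw [← hx, hxy] at hp'
        exact Option.some_inj.1 hp'
      rw [← hx, ← this, R.act_inv_act]
    · exact (h.h3 a x y p.1 p.2 hxy hp' hx).le
  · refine ⟨_, List.mem_map.2 ⟨(x, y), (D.mem_edges _ _).2 hxy, rfl⟩, ?_⟩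
    rw [R.act_mul, R.act_inv_act]

theorem act_mvE_inv {v : Ω} (h : D.PP R v) (a : Mv) (x y : ι) (hxy : D.τ a x = some y) :
    R.act (D.mvE a)⁻¹ (R.act (D.g y) v) = R.act (D.g x) v := by
  rw [← D.act_mvE R h a x y hxy, R.act_inv_act]

/-- the element attached to a set of points -/
noncomputable def labE (A : ι → Prop) : FL 2 :=
  letI := Classical.decPred A
  ((D.X.toList.filter fun x => A x).map fun x => D.g x * D.bet * (D.g x)⁻¹).foldr (· ⊔ ·) 1

theorem le_labE (A : ι → Prop) (u : Ω) : u ≤ R.act (D.labE A) u := le_act_lsup R _ u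

theorem labE_out (A : ι → Prop) (u : Ω)
    (h : ∀ x ∈ D.X, A x → ¬ D.PP R (R.act (D.g x)⁻¹ u)) : R.act (D.labE A) u = u := by
  classical
  apply act_lsup_fix
  intro w hw
  obtain ⟨x, hx, rfl⟩ := List.mem_map.1 hw
  simp only [List.mem_filter, Finset.mem_toList, decide_eq_true_eq] at hx
  rw [R.act_mul, R.act_mul, D.bet_fix R (h x hx.1 hx.2), R.act_act_inv]

theorem disj {v : Ω} (h : D.PP R v) {x y : ι} (hx : x ∈ D.X) (hy : y ∈ D.X) (hxy : x ≠ y) :
    ¬ D.PP R (R.act (D.g y)⁻¹ (R.act (D.g x) v)) :=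
  fun h' => lt_irrefl _ (h'.hz.trans (h.h1 x hx y hy hxy))

theorem labE_not {v : Ω} (h : D.PP R v) {x : ι} (hx : x ∈ D.X) (A : ι → Prop) (hA : ¬ A x) :
    R.act (D.labE A) (R.act (D.g x) v) = R.act (D.g x) v := by
  apply labE_out
  intro y hy hAy
  refine D.disj R h hx hy ?_
  rintro rfl
  exact hA hAy

theorem labE_in {v : Ω} (h : D.PP R v) {x : ι} (hx : x ∈ D.X) (A : ι → Prop) (hA : A x) :
    R.act (D.labE A) (R.act (D.g x) v) = R.act (D.g x) (R.act D.bet v) := by
  classical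
  have hb : v < R.act D.bet v := (D.lt_bet_iff R v).2 h
  apply act_lsup_eq
  · exact ((R.act_lt_iff _ _ _).2 hb).le
  · intro w hw
    obtain ⟨y, hy, rfl⟩ := List.mem_map.1 hw
    simp only [List.mem_filter, Finset.mem_toList, decide_eq_true_eq] at hy
    rw [R.act_mul, R.act_mul]
    by_cases hxy : x = y
    · rw [← hxy, R.act_inv_act]
    · rw [D.bet_fix R (D.disj R h hx hy.1 hxy), R.act_act_inv]
      exact ((R.act_lt_iff _ _ _).2 hb).le
  · refine ⟨D.g x * D.bet * (D.g x)⁻¹, List.mem_map.2 ⟨x, ?_, rfl⟩, ?_⟩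
    · simp only [List.mem_filter, Finset.mem_toList, decide_eq_true_eq]
      exact ⟨hx, hA⟩
    · rw [R.act_mul, R.act_mul, R.act_inv_act]

end pointwise

/-- one combinatorial step -/
def cstep (a : Mv × Bool) (x y : ι) : Prop :=
  if a.2 then D.τ a.1 x = some y else D.τ a.1 y = some x

/-- combinatorial walks -/
def CW : List (Mv × Bool) → ι → ι → Prop
  | [], x, y => x = y
  | a :: w, x, y => ∃ x', CW w x x' ∧ D.cstep a x' y

/-- combinatorial satisfaction -/
def csat {M : CM} (lab : Pd M → ι → Prop) : Con M → Prop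
  | Con.imp Ps w Cs => ∀ x ∈ D.X, (∀ P ∈ Ps, lab P x) →
      ∃ x' ∈ D.X, D.CW w x x' ∧ ∃ C ∈ Cs, lab C x'
  | Con.eq Ps w w' => ∀ x ∈ D.X, (∀ P ∈ Ps, lab P x) →
      ∃ x' ∈ D.X, D.CW w x x' ∧ D.CW w' x x'

/-- the assignment -/
noncomputable def asg {M : CM} (lab : Pd M → ι → Prop) : Var M → FL 2
  | Var.mv a => D.mvE a
  | Var.pd P => D.labE (lab P)

section seqs

variable {M : CM} (lab : Pd M → ι → Prop) {Ω : Type} [LinearOrder Ω] (R : Rep (FL 2) Ω)

theorem act_walk {v : Ω} (h : D.PP R v) (w : List (Mv × Bool)) : ∀ x y : ι, D.CW w x y →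
    R.act (vv (D.asg lab) (mvw w)) (R.act (D.g x) v) = R.act (D.g y) v := by
  induction w with
  | nil =>
    intro x y hxy
    have hxy' : x = y := hxy
    subst hxy'
    unfold mvw
    rw [List.map_nil, vv_nil, R.act_one]
  | cons a w ih =>
    obtain ⟨m, b⟩ := a
    rintro x y ⟨x', h1, h2⟩
    have e : (mvw ((m, b) :: w) : List (Var M × Bool)) = (Var.mv m, b) :: mvw w := rfl
    rw [e, vv_cons, R.act_mul, ih x x' h1]
    cases b with
    | true =>
      rw [vv_single_true]
      exact D.act_mvE R h m x' y h2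
    | false =>
      rw [vv_single_false]
      exact D.act_mvE_inv R h m y x' h2

theorem seqs_hold (c : Con M) (hc : c.prem ≠ []) (hs : D.csat lab c) :
    ∀ p ∈ seqs c, ∀ u : Ω, ∃ A ∈ p.1, ∃ C ∈ p.2,
      R.act (vv (D.asg lab) A) u ≤ R.act (vv (D.asg lab) C) u := by
  classical
  -- dichotomy for the point `u`
  have dich : ∀ u : Ω, (∃ x ∈ D.X, ∃ v, D.PP R v ∧ u = R.act (D.g x) v) ∨
      (∀ A : ι → Prop, R.act (D.labE A) u = u) := by
    intro u
    by_cases hu : ∃ x ∈ D.X, D.PP R (R.act (D.g x)⁻¹ u)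
    · obtain ⟨x, hx, hv⟩ := hu
      left
      exact ⟨x, hx, _, hv, by rw [R.act_act_inv]⟩
    · right
      push Not at hu
      intro A
      exact D.labE_out R A u (fun x hx _ => hu x hx)
  have evp : ∀ P : Pd M, vv (D.asg lab) (pw P) = D.labE (lab P) := by
    intro P; rw [pw, vv_single_true]; rfl
  cases c with
  | imp Ps w Cs =>
    simp only [Con.prem] at hc
    obtain ⟨P0, hP0⟩ := List.exists_mem_of_ne_nil Ps hc
    cases Cs with
    | nil =>
      intro p hp u
      rw [seqs, List.mem_singleton] at hp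
      subst hp
      rcases dich u with ⟨x, hx, v, hv, rfl⟩ | hfix
      · have : ∃ P ∈ Ps, ¬ lab P x := by
          by_contra hcon
          push Not at hcon
          obtain ⟨x', _, _, C, hC, _⟩ := hs x hx hcon
          simp at hC
        obtain ⟨P, hP, hn⟩ := this
        refine ⟨pw P, List.mem_map.2 ⟨P, hP, rfl⟩, [], by simp, ?_⟩
        rw [evp, vv_nil, R.act_one, D.labE_not R hv hx _ hn]
      · refine ⟨pw P0, List.mem_map.2 ⟨P0, hP0, rfl⟩, [], by simp, ?_⟩
        rw [evp, vv_nil, R.act_one, hfix]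
    | cons C0 Cs =>
      intro p hp u
      rw [seqs, List.mem_singleton] at hp
      subst hp
      have evc : ∀ (C : Pd M) (u : Ω),
          R.act (vv (D.asg lab) (FreeGroup.invRev (mvw w) ++ pw C ++ mvw w)) u
          = R.act (vv (D.asg lab) (mvw w))⁻¹ (R.act (D.labE (lab C))
            (R.act (vv (D.asg lab) (mvw w)) u)) := by
        intro C u
        rw [vv_append, vv_append, vv_invRev, evp, R.act_mul, R.act_mul]
      have pos : ∀ (C : Pd M) (u : Ω),
          u ≤ R.act (vv (D.asg lab) (FreeGroup.invRev (mvw w) ++ pw C ++ mvw w)) u := by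
        intro C u
        rw [evc]
        have h1 := D.le_labE R (lab C) (R.act (vv (D.asg lab) (mvw w)) u)
        have h2 := (R.act_le_iff (vv (D.asg lab) (mvw w))⁻¹ _ _).2 h1
        rwa [R.act_inv_act] at h2
      rcases dich u with ⟨x, hx, v, hv, rfl⟩ | hfix
      · by_cases hall : ∀ P ∈ Ps, lab P x
        · obtain ⟨x', hx', hcw, C, hC, hlab⟩ := hs x hx hall
          refine ⟨pw P0, List.mem_map.2 ⟨P0, hP0, rfl⟩, _, List.mem_map.2 ⟨C, hC, rfl⟩, ?_⟩
          rw [evp, evc, D.labE_in R hv hx _ (hall P0 hP0), D.act_walk lab R hv w x x' hcw,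
            D.labE_in R hv hx' _ hlab, ← D.act_walk lab R (D.PP_bet R hv) w x x' hcw,
            R.act_inv_act]
        · push Not at hall
          obtain ⟨P, hP, hn⟩ := hall
          refine ⟨pw P, List.mem_map.2 ⟨P, hP, rfl⟩, _, List.mem_map.2 ⟨C0, by simp, rfl⟩, ?_⟩
          rw [evp, D.labE_not R hv hx _ hn]
          exact pos C0 _
      · refine ⟨pw P0, List.mem_map.2 ⟨P0, hP0, rfl⟩, _, List.mem_map.2 ⟨C0, by simp, rfl⟩, ?_⟩
        rw [evp, hfix]
        exact pos C0 _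
  | eq Ps w w' =>
    simp only [Con.prem] at hc
    obtain ⟨P0, hP0⟩ := List.exists_mem_of_ne_nil Ps hc
    have aux : ∀ (w w' : List (Mv × Bool)),
        (∀ x ∈ D.X, (∀ P ∈ Ps, lab P x) → ∃ x' ∈ D.X, D.CW w x x' ∧ D.CW w' x x') →
        ∀ u : Ω, ∃ A ∈ Ps.map pw ++ [FreeGroup.invRev (mvw w') ++ mvw w],
          ∃ C ∈ ([[]] : List (List (Var M × Bool))),
          R.act (vv (D.asg lab) A) u ≤ R.act (vv (D.asg lab) C) u := by
      intro w w' hs u
      rcases dich u with ⟨x, hx, v, hv, rfl⟩ | hfix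
      · by_cases hall : ∀ P ∈ Ps, lab P x
        · obtain ⟨x', hx', hcw, hcw'⟩ := hs x hx hall
          refine ⟨FreeGroup.invRev (mvw w') ++ mvw w, List.mem_append_right _ (by simp),
            [], by simp, ?_⟩
          rw [vv_append, vv_invRev, R.act_mul, D.act_walk lab R hv w x x' hcw,
            ← D.act_walk lab R hv w' x x' hcw', R.act_inv_act, vv_nil, R.act_one]
        · push Not at hall
          obtain ⟨P, hP, hn⟩ := hall
          refine ⟨pw P, List.mem_append_left _ (List.mem_map.2 ⟨P, hP, rfl⟩), [], by simp, ?_⟩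
          rw [evp, D.labE_not R hv hx _ hn, vv_nil, R.act_one]
      · refine ⟨pw P0, List.mem_append_left _ (List.mem_map.2 ⟨P0, hP0, rfl⟩), [], by simp, ?_⟩
        rw [evp, hfix, vv_nil, R.act_one]
    intro p hp u
    rw [seqs, List.mem_cons, List.mem_singleton] at hp
    rcases hp with rfl | rfl
    · exact aux w w' hs u
    · refine aux w' w (fun x hx hx' => ?_) u
      obtain ⟨x', h1, h2, h3⟩ := hs x hx hx'
      exact ⟨x', h1, h3, h2⟩

end seqs

end FDiag

end Pool.Agent.Work.MP_3a2c1d_lc
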