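import Pool.Agent.Work.MP_3a2c1d_lc.Clause
import Pool.Agent.Work.MP_3a2c1d_lc.Quadrant

set_option autoImplicit false
set_option linter.all false

namespace Pool.Agent.Work.MP_3a2c1d_lc

open Helper86 Pd Mv

/-- product automorphism of a lexicographic product -/
def prodAut {Ω Λ : Type} [LinearOrder Ω] [LinearOrder Λ] (α : AutO Ω) (β : AutO Λ) :
    AutO (Ω ×ₗ Λ) :=
  AutO.mk' (fun v => toLex (AutO.act α (ofLex v).1, AutO.act β (ofLex v).2))
    (fun v => toLex (AutO.act α⁻¹ (ofLex v).1, AutO.act β⁻¹ (ofLex v).2))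
    (by
      intro v w h
      rw [Prod.Lex.lt_iff] at h ⊢
      rcases h with h | ⟨h1, h2⟩
      · left; exact (AutO.act_lt_iff α _ _).2 h
      · right; exact ⟨congrArg (AutO.act α) h1, (AutO.act_lt_iff β _ _).2 h2⟩)
    (by
      intro v
      simp only [ofLex_toLex, AutO.act_act_inv]
      rfl)

theorem act_prodAut {Ω Λ : Type} [LinearOrder Ω] [LinearOrder Λ] (α : AutO Ω) (β : AutO Λ)
    (v : Ω ×ₗ Λ) : AutO.act (prodAut α β) v =
      toLex (AutO.act α (ofLex v).1, AutO.act β (ofLex v).2) := rfl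

theorem lex_max_fst {Ω Λ : Type} [LinearOrder Ω] [LinearOrder Λ] (v w : Ω ×ₗ Λ) :
    (ofLex (max v w)).1 = max (ofLex v).1 (ofLex w).1 := by
  rcases le_total v w with h | h
  · rw [max_eq_right h]
    rw [Prod.Lex.le_iff] at h
    rcases h with h | ⟨h1, h2⟩
    · rw [max_eq_right h.le]
    · rw [h1, max_self]
  · rw [max_eq_left h]
    rw [Prod.Lex.le_iff] at h
    rcases h with h | ⟨h1, h2⟩
    · rw [max_eq_left h.le]
    · rw [h1, max_self]

theorem lex_min_fst {Ω Λ : Type} [LinearOrder Ω] [LinearOrder Λ] (v w : Ω ×ₗ Λ) :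
    (ofLex (min v w)).1 = min (ofLex v).1 (ofLex w).1 := by
  rcases le_total v w with h | h
  · rw [min_eq_left h]
    rw [Prod.Lex.le_iff] at h
    rcases h with h | ⟨h1, h2⟩
    · rw [min_eq_left h.le]
    · rw [h1, min_self]
  · rw [min_eq_right h]
    rw [Prod.Lex.le_iff] at h
    rcases h with h | ⟨h1, h2⟩
    · rw [min_eq_right h.le]
    · rw [h1, min_self]

section

variable {n : ℕ}

/-- the first coordinate of the product action -/
theorem prod_fst {Ω Λ : Type} [LinearOrder Ω] [LinearOrder Λ] (φ : Fin n → AutO Ω)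
    (ψ : Fin n → AutO Λ) (g : FL n) : ∀ v : Ω ×ₗ Λ,
      (ofLex ((Rep.ofHom fun i => prodAut (φ i) (ψ i)).act g v)).1 =
        (Rep.ofHom φ).act g (ofLex v).1 := by
  refine FL.induct (P := fun g => ∀ v : Ω ×ₗ Λ,
      (ofLex ((Rep.ofHom fun i => prodAut (φ i) (ψ i)).act g v)).1 =
        (Rep.ofHom φ).act g (ofLex v).1) ?_ ?_ ?_ ?_ ?_ ?_ g
  · intro i v; rfl
  · intro v; rw [Rep.act_one, Rep.act_one]
  · intro a b ha hb v
    rw [Rep.act_mul, Rep.act_mul, ha, hb]
  · intro a ha v
    apply (Rep.ofHom φ).act_inj a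
    rw [Rep.act_act_inv, ← ha, Rep.act_act_inv]
  · intro a b ha hb v
    rw [Rep.act_sup, Rep.act_sup, lex_max_fst, ha, hb]
  · intro a b ha hb v
    rw [Rep.act_inf, Rep.act_inf, lex_min_fst, ha, hb]

theorem prod_word_snd {Ω Λ : Type} [LinearOrder Ω] [LinearOrder Λ] (φ : Fin n → AutO Ω)
    (ψ : Fin n → AutO Λ) (w : FreeGroup (Fin n)) : ∀ v : Ω ×ₗ Λ,
      (ofLex (AutO.act (FreeGroup.lift (fun i => prodAut (φ i) (ψ i)) w) v)).2 =
        AutO.act (FreeGroup.lift ψ w) (ofLex v).2 := by
  induction w using FreeGroup.induction_on with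
  | C1 => intro v; rw [map_one, map_one]; rfl
  | of c => intro v; rw [FreeGroup.lift_apply_of, FreeGroup.lift_apply_of]; rfl
  | inv_of c ih =>
    intro v
    rw [map_inv, map_inv]
    have := ih (AutO.act (FreeGroup.lift (fun i => prodAut (φ i) (ψ i)) (FreeGroup.of c))⁻¹ v)
    rw [AutO.act_act_inv] at this
    rw [this, AutO.act_inv_act]
  | mul x y hx hy =>
    intro v
    rw [map_mul, map_mul, AutO.act_mul, AutO.act_mul, hx, hy]

/-- a representation of the free lattice-ordered group comes from automorphisms -/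
theorem rep_eq_ofHom {Ω : Type} [LinearOrder Ω] (R : Rep (FL n) Ω) (g : FL n) : ∀ v : Ω,
    R.act g v = (Rep.ofHom fun i => R.aut (FL.gen i)).act g v := by
  refine FL.induct (P := fun g => ∀ v : Ω,
    R.act g v = (Rep.ofHom fun i => R.aut (FL.gen i)).act g v) ?_ ?_ ?_ ?_ ?_ ?_ g
  · intro i v; rfl
  · intro v; rw [Rep.act_one, Rep.act_one]
  · intro a b ha hb v
    rw [Rep.act_mul, Rep.act_mul, hb, ha]
  · intro a ha v
    apply R.act_inj a
    rw [Rep.act_act_inv, ha, Rep.act_act_inv]
  · intro a b ha hb v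
    rw [Rep.act_sup, Rep.act_sup, ha, hb]
  · intro a b ha hb v
    rw [Rep.act_inf, Rep.act_inf, ha, hb]

theorem prem_consH {M : CM} : ∀ c ∈ consH M, c.prem ≠ [] := by
  intro c hc
  unfold consH at hc
  rw [List.mem_append, List.mem_flatMap] at hc
  rcases hc with hc | ⟨q, _, hc⟩ <;>
    simp only [List.mem_cons, List.not_mem_nil, or_false] at hc <;>
    rcases hc with rfl | rfl | rfl | rfl <;> simp [Con.prem]

theorem prem_consR {M : CM} (q : M.Q) (z : Bool) (r : Fin M.B) :
    ∀ c ∈ consR M q z r, c.prem ≠ [] := by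
  intro c hc
  unfold consR at hc
  split at hc
  · split at hc
    · simp only [List.mem_cons, List.not_mem_nil, or_false] at hc
      rcases hc with rfl | rfl <;> simp [Con.prem]
    · simp only [List.mem_cons, List.not_mem_nil, or_false] at hc
      rcases hc with rfl | rfl | rfl <;> simp [Con.prem]
    · simp only [List.mem_cons, List.not_mem_nil, or_false] at hc
      rcases hc with rfl | rfl | rfl <;> simp [Con.prem]
  · simp only [List.mem_cons, List.not_mem_nil, or_false] at hc
    rcases hc with rfl | rfl <;> simp [Con.prem]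

theorem prem_consV {M : CM} (q : M.Q) (z : Bool) : ∀ c ∈ consV M q z, c.prem ≠ [] := by
  intro c hc
  unfold consV at hc
  rw [List.mem_append, List.mem_flatMap] at hc
  rcases hc with hc | ⟨r, _, hc⟩
  · simp only [List.mem_cons, List.not_mem_nil, or_false] at hc
    rcases hc with rfl | rfl | rfl | rfl | rfl <;> simp [Con.prem]
  · rw [List.mem_cons] at hc
    rcases hc with rfl | hc
    · simp [Con.prem]
    · exact prem_consR q z r c hc

theorem prem_ne {M : CM} (q0 : M.Q) (r1 : Fin M.B) (N : ℕ) :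
    ∀ c ∈ cons M q0 r1 N, c.prem ≠ [] := by
  intro c hc
  unfold cons consFix at hc
  rw [List.mem_append, List.mem_append, List.mem_append, List.mem_append] at hc
  rcases hc with ((hc | hc) | hc) | (hc | hc)
  · exact prem_consH c hc
  · rw [List.mem_flatMap] at hc
    obtain ⟨q, _, hc⟩ := hc
    rw [List.mem_append] at hc
    rcases hc with hc | hc
    · exact prem_consV q _ c hc
    · exact prem_consV q _ c hc
  · simp only [List.mem_cons, List.not_mem_nil, or_false] at hc
    rcases hc with rfl | rfl <;> simp [Con.prem]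
  · rw [List.mem_flatMap] at hc
    obtain ⟨m, _, hc⟩ := hc
    unfold conMid at hc
    rw [List.mem_map] at hc
    obtain ⟨P, _, rfl⟩ := hc
    simp [Con.prem]
  · unfold conEnd at hc
    rw [List.mem_map] at hc
    obtain ⟨P, _, rfl⟩ := hc
    simp [Con.prem]

/-- soundness: a solution of the constraints in a free lattice-ordered group forces the machine
to stop -/
theorem sound {M : CM} (q0 : M.Q) (r1 : Fin M.B) (N : ℕ) (code : Var M → ℕ) (x : ℕ → FL n)
    (hx : ∀ c ∈ cons M q0 r1 N, ∀ t ∈ terms code c, tv x t = 1)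
    (hst : ¬ (x (code (Var.pd start)) ≤ 1)) : ∃ j, (conf q0 r1 N j).1 = M.hlt := by
  classical
  by_contra hno
  push Not at hno
  -- a point moved up by the start element
  obtain ⟨Ω, _, R, v, hv⟩ : ∃ (Ω : Type) (_ : LinearOrder Ω) (R : Rep (FL n) Ω) (v : Ω),
      v < R.act (x (code (Var.pd start))) v := by
    by_contra hcon
    apply hst
    apply le_of_reps
    intro Ω _ R v
    rw [R.act_one]
    by_contra hlt
    exact hcon ⟨Ω, _, R, v, not_le.1 hlt⟩
  obtain ⟨Λ, _, ψ, o, ho⟩ := exists_free_chain (Fin n)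
  let φ : Fin n → AutO Ω := fun i => R.aut (FL.gen i)
  let Φ : Fin n → AutO (Ω ×ₗ Λ) := fun i => prodAut (φ i) (ψ i)
  let R' : Rep (FL n) (Ω ×ₗ Λ) := Rep.ofHom Φ
  let p : Ω ×ₗ Λ := toLex (v, o)
  let y : Var M → FL n := x ∘ code
  let D : Sem M (Ω ×ₗ Λ) := semOf R' y
  have hp : D.hold start p := by
    change p < R'.act (x (code (Var.pd start))) p
    rw [Prod.Lex.lt_iff]
    left
    have h1 := prod_fst φ ψ (x (code (Var.pd start))) p
    have h2 := rep_eq_ofHom R (x (code (Var.pd start))) v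
    change v < (ofLex (R'.act (x (code (Var.pd start))) p)).1
    rw [h1]
    change v < (Rep.ofHom φ).act (x (code (Var.pd start))) v
    rw [← h2]
    exact hv
  have hsat : ∀ c ∈ cons M q0 r1 N, D.Sat c := by
    intro c hc
    apply sat_of_seqs R' y c (prem_ne q0 r1 N c hc)
    intro s hs u
    have h1 := hx c hc (trm ((pairs s.1 s.2).map fun w => w.map fun a => (code a.1, a.2)))
      (List.mem_map.2 ⟨s, hs, rfl⟩)
    have hne : s.1 ≠ [] ∧ s.2 ≠ [] := by
      have hprem := prem_ne q0 r1 N c hc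
      cases c with
      | imp Ps w Cs =>
        cases Cs with
        | nil =>
          rw [seqs, List.mem_singleton] at hs
          subst hs
          simp only [Con.prem] at hprem
          exact ⟨by simpa using hprem, by simp⟩
        | cons C0 Cs =>
          rw [seqs, List.mem_singleton] at hs
          subst hs
          simp only [Con.prem] at hprem
          exact ⟨by simpa using hprem, by simp⟩
      | eq Ps w w' =>
        rw [seqs, List.mem_cons, List.mem_singleton] at hs
        rcases hs with rfl | rfl <;> simp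
    exact (sequent x code s.1 s.2 hne.1 hne.2).1 h1 _ R' u
  -- all points of the diagram lie in the free orbit of `p`
  let pos : FreeGroup (Fin n) → Ω ×ₗ Λ := fun w => AutO.act (FreeGroup.lift Φ w) p
  have pos_inj : Function.Injective pos := by
    intro w w' h
    have h1 : AutO.act (FreeGroup.lift Φ (w'⁻¹ * w)) p = p := by
      rw [map_mul, AutO.act_mul]
      change AutO.act (FreeGroup.lift Φ w'⁻¹) (pos w) = p
      rw [h, map_inv, AutO.act_inv_act]
    have h2 := prod_word_snd φ ψ (w'⁻¹ * w) p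
    change (ofLex (AutO.act (FreeGroup.lift Φ (w'⁻¹ * w)) p)).2 = _ at h2
    rw [h1] at h2
    have h3 := ho (w'⁻¹ * w) h2.symm
    exact (inv_mul_eq_one.1 h3).symm
  obtain ⟨WT, hWT⟩ := FL.bounded (y (Var.mv T))
  obtain ⟨WH, hWH⟩ := FL.bounded (y (Var.mv H))
  have mvT : ∀ w, ∃ w' ∈ WT, D.mv T (pos w) = pos (w' * w) := by
    intro w
    obtain ⟨w', hw', e⟩ := hWT _ Φ (pos w)
    refine ⟨w', hw', ?_⟩
    change R'.act (y (Var.mv T)) (pos w) = AutO.act (FreeGroup.lift Φ (w' * w)) p
    rw [map_mul, AutO.act_mul]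
    exact e
  have mvH : ∀ w, ∃ w' ∈ WH, D.mv H (pos w) = pos (w' * w) := by
    intro w
    obtain ⟨w', hw', e⟩ := hWH _ Φ (pos w)
    refine ⟨w', hw', ?_⟩
    change R'.act (y (Var.mv H)) (pos w) = AutO.act (FreeGroup.lift Φ (w' * w)) p
    rw [map_mul, AutO.act_mul]
    exact e
  have orbit : ∀ j m, ∃ w, pt D p j m = pos w := by
    intro j m
    have hH : ∃ w, (D.mv H)^[j] p = pos w := by
      induction j with
      | zero => exact ⟨1, by change p = _; simp only [pos, map_one]; rfl⟩
      | succ j ih =>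
        obtain ⟨w, hw⟩ := ih
        obtain ⟨w', _, e⟩ := mvH w
        exact ⟨w' * w, by rw [Function.iterate_succ_apply', hw, e]⟩
    induction m with
    | zero => exact hH
    | succ m ih =>
      obtain ⟨w, hw⟩ := ih
      obtain ⟨w', _, e⟩ := mvT w
      exact ⟨w' * w, by rw [pt_succ, hw, e]⟩
  choose f hf using orbit
  have moveH : ∀ j m, m ≤ N + j → ∃ w' ∈ WH, f (j + 1) m = w' * f j m := by
    intro j m hm
    obtain ⟨w', hw', e⟩ := mvH (f j m)
    refine ⟨w', hw', pos_inj ?_⟩
    rw [← hf, ← e, ← hf]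
    exact (pt_move hsat p hp hno j m hm).symm
  have moveT : ∀ j m, ∃ w' ∈ WT, f j (m + 1) = w' * f j m := by
    intro j m
    obtain ⟨w', hw', e⟩ := mvT (f j m)
    refine ⟨w', hw', pos_inj ?_⟩
    rw [← hf, ← e, ← hf, pt_succ]
  let L : ℕ := (WT ∪ WH).sup FreeGroup.norm
  have hL1 : ∀ w ∈ WT, w.norm ≤ L := fun w hw => Finset.le_sup (f := FreeGroup.norm)
    (Finset.mem_union_left _ hw)
  have hL2 : ∀ w ∈ WH, w.norm ≤ L := fun w hw => Finset.le_sup (f := FreeGroup.norm)
    (Finset.mem_union_right _ hw)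
  apply no_quadrant (fun r a => f (r + a) a) ?_ (L + L) ?_ ?_
  · intro a b c d h
    have h1 : pt D p (a + b) b = pt D p (c + d) d := by rw [hf, hf]; exact congrArg pos h
    obtain ⟨h2, h3⟩ := pt_inj hsat p hp hno (a + b) b (c + d) d (by omega) (by omega) h1
    omega
  · intro r a
    obtain ⟨w1, hw1, e1⟩ := moveH (r + a) a (by omega)
    obtain ⟨w2, hw2, e2⟩ := moveT (r + a + 1) a
    refine ⟨w2 * w1, ?_, ?_⟩
    · exact (FreeGroup.norm_mul_le _ _).trans (Nat.add_le_add (hL1 _ hw2) (hL2 _ hw1))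
    · change f (r + (a + 1)) (a + 1) = _
      rw [mul_assoc, ← e1]
      exact e2
  · intro r a
    obtain ⟨w1, hw1, e1⟩ := moveH (r + a) a (by omega)
    refine ⟨w1, (hL2 _ hw1).trans (Nat.le_add_left _ _), ?_⟩
    change f (r + 1 + a) a = _
    have : r + 1 + a = r + a + 1 := by omega
    rw [this]
    exact e1

end

end Pool.Agent.Work.MP_3a2c1d_lc
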